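import Mathlib

/-! # RR.YDef : smooth projective curves in weighted projective space (definitions only, no sorry)

`HR I = K[z] / (I)`, `frm v I m` = the forms of degree `m` (weights `v`), `BPt I` = the points of the affine cone except the vertex, `Mi v I β` = the ideal generated by the forms which vanish at `β`,
`tan I β` = the tangent space of the affine cone at `β`. -/

namespace RR

open Module MvPolynomial

variable {K : Type} [Field K] {s : ℕ}

/-- the homogeneous coordinate ring -/
abbrev HR (I : Set (MvPolynomial (Fin s) K)) : Type := MvPolynomial (Fin s) K ⧸ Ideal.span I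

/-- the forms of degree `m` -/
noncomputable def frm (v : Fin s → ℕ) (I : Set (MvPolynomial (Fin s) K)) (m : ℕ) : Submodule K (HR I) :=
  (weightedHomogeneousSubmodule K v m).map (Ideal.Quotient.mkₐ K (Ideal.span I)).toLinearMap

/-- the points of the affine cone except the vertex -/
def BPt (I : Set (MvPolynomial (Fin s) K)) : Type := {β : Fin s → K // β ≠ 0 ∧ ∀ f ∈ I, eval β f = 0}

/-- the value at a point -/
noncomputable def evq {I : Set (MvPolynomial (Fin s) K)} (β : BPt I) : HR I →ₐ[K] K :=
  Ideal.Quotient.liftₐ (Ideal.span I) (aeval β.1) (fun a ha => by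
    have h1 : Ideal.span I ≤ RingHom.ker (aeval β.1 : MvPolynomial (Fin s) K →ₐ[K] K) := by
      refine Ideal.span_le.2 fun f hf => ?_
      have h2 := β.2.2 f hf
      rw [← coe_aeval_eq_eval] at h2
      exact h2
    exact h1 ha)

/-- the tangent space of the affine cone -/
noncomputable def tan (I : Set (MvPolynomial (Fin s) K)) (β : Fin s → K) : Submodule K (Fin s → K) where
  carrier := {w | ∀ f ∈ I, ∑ i, w i * eval β (pderiv i f) = 0}
  zero_mem' := fun f _ => by simp
  add_mem' := fun {x y} hx hy f hf => by
    have h1 := hx f hf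
    have h2 := hy f hf
    simp only [Pi.add_apply, add_mul, Finset.sum_add_distrib, h1, h2, add_zero]
  smul_mem' := fun c x hx f hf => by
    have h1 := hx f hf
    simp only [Pi.smul_apply, smul_eq_mul, mul_assoc, ← Finset.mul_sum, h1, mul_zero]

/-- the ideal generated by the forms which vanish at the point -/
noncomputable def Mi (v : Fin s → ℕ) (I : Set (MvPolynomial (Fin s) K)) (β : BPt I) : Ideal (HR I) :=
  Ideal.span {a | ∃ m, a ∈ frm v I m ∧ evq β a = 0}

/-- a smooth projective curve of degree `d` and genus `g` in the weighted projective space with the weights `v`: the equations `I` are homogeneous and generate a prime ideal, the affine cone has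
tangent spaces of dimension `2` outside the vertex, the stabilisers are trivial, and there are `m d + 1 - g` linearly independent forms of degree `m` for all large `m` -/
structure SmC (v : Fin s → ℕ) (I : Set (MvPolynomial (Fin s) K)) (d g : ℕ) : Prop where
  vpos : ∀ i, 0 < v i
  hom : ∀ f ∈ I, ∃ m, 0 < m ∧ IsWeightedHomogeneous v f m
  prime : (Ideal.span I).IsPrime
  smooth : ∀ β : BPt I, finrank K (tan I β.1) = 2
  stab : ∀ β : BPt I, ∀ e : ℕ, (∀ i, β.1 i ≠ 0 → e ∣ v i) → e = 1
  hilb : ∃ N, ∀ m, N ≤ m → finrank K (frm v I m) + g = m * d + 1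
  dpos : 0 < d

/-- the field of fractions -/
abbrev QF (I : Set (MvPolynomial (Fin s) K)) : Type := FractionRing (HR I)

/-- the inclusion -/
noncomputable abbrev io {I : Set (MvPolynomial (Fin s) K)} : HR I →+* QF I := algebraMap (HR I) (QF I)

/-- the points of the curve: the ideals `Mi` -/
def CPt (v : Fin s → ℕ) (I : Set (MvPolynomial (Fin s) K)) : Type := {M : Ideal (HR I) // ∃ β : BPt I, M = Mi v I β}

/-- coordinates of a point of the curve -/
noncomputable def CPt.rep {v : Fin s → ℕ} {I : Set (MvPolynomial (Fin s) K)} (M : CPt v I) : BPt I := M.2.choose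

theorem CPt.rep_eq {v : Fin s → ℕ} {I : Set (MvPolynomial (Fin s) K)} (M : CPt v I) : M.1 = Mi v I M.rep := M.2.choose_spec

end RR
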