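import Pool.Agent.H99.RR.One

/-! # RR.Gen : the number of gaps at a point is at most `g` (120 lines)

`P = X.one h q`.  For `m : ℕ` the functions of `L (single q m)` are elements of `R q` of degree `≤ m`.  Claim: `finrank (L (single q m)) ≤ card {j ≤ m | j ∈ P.D}` by induction on `m` (`L_step`: the linear map `l` on `L (single q (m+1))` has kernel `L (single q m)`;
it is zero if `m + 1 ∉ P.D`, and its image has dimension `≤ 1` otherwise; `m = 0`: `L_zero`, `0 ∈ P.D`).  With `ri`: `card {j ≤ m | j ∉ P.D} ≤ m + 1 - (m + 1 - g) = g` for all `m`.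
So the complement of `P.D` is finite (a set of natural numbers all of whose finite initial parts have at most `g` elements) with at most `g` elements (`Set.ncard`). -/

namespace RR

open Module

variable {K F : Type} [Field K] [Infinite K] [Field F] [Algebra K F] (X : Crv K F) {g : ℕ}

omit [Infinite K] in
/-- one step of the filtration by pole order -/
private theorem gen_step (h : X.RI g) (q : X.Pt) (m : ℕ) :
    (finrank K (X.L (Finsupp.single q ((m + 1 : ℕ) : ℤ))) ≤ finrank K (X.L (Finsupp.single q (m : ℤ))) + 1) ∧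
      ((∀ x : F, x ∈ X.L (Finsupp.single q ((m + 1 : ℕ) : ℤ)) → x ∈ X.L (Finsupp.single q (m : ℤ))) →
        finrank K (X.L (Finsupp.single q ((m + 1 : ℕ) : ℤ))) ≤ finrank K (X.L (Finsupp.single q (m : ℤ)))) := by
  have hle : Finsupp.single q (m : ℤ) ≤ Finsupp.single q ((m + 1 : ℕ) : ℤ) := by
    rw [Finsupp.single_le_single]
    push_cast
    omega
  haveI := L_fd X h (Finsupp.single q (m : ℤ))
  haveI := L_fd X h (Finsupp.single q ((m + 1 : ℕ) : ℤ))
  refine ⟨?_, fun hx => ?_⟩
  · have h1 := L_rank X h hle
    rw [Finsupp.degree_single, Finsupp.degree_single] at h1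
    push_cast at h1
    push_cast
    omega
  · exact Submodule.finrank_mono hx

/-- a new function of the space for `m + 1` has degree `m + 1` -/
private theorem gen_new (h : X.RI g) (q : X.Pt) (m : ℕ) (hm : m + 1 ∉ (X.one h q).D) (x : F)
    (hx : x ∈ X.L (Finsupp.single q ((m + 1 : ℕ) : ℤ))) : x ∈ X.L (Finsupp.single q (m : ℤ)) := by
  classical
  rw [Crv.mem_L] at hx ⊢
  intro p
  by_cases hp : p = q
  · subst hp
    have h1 := hx p
    rw [Finsupp.single_eq_same] at h1 ⊢
    rcases h1 with h1 | h1
    · exact Or.inl h1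
    · by_cases hx0 : x = 0
      · exact Or.inl hx0
      refine Or.inr ?_
      by_contra hc
      have h2 : (X.pl p).ord x = -((m : ℤ) + 1) := by
        push_cast at h1
        omega
      have hR : x ∈ X.R p := by
        rw [Crv.mem_R]
        intro r hr
        have h3 := hx r
        rwa [Finsupp.single_eq_of_ne hr, neg_zero] at h3
      refine hm ⟨⟨x, hR⟩, fun h0 => hx0 (congrArg Subtype.val h0), ?_⟩
      have h4 := one_deg X h (q := p) (f := ⟨x, hR⟩) (fun h0 => hx0 (congrArg Subtype.val h0))
      rw [h2] at h4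
      omega
  · have h1 := hx p
    rw [Finsupp.single_eq_of_ne hp, neg_zero] at h1 ⊢
    exact h1

open Classical in
private theorem gen_card (h : X.RI g) (q : X.Pt) (m : ℕ) :
    finrank K (X.L (Finsupp.single q (m : ℤ))) ≤ ((Finset.range (m + 1)).filter (· ∈ (X.one h q).D)).card := by
  induction m with
  | zero =>
    rw [Nat.cast_zero, Finsupp.single_zero, L_zero X h]
    refine Finset.card_pos.2 ⟨0, Finset.mem_filter.2 ⟨Finset.mem_range.2 (Nat.succ_pos 0), 1, ?_, ?_⟩⟩
    · exact one_ne_zero
    · have h1 := (X.one h q).deg_const 1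
      rwa [map_one] at h1
  | succ m ih =>
    obtain ⟨h1, h2⟩ := gen_step X h q m
    rw [Finset.range_add_one, Finset.filter_insert]
    by_cases hm : m + 1 ∈ (X.one h q).D
    · rw [if_pos hm, Finset.card_insert_of_notMem]
      · exact h1.trans (Nat.add_le_add_right ih 1)
      · intro hc
        exact Finset.notMem_range_self (Finset.mem_filter.1 hc).1
    · rw [if_neg hm]
      exact (h2 (gen_new X h q m hm)).trans ih

theorem one_g (h : X.RI g) (q : X.Pt) : (X.one h q).g ≤ g := by
  classical
  unfold GB.OnePt.g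
  by_cases hf : ((X.one h q).D)ᶜ.Finite
  · obtain ⟨m, hm⟩ := hf.bddAbove
    have h1 : ((X.one h q).D)ᶜ ⊆ (((Finset.range (m + 1)).filter (· ∉ (X.one h q).D) : Finset ℕ) : Set ℕ) := by
      intro j hj
      rw [Finset.mem_coe, Finset.mem_filter, Finset.mem_range]
      exact ⟨Nat.lt_succ_of_le (hm hj), hj⟩
    have h2 := Set.ncard_le_ncard h1 (Finset.finite_toSet _)
    rw [Set.ncard_coe_finset] at h2
    refine h2.trans ?_
    have h3 := gen_card X h q m
    have h4 := h.ri (Finsupp.single q (m : ℤ)) (Finsupp.single_nonneg.2 (Int.natCast_nonneg m))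
    rw [Finsupp.degree_single] at h4
    have h5 := Finset.card_filter_add_card_filter_not (s := Finset.range (m + 1)) (fun j => j ∈ (X.one h q).D)
    rw [Finset.card_range] at h5
    omega
  · rw [Set.Infinite.ncard hf]
    exact Nat.zero_le _

end RR
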