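import Pool.Agent.H99.RR.Cht
import Pool.Agent.H99.RR.Gen
import Pool.Agent.H99.GC.MainB

/-! # RR.Fin : the main theorem for a base curve given by a function field and coordinates (150 lines)

`x = b(t)^2 - a(t)^3 ≠ 0` (`hab` with `c = d = 1`).  For every `p`: `w_p ^ (12 n) x = (b^2 - a^3)(w_p ^ v * t)` has order `≥ 0` at `p` and reduces to `dd W (bt p)`; `Σ_p (ord_p x + 12 n E p) = 12 n E.degree > 0` (`deg_div`), so there is `q` with positive order, `dd W (bt q) = 0` (`res_pos`).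
Let `S` be the finite set of the points `p` with `(Q j).β = c ^ v * bt p` (`surj`, for the `j` with `(Q j).β ≠ 0`).  `exists_chart`; `dd W C.inf = c ^ (12 n) * dd W (bt q) = 0` (`ev_scale`).  `C.n = W.n * (m - card U) = W.n * E.degree` (as integers, `E.degree > 0`).
`(X.one h q).g ≤ g` (`one_g`).  `hab` for `C.A`, `C.B`: in `F`, `C.A = u ^ (4 n) a(t)`, `C.B = u ^ (6 n) b(t)`, so `c A^3 = d B^2` gives `c a(t)^3 = d b(t)^2`.  `In`: `(Q j).β = 0`, or it is `c ^ v * bt p` with `p = q` (use `inf`) or `p ≠ q`, `p ∈ S` (use `bp`); combine the scalars.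
`GB.alt_b`. -/

namespace RR

open Module

section aux

variable {K F : Type} [Field K] [Field F] [Algebra K F] {s : ℕ}

private theorem res_aeval (P : Pl K F) {τ : Fin s → F} (hτ : ∀ i, P.Ge 0 (τ i)) (f : MvPolynomial (Fin s) K) :
    P.Ge 0 (MvPolynomial.aeval τ f) ∧ P.res (MvPolynomial.aeval τ f) = MvPolynomial.aeval (fun i => P.res (τ i)) f := by
  induction f using MvPolynomial.induction_on with
  | C c =>
    rw [MvPolynomial.aeval_C, MvPolynomial.aeval_C]
    exact ⟨Pl.Ge.const P c, P.res_const c⟩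
  | add p q hp hq =>
    rw [map_add, map_add]
    refine ⟨hp.1.add hq.1, ?_⟩
    rw [P.res_add hp.1 hq.1, hp.2, hq.2]
  | mul_X p i hp =>
    rw [map_mul, map_mul, MvPolynomial.aeval_X, MvPolynomial.aeval_X]
    refine ⟨?_, ?_⟩
    · have h := hp.1.mul (hτ i)
      rwa [zero_add] at h
    · rw [P.res_mul hp.1 (hτ i), hp.2]

private theorem ord_pow (P : Pl K F) {x : F} (hx : x ≠ 0) (n : ℕ) : P.ord (x ^ n) = n * P.ord x := by
  induction n with
  | zero => rw [pow_zero, P.ord_one, Nat.cast_zero, zero_mul]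
  | succ n ih =>
    rw [pow_succ, P.ord_mul (pow_ne_zero n hx) hx, ih]
    push_cast
    ring

end aux

variable {K F : Type} [Field K] [IsAlgClosed K] [CharZero K] [Field F] [Algebra K F] (X : Crv K F) {g s : ℕ} {W : ES.Wm K s}

theorem exists_q (hW : W.Ok) (h : X.RI g) (M : Emb X W) (hE : 0 < M.E.degree)
    (hab : MvPolynomial.aeval M.t W.b ^ 2 - MvPolynomial.aeval M.t W.a ^ 3 ≠ 0) : ∃ q : X.Pt, ES.dd W (M.bt q) = 0 := by
  by_contra hne
  push Not at hne
  have key : X.div (MvPolynomial.aeval M.t W.b ^ 2 - MvPolynomial.aeval M.t W.a ^ 3) + (12 * W.n) • M.E = 0 := by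
    ext p
    have h1 : ES.dd W (fun i => M.w p ^ W.v i * M.t i) =
        M.w p ^ (12 * W.n) * (MvPolynomial.aeval M.t W.b ^ 2 - MvPolynomial.aeval M.t W.a ^ 3) := by
      unfold ES.dd
      rw [ES.ev_scale hW.b, ES.ev_scale hW.a]
      unfold ES.ev
      ring
    have hb := res_aeval (X.pl p) (M.int p) W.b
    have ha := res_aeval (X.pl p) (M.int p) W.a
    have hb2 : (X.pl p).Ge 0 (MvPolynomial.aeval (fun i => M.w p ^ W.v i * M.t i) W.b ^ 2) := by
      have h2 := hb.1.mul hb.1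
      rwa [zero_add, ← pow_two] at h2
    have ha2 : (X.pl p).Ge 0 (MvPolynomial.aeval (fun i => M.w p ^ W.v i * M.t i) W.a ^ 2) := by
      have h2 := ha.1.mul ha.1
      rwa [zero_add, ← pow_two] at h2
    have ha3 : (X.pl p).Ge 0 (MvPolynomial.aeval (fun i => M.w p ^ W.v i * M.t i) W.a ^ 3) := by
      have h2 := ha2.mul ha.1
      rwa [zero_add, ← pow_succ] at h2
    have hna3 : (X.pl p).Ge 0 (-(MvPolynomial.aeval (fun i => M.w p ^ W.v i * M.t i) W.a ^ 3)) := by
      rcases ha3 with h3 | h3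
      · left
        rw [h3, neg_zero]
      · right
        rwa [(X.pl p).ord_neg]
    have hy : (X.pl p).Ge 0 (ES.dd W (fun i => M.w p ^ W.v i * M.t i)) := by
      have h2 := hb2.add hna3
      rwa [← sub_eq_add_neg] at h2
    have hres : (X.pl p).res (ES.dd W (fun i => M.w p ^ W.v i * M.t i)) = ES.dd W (M.bt p) := by
      have e1 : (X.pl p).res (MvPolynomial.aeval (fun i => M.w p ^ W.v i * M.t i) W.b ^ 2) = ES.ev W.b (M.bt p) ^ 2 := by
        rw [pow_two, (X.pl p).res_mul hb.1 hb.1, hb.2, ← pow_two]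
        rfl
      have e2 : (X.pl p).res (MvPolynomial.aeval (fun i => M.w p ^ W.v i * M.t i) W.a ^ 3) = ES.ev W.a (M.bt p) ^ 3 := by
        rw [pow_succ, (X.pl p).res_mul ha2 ha.1, pow_two, (X.pl p).res_mul ha.1 ha.1, ha.2, ← pow_two, ← pow_succ]
        rfl
      have e3 : (X.pl p).res (-(MvPolynomial.aeval (fun i => M.w p ^ W.v i * M.t i) W.a ^ 3)) = -(ES.ev W.a (M.bt p) ^ 3) := by
        rw [← e2]
        have h4 : -(MvPolynomial.aeval (fun i => M.w p ^ W.v i * M.t i) W.a ^ 3) =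
            algebraMap K F (-1) * (MvPolynomial.aeval (fun i => M.w p ^ W.v i * M.t i) W.a ^ 3) := by
          rw [map_neg, map_one, neg_one_mul]
        rw [h4, (X.pl p).res_mul (Pl.Ge.const (X.pl p) (-1)) ha3, (X.pl p).res_const, neg_one_mul]
      unfold ES.dd
      rw [sub_eq_add_neg, sub_eq_add_neg]
      show (X.pl p).res (MvPolynomial.aeval (fun i => M.w p ^ W.v i * M.t i) W.b ^ 2 +
        -(MvPolynomial.aeval (fun i => M.w p ^ W.v i * M.t i) W.a ^ 3)) = _
      rw [(X.pl p).res_add hb2 hna3, e1, e3]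
    have hy0 : ES.dd W (fun i => M.w p ^ W.v i * M.t i) ≠ 0 := by
      rw [h1]
      exact mul_ne_zero (pow_ne_zero _ (M.w_ne p)) hab
    have h5 : ¬ (1 ≤ (X.pl p).ord (ES.dd W (fun i => M.w p ^ W.v i * M.t i))) := by
      intro h6
      apply hne p
      rw [← hres]
      exact ((X.pl p).res_pos hy).2 (Or.inr h6)
    have h6 : 0 ≤ (X.pl p).ord (ES.dd W (fun i => M.w p ^ W.v i * M.t i)) := hy.resolve_left hy0
    have h7 : (X.pl p).ord (ES.dd W (fun i => M.w p ^ W.v i * M.t i)) = 0 := by omega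
    rw [h1, (X.pl p).ord_mul (pow_ne_zero _ (M.w_ne p)) hab, ord_pow (X.pl p) (M.w_ne p), M.w_ord p] at h7
    rw [Finsupp.add_apply, X.div_apply hab, Finsupp.smul_apply, Finsupp.coe_zero, Pi.zero_apply, nsmul_eq_mul]
    linarith
  have h8 := congrArg Finsupp.degree key
  rw [map_add, deg_div X h hab, map_nsmul, map_zero, zero_add, nsmul_eq_mul] at h8
  have h9 : (0 : ℤ) < ((12 * W.n : ℕ) : ℤ) * M.E.degree := by
    refine mul_pos ?_ hE
    have := hW.n
    omega
  omega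

theorem main_rr (hW : W.Ok) (h : X.RI g) (M : Emb X W) (hE : 0 < M.E.degree)
    (hab : ∀ c d : K, c • MvPolynomial.aeval M.t W.a ^ 3 = d • MvPolynomial.aeval M.t W.b ^ 2 → c = 0 ∧ d = 0) {k : ℕ}
    (hk : (W.n : ℤ) * M.E.degree + g ≤ k) {Q : Fin k → ES.Pt s K} (hQ : ∀ j, ES.OnW W (Q j)) :
    ∃ N : ℕ, 0 < N ∧ N • ES.alt Q ∈ ES.RatEq k W := by
  classical
  haveI := X.ne
  have hx : MvPolynomial.aeval M.t W.b ^ 2 - MvPolynomial.aeval M.t W.a ^ 3 ≠ 0 := by
    intro h0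
    have h1 := hab 1 1 (by rw [one_smul, one_smul, sub_eq_zero.1 h0])
    exact one_ne_zero h1.1
  obtain ⟨q, hq⟩ := exists_q X hW h M hE hx
  have hpt : ∀ j, (Q j).β ≠ 0 → ∃ p : X.Pt, ∃ c : K, c ≠ 0 ∧ (Q j).β = fun i => c ^ W.v i * M.bt p i :=
    fun j hj => M.surj (Q j).β hj (hQ j).2.1
  choose! p hp using hpt
  obtain ⟨C, u, hu, ht, hdeg, ⟨ci, hci, hinf⟩, hS⟩ := exists_chart X hW h M q (Finset.univ.image p)
  have hdd : ES.dd W C.inf = 0 := by
    rw [hinf]
    unfold ES.dd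
    rw [ES.ev_scale hW.b, ES.ev_scale hW.a]
    have h1 : (ci ^ (6 * W.n) * ES.ev W.b (M.bt q)) ^ 2 - (ci ^ (4 * W.n) * ES.ev W.a (M.bt q)) ^ 3 = ci ^ (12 * W.n) * ES.dd W (M.bt q) := by
      unfold ES.dd
      ring
    rw [h1, hq, mul_zero]
  have hA : ((C.A : X.R q) : F) = u ^ (4 * W.n) * MvPolynomial.aeval M.t W.a := by
    have h1 : ((C.A : X.R q) : F) = MvPolynomial.aeval (fun i => ((C.t i : X.R q) : F)) W.a := by
      exact (MvPolynomial.comp_aeval_apply C.t (X.R q).val W.a)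
    rw [h1]
    have h3 : (fun i => ((C.t i : X.R q) : F)) = fun i => u ^ W.v i * M.t i := funext ht
    rw [h3]
    exact ES.ev_scale hW.a u M.t
  have hB : ((C.B : X.R q) : F) = u ^ (6 * W.n) * MvPolynomial.aeval M.t W.b := by
    have h1 : ((C.B : X.R q) : F) = MvPolynomial.aeval (fun i => ((C.t i : X.R q) : F)) W.b := by
      exact (MvPolynomial.comp_aeval_apply C.t (X.R q).val W.b)
    rw [h1]
    have h3 : (fun i => ((C.t i : X.R q) : F)) = fun i => u ^ W.v i * M.t i := funext ht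
    rw [h3]
    exact ES.ev_scale hW.b u M.t
  have hab' : ∀ c d : K, c • C.A ^ 3 = d • C.B ^ 2 → c = 0 ∧ d = 0 := by
    intro c d hcd
    apply hab
    have h1 : ((c • C.A ^ 3 : X.R q) : F) = ((d • C.B ^ 2 : X.R q) : F) := by rw [hcd]
    have h2 : c • (u ^ (4 * W.n) * MvPolynomial.aeval M.t W.a) ^ 3 = d • (u ^ (6 * W.n) * MvPolynomial.aeval M.t W.b) ^ 2 := by
      rw [← hA, ← hB]
      exact h1
    have h3 : (u ^ (4 * W.n) * MvPolynomial.aeval M.t W.a) ^ 3 = u ^ (12 * W.n) * MvPolynomial.aeval M.t W.a ^ 3 := by ring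
    have h4 : (u ^ (6 * W.n) * MvPolynomial.aeval M.t W.b) ^ 2 = u ^ (12 * W.n) * MvPolynomial.aeval M.t W.b ^ 2 := by ring
    rw [h3, h4, ← mul_smul_comm, ← mul_smul_comm] at h2
    exact mul_left_cancel₀ (pow_ne_zero _ hu) h2
  have hn : 0 < C.n := by
    unfold GB.Chart.n
    refine Nat.mul_pos hW.n ?_
    omega
  have hk' : C.n + (X.one h q).g ≤ k := by
    have h1 := one_g X h q
    have h2 : ((C.n : ℕ) : ℤ) = (W.n : ℤ) * M.E.degree := by
      unfold GB.Chart.n
      rw [← hdeg]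
      push_cast [Nat.cast_sub (show C.U.card ≤ C.m by omega)]
      ring
    omega
  refine GB.alt_b C hW hdd hab' hn hk' hQ fun j => ?_
  by_cases hj : (Q j).β = 0
  · exact Or.inl hj
  · right
    obtain ⟨c, hc, hc2⟩ := hp j hj
    by_cases hpq : p j = q
    · right
      refine ⟨c * ci⁻¹, mul_ne_zero hc (inv_ne_zero hci), ?_⟩
      rw [hc2, hinf, hpq]
      funext i
      rw [mul_pow, inv_pow]
      have h1 : ci ^ W.v i ≠ 0 := pow_ne_zero _ hci
      field_simp
    · left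
      obtain ⟨h1, c', hc', h2⟩ := hS (p j) (Finset.mem_image_of_mem p (Finset.mem_univ j)) hpq
      refine ⟨c * c'⁻¹, mul_ne_zero hc (inv_ne_zero hc'), X.e q (p j) hpq, h1, ?_⟩
      rw [hc2, h2]
      funext i
      rw [mul_pow, inv_pow]
      have h3 : c' ^ W.v i ≠ 0 := pow_ne_zero _ hc'
      field_simp

end RR
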