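import Pool.Agent.H99.RR.Lsp

/-! # RR.Deg : degrees of divisors of functions (120 lines)

`div_mul`: `Finsupp.ext`, `ord_mul`.  `L_mulx`: multiplication by `x` is a linear equivalence `L(D) → L(D - div x)` (inverse: multiplication by `x⁻¹`, `ord x⁻¹ = - ord x`).
`ri_all`: `D' = D ⊔ 0` is effective; `D'.degree + 1 ≤ finrank (L D') + g ≤ finrank (L D) + (D'.degree - D.degree) + g` (`L_rank`).
`deg_div`: let `e = (div x).degree`.  For all `N : ℕ`, `finrank (L 0) = finrank (L (0 - N • div x))` (`L_mulx` for `x ^ N`, `div (x ^ N) = N • div x`) and `ri_all` gives `-N e + 1 ≤ 1 + g`, for all `N`; so `e ≥ 0`; the same for `x⁻¹` (`div x⁻¹ = - div x`).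
`L_neg`: a nonzero `x ∈ L D` has `div x + D ≥ 0`, so its degree `D.degree` is `≥ 0` (the degree of `0 ≤ D'` is nonnegative: `Finset.sum_nonneg`). -/

namespace RR

open Module

variable {K F : Type} [Field K] [Field F] [Algebra K F] (X : Crv K F) {g : ℕ}

theorem div_mul {x y : F} (hx : x ≠ 0) (hy : y ≠ 0) : X.div (x * y) = X.div x + X.div y := by
  ext p
  rw [Finsupp.add_apply, X.div_apply (mul_ne_zero hx hy), X.div_apply hx, X.div_apply hy, (X.pl p).ord_mul hx hy]

theorem div_inv {x : F} (hx : x ≠ 0) : X.div x⁻¹ = - X.div x := by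
  ext p
  have h := (X.pl p).ord_mul hx (inv_ne_zero hx)
  rw [mul_inv_cancel₀ hx, (X.pl p).ord_one] at h
  rw [Finsupp.neg_apply, X.div_apply (inv_ne_zero hx), X.div_apply hx]
  omega

theorem div_const {c : K} (hc : c ≠ 0) : X.div (algebraMap K F c) = 0 := by
  ext p
  rw [X.div_apply ((map_ne_zero (algebraMap K F)).2 hc), (X.pl p).ord_const hc, Finsupp.zero_apply]

theorem degree_nonneg {D : X.Pt →₀ ℤ} (h : 0 ≤ D) : 0 ≤ D.degree := by
  rw [Finsupp.degree_apply]
  exact Finset.sum_nonneg fun i _ => h i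

private theorem mul_mem' {x : F} (hx : x ≠ 0) {D : X.Pt →₀ ℤ} {y : F} (hy : y ∈ X.L D) : x * y ∈ X.L (D - X.div x) := by
  intro p
  rw [Finsupp.sub_apply, X.div_apply hx]
  have h1 := Pl.Ge.mul (P := X.pl p) (Or.inr le_rfl : (X.pl p).Ge ((X.pl p).ord x) x) (hy p)
  refine h1.mono ?_
  omega

theorem L_mulx {x : F} (hx : x ≠ 0) (D : X.Pt →₀ ℤ) : finrank K (X.L (D - X.div x)) = finrank K (X.L D) := by
  symm
  have h2 : ∀ y : F, y ∈ X.L (D - X.div x) → x⁻¹ * y ∈ X.L D := by
    intro y hy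
    have h3 := mul_mem' X (inv_ne_zero hx) hy
    rw [div_inv X hx, sub_neg_eq_add, sub_add_cancel] at h3
    exact h3
  exact LinearEquiv.finrank_eq
    { toFun := fun y => ⟨x * y.1, mul_mem' X hx y.2⟩
      invFun := fun y => ⟨x⁻¹ * y.1, h2 _ y.2⟩
      map_add' := fun y z => Subtype.ext (mul_add x y.1 z.1)
      map_smul' := fun c y => Subtype.ext (mul_smul_comm c x y.1)
      left_inv := fun y => Subtype.ext (inv_mul_cancel_left₀ hx y.1)
      right_inv := fun y => Subtype.ext (mul_inv_cancel_left₀ hx y.1) }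

theorem ri_all (h : X.RI g) (D : X.Pt →₀ ℤ) : D.degree + 1 ≤ (finrank K (X.L D) : ℤ) + g := by
  classical
  have h1 := h.ri (D ⊔ 0) le_sup_right
  have h2 := L_rank X h (le_sup_left : D ≤ D ⊔ 0)
  omega

private theorem div_pow {x : F} (hx : x ≠ 0) (n : ℕ) : X.div (x ^ n) = n • X.div x := by
  induction n with
  | zero =>
    rw [pow_zero, zero_smul]
    have h := div_const X (one_ne_zero (α := K))
    rwa [map_one] at h
  | succ n ih => rw [pow_succ, div_mul X (pow_ne_zero n hx) hx, ih, succ_nsmul]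

private theorem deg_aux (h : X.RI g) {x : F} (hx : x ≠ 0) : 0 ≤ (X.div x).degree := by
  by_contra hneg
  push Not at hneg
  have h1 := ri_all X h (0 - X.div (x ^ (g + 1)))
  rw [L_mulx X (pow_ne_zero _ hx), L_zero X h, div_pow X hx, map_sub, map_nsmul, map_zero, nsmul_eq_mul] at h1
  push_cast at h1
  nlinarith

theorem deg_div (h : X.RI g) {x : F} (hx : x ≠ 0) : (X.div x).degree = 0 := by
  have h1 := deg_aux X h hx
  have h2 := deg_aux X h (inv_ne_zero hx)
  rw [div_inv X hx, map_neg] at h2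
  omega

theorem L_neg (h : X.RI g) {D : X.Pt →₀ ℤ} (hD : D.degree < 0) : X.L D = ⊥ := by
  rw [Submodule.eq_bot_iff]
  intro x hx
  by_contra hx0
  have h1 : 0 ≤ X.div x + D := by
    intro p
    rw [Finsupp.zero_apply, Finsupp.add_apply, X.div_apply hx0]
    have := (hx p).resolve_left hx0
    omega
  have h2 := degree_nonneg X h1
  rw [map_add, deg_div X h hx0] at h2
  omega

end RR
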