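import Pool.Agent.H99.RR.YRIn
import Pool.Agent.H99.RR.Deg

/-! # RR.YDgE : the degree of the line bundle (150 lines)

For a form `f ≠ 0` of degree `m`: `x = f ρ^m ∈ FF`, `x ≠ 0`; `deg_div (crvA h) (ri_A h)`: `Σ_p ord_p x = 0`; `ord_p x = ord_p f + m ord_p ρ = ord_p f - m E p` (`plq_ord`, `IsOrd.mul`); so `Σ_p ord_p f = m E.degree` (let `Df : CPt v I →₀ ℕ` be the divisor of `f`: finite support by `zero_fin`, `ord ≥ 0`; `Df = div x + m • E`).
Positivity: `mi_ne`: there is `f ≠ 0` with `Df ≠ 0`, so `m E.degree > 0`.  Upper bound: take a form `f ≠ 0` of degree `m > 0` (`hilb`), `J_dim` for `Df`: for large `m'` the image of `frm m'` under multiplication by `f` is in `Jd h Df (m + m')`, so `m' d + 1 - g + m E.degree ≤ (m + m') d + 1 - g`. -/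

namespace RR

open Module

variable {K : Type} [Field K] [CharZero K] [IsAlgClosed K] {s : ℕ} {v : Fin s → ℕ} {I : Set (MvPolynomial (Fin s) K)} {d g : ℕ} [hI : (Ideal.span I).IsPrime]

omit [CharZero K] [IsAlgClosed K] hI in
private theorem dg_ne {a : HR I} (ha : a ≠ 0) : (io a : QF I) ≠ 0 := fun hh =>
  ha (IsFractionRing.injective (HR I) (QF I) (by rw [hh, map_zero]))

omit [IsAlgClosed K] in
private theorem dg_one {β : BPt I} {ord : QF I → ℤ} (O : IsOrd v I β ord) : ord 1 = 0 := by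
  have h1 := O.mul 1 1 one_ne_zero one_ne_zero
  rw [mul_one] at h1
  omega

omit [IsAlgClosed K] in
private theorem dg_pow {β : BPt I} {ord : QF I → ℤ} (O : IsOrd v I β ord) {ρ : QF I} (h0 : ρ ≠ 0) (n : ℕ) : ord (ρ ^ n) = n * ord ρ := by
  induction n with
  | zero => rw [pow_zero, dg_one O]; simp
  | succ n ih =>
    rw [pow_succ, O.mul _ _ (pow_ne_zero n h0) h0, ih]
    push_cast
    ring

/-- the divisor of a form -/
private theorem dg_div (h : SmC v I d g) {ρ : QF I} (h0 : ρ ≠ 0) (hF : ∀ m, ∀ f ∈ frm v I m, io f * ρ ^ m ∈ FF v I) (E : CPt v I →₀ ℤ)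
    (hE : ∀ p : CPt v I, E p = - ordL h p.rep ρ) {m : ℕ} {f : HR I} (hf : f ∈ frm v I m) (hf0 : f ≠ 0) :
    ∃ D : CPt v I →₀ ℕ, (∀ p, (D p : ℤ) = ordL h p.rep (io f)) ∧ (D.degree : ℤ) = m * E.degree := by
  classical
  have hfin : {p : CPt v I | (ordL h p.rep (io f)).toNat ≠ 0}.Finite := by
    refine (zero_fin h hf0).subset fun p hp => ?_
    by_contra hcon
    apply hp
    have hcon' : f ∉ p.1 := hcon
    rw [p.rep_eq] at hcon'
    have h1 := ((isOrd h p.rep).zero f hf0).2 hcon'
    rw [h1]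
    rfl
  let D : CPt v I →₀ ℕ := Finsupp.ofSupportFinite (fun p => (ordL h p.rep (io f)).toNat) hfin
  have hD : ∀ p, (D p : ℤ) = ordL h p.rep (io f) := by
    intro p
    change ((ordL h p.rep (io f)).toNat : ℤ) = _
    exact Int.toNat_of_nonneg ((isOrd h p.rep).nonneg f hf0)
  refine ⟨D, hD, ?_⟩
  let x : FF v I := ⟨io f * ρ ^ m, hF m f hf⟩
  have hx : x ≠ 0 := by
    intro hx
    have h1 : io f * ρ ^ m = 0 := congrArg Subtype.val hx
    exact mul_ne_zero (dg_ne hf0) (pow_ne_zero m h0) h1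
  have hdiv := deg_div (crvA h) (ri_A h) hx
  have e1 : (crvA h).div x = D.mapRange (fun n : ℕ => (n : ℤ)) Nat.cast_zero - (m : ℤ) • E := by
    ext p
    rw [(crvA h).div_apply hx p, Finsupp.sub_apply, Finsupp.mapRange_apply, Finsupp.smul_apply, hD, hE]
    change (plq h p.rep).ord x = _
    rw [plq_ord]
    change ordL h p.rep (io f * ρ ^ m) = _
    rw [(isOrd h p.rep).mul _ _ (dg_ne hf0) (pow_ne_zero m h0), dg_pow (isOrd h p.rep) h0, smul_eq_mul]
    ring
  have e2 : (D.mapRange (fun n : ℕ => (n : ℤ)) Nat.cast_zero : CPt v I →₀ ℤ).degree = (D.degree : ℤ) := by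
    rw [Finsupp.degree_apply, Finsupp.degree_apply]
    push_cast
    refine Finset.sum_subset Finsupp.support_mapRange fun p _ hp => ?_
    exact Finsupp.notMem_support_iff.1 hp
  rw [e1, map_sub, e2, map_zsmul, smul_eq_mul] at hdiv
  linarith

theorem emb_deg (h : SmC v I d g) {ρ : QF I} (h0 : ρ ≠ 0) (hF : ∀ m, ∀ f ∈ frm v I m, io f * ρ ^ m ∈ FF v I) (E : CPt v I →₀ ℤ)
    (hE : ∀ p : CPt v I, E p = - ordL h p.rep ρ) : 0 < E.degree ∧ E.degree ≤ d := by
  classical
  constructor
  · obtain ⟨β⟩ := pt_ne h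
    obtain ⟨m, f, hf, hf0, hfβ⟩ := mi_ne h β
    obtain ⟨D, hD, hdeg⟩ := dg_div h h0 hF E hE hf hf0
    let p : CPt v I := ⟨Mi v I β, β, rfl⟩
    have hfp : f ∈ Mi v I p.rep := by
      rw [← p.rep_eq]
      exact (mi_form hf).2 hfβ
    have h1 : D p ≠ 0 := by
      intro h2
      have h3 := hD p
      rw [h2, Nat.cast_zero] at h3
      exact ((isOrd h p.rep).zero f hf0).1 h3.symm hfp
    have h2 : 0 < D.degree := by
      rw [Finsupp.degree_apply]
      exact Finset.sum_pos' (fun _ _ => Nat.zero_le _) ⟨p, Finsupp.mem_support_iff.2 h1, Nat.pos_of_ne_zero h1⟩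
    by_contra hcon
    push Not at hcon
    have h3 : (m : ℤ) * E.degree ≤ 0 := mul_nonpos_of_nonneg_of_nonpos (Nat.cast_nonneg m) hcon
    rw [← hdeg] at h3
    have h4 : (0 : ℤ) < D.degree := by exact_mod_cast h2
    omega
  · obtain ⟨N, hN⟩ := h.hilb
    set m := N + g + 1 with hm
    have hfr := hN m (by omega)
    have hmd : m ≤ m * d := Nat.le_mul_of_pos_right m h.dpos
    have hpos : 0 < finrank K (frm v I m) := by omega
    have hne : frm v I m ≠ ⊥ := by
      intro h4
      rw [h4, finrank_bot] at hpos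
      exact absurd hpos (lt_irrefl 0)
    obtain ⟨f, hf, hf0⟩ := (Submodule.ne_bot_iff _).1 hne
    obtain ⟨D, hD, hdeg⟩ := dg_div h h0 hF E hE hf hf0
    obtain ⟨m0, hJ⟩ := J_dim h D
    set m' := m0 + N with hm'
    have h1 := hJ (m + m') (by omega)
    have h2 := hN (m + m') (by omega)
    have h3 := hN m' (by omega)
    have hfa : ∀ n, FiniteDimensional K (frm v I n) := fun n => frm_fd h.vpos n
    let lf : HR I →ₗ[K] HR I := LinearMap.mulLeft K f
    have hlf : Function.Injective lf := fun x y hxy => mul_left_cancel₀ hf0 hxy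
    have hr : finrank K ((frm v I m').map lf) = finrank K (frm v I m') :=
      ((Submodule.equivMapOfInjective lf hlf (frm v I m')).finrank_eq).symm
    have hle : (frm v I m').map lf ≤ Jd h D (m + m') := by
      rintro _ ⟨u, hu, rfl⟩
      change f * u ∈ _
      refine mem_Jd.2 ⟨frm_mul hf hu, ?_⟩
      by_cases hu0 : u = 0
      · exact Or.inl (by rw [hu0, mul_zero])
      · refine Or.inr fun p => ?_
        rw [map_mul, (isOrd h p.rep).mul _ _ (dg_ne hf0) (dg_ne hu0), hD p]
        have h4 := (isOrd h p.rep).nonneg u hu0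
        omega
    have hfJ : FiniteDimensional K (Jd h D (m + m')) := by
      have := hfa (m + m')
      exact Submodule.finiteDimensional_of_le (fun x hx => (mem_Jd.1 hx).1 : Jd h D (m + m') ≤ frm v I (m + m'))
    have h5 := Submodule.finrank_mono hle
    rw [hr] at h5
    have h6 : m' * d + 1 + D.degree ≤ (m + m') * d + 1 := by omega
    have h7 : D.degree ≤ m * d := by
      have : (m + m') * d = m * d + m' * d := by ring
      omega
    have h8 : (m : ℤ) * E.degree ≤ m * d := by
      rw [← hdeg]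
      exact_mod_cast h7
    exact le_of_mul_le_mul_left h8 (by have : 0 < m := by omega
                                       exact_mod_cast this)

end RR
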