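import Pool.Agent.H99.RR.YEmb
import Pool.Agent.H99.RR.YDgE
import Pool.Agent.H99.RR.Fin

/-! # RR.YRes : the main theorem (100 lines)

`exists_emb`, `emb_deg`, `ri_A`, `main_rr`.  `hab`: `q = C c * a^3 - C e * b^2` is weighted homogeneous of degree `12 n` (`hW.a`, `hW.b`); for weighted homogeneous `q` of degree `m`: `aeval t q = io (mk q) ρ^m` in `QF` (check on monomials), so `aeval t q = 0` implies `mk q = 0`. -/

namespace RR

open Module

variable {K : Type} [Field K] [IsAlgClosed K] [CharZero K] {s d g : ℕ}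

/-- the value of a weighted homogeneous polynomial at the coordinates -/
private theorem yr_ev {W : ES.Wm K s} [hI : (Ideal.span W.I).IsPrime] {ρ : QF W.I} {t : Fin s → FF W.v W.I}
    (ht : ∀ i, ((t i : FF W.v W.I) : QF W.I) =
      io (Ideal.Quotient.mk (Ideal.span W.I) (MvPolynomial.X i)) * ρ ^ W.v i)
    {q : MvPolynomial (Fin s) K} {m : ℕ} (hq : MvPolynomial.IsWeightedHomogeneous W.v q m) :
    ((MvPolynomial.aeval t q : FF W.v W.I) : QF W.I) = ρ ^ m * io (Ideal.Quotient.mk (Ideal.span W.I) q) := by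
  have h1 : ((MvPolynomial.aeval t q : FF W.v W.I) : QF W.I) =
      MvPolynomial.aeval (fun i => ((t i : FF W.v W.I) : QF W.I)) q :=
    MvPolynomial.comp_aeval_apply t (FF W.v W.I).val q
  have h2 : (fun i => ((t i : FF W.v W.I) : QF W.I)) =
      fun i => ρ ^ W.v i * io (Ideal.Quotient.mk (Ideal.span W.I) (MvPolynomial.X i)) := by
    funext i
    rw [ht i, mul_comm]
  have h3 := ES.ev_scale hq ρ (fun i => (io (Ideal.Quotient.mk (Ideal.span W.I) (MvPolynomial.X i)) : QF W.I))
  unfold ES.ev at h3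
  rw [h1, h2, h3]
  congr 1
  have h4 : (MvPolynomial.aeval (fun i => (io (Ideal.Quotient.mk (Ideal.span W.I) (MvPolynomial.X i)) : QF W.I)) :
      MvPolynomial (Fin s) K →ₐ[K] QF W.I) =
      (IsScalarTower.toAlgHom K (HR W.I) (QF W.I)).comp (Ideal.Quotient.mkₐ K (Ideal.span W.I)) := by
    apply MvPolynomial.algHom_ext
    intro i
    rw [MvPolynomial.aeval_X]
    rfl
  rw [h4]
  rfl

/-- **Voisin's conjecture for elliptic surfaces over a smooth projective curve.** -/
theorem main_sm {W : ES.Wm K s} (hW : W.Ok) (h : SmC W.v W.I d g)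
    (hab : ∀ c e : K, MvPolynomial.C c * W.a ^ 3 - MvPolynomial.C e * W.b ^ 2 ∈ Ideal.span W.I → c = 0 ∧ e = 0)
    {k : ℕ} (hk : W.n * d + g ≤ k) {Q : Fin k → ES.Pt s K} (hQ : ∀ j, ES.OnW W (Q j)) :
    ∃ N : ℕ, 0 < N ∧ N • ES.alt Q ∈ ES.RatEq k W := by
  haveI := h.prime
  obtain ⟨ρ, M, hρ0, hF, ht, hE⟩ := exists_emb h
  obtain ⟨hE0, hEd⟩ := emb_deg h hρ0 hF M.E hE
  refine main_rr (crvA h) hW (ri_A h) M hE0 ?_ ?_ hQ
  · intro c e hce
    apply hab c e
    have hq : MvPolynomial.IsWeightedHomogeneous W.v (MvPolynomial.C c * W.a ^ 3 - MvPolynomial.C e * W.b ^ 2)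
        (12 * W.n) := by
      have ha : MvPolynomial.IsWeightedHomogeneous W.v (MvPolynomial.C c * W.a ^ 3) (12 * W.n) := by
        have h1 := (MvPolynomial.isWeightedHomogeneous_C W.v c).mul (hW.a.pow 3)
        rw [zero_add, smul_eq_mul, ← mul_assoc] at h1
        exact h1
      have hb : MvPolynomial.IsWeightedHomogeneous W.v (MvPolynomial.C e * W.b ^ 2) (12 * W.n) := by
        have h1 := (MvPolynomial.isWeightedHomogeneous_C W.v e).mul (hW.b.pow 2)
        rw [zero_add, smul_eq_mul, ← mul_assoc] at h1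
        exact h1
      exact (MvPolynomial.weightedHomogeneousSubmodule K W.v (12 * W.n)).sub_mem ha hb
    have h1 := yr_ev ht hq
    have h2 : (MvPolynomial.aeval M.t (MvPolynomial.C c * W.a ^ 3 - MvPolynomial.C e * W.b ^ 2) : FF W.v W.I) = 0 := by
      rw [map_sub, map_mul, map_mul, map_pow, map_pow, MvPolynomial.aeval_C, MvPolynomial.aeval_C,
        ← Algebra.smul_def, ← Algebra.smul_def, hce, sub_self]
    rw [h2] at h1
    have h3 : (io (Ideal.Quotient.mk (Ideal.span W.I) (MvPolynomial.C c * W.a ^ 3 - MvPolynomial.C e * W.b ^ 2)) :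
        QF W.I) = 0 := by
      rcases mul_eq_zero.1 h1.symm with h4 | h4
      · exact absurd h4 (pow_ne_zero _ hρ0)
      · exact h4
    have h4 : Ideal.Quotient.mk (Ideal.span W.I) (MvPolynomial.C c * W.a ^ 3 - MvPolynomial.C e * W.b ^ 2) = 0 :=
      (IsFractionRing.injective (HR W.I) (QF W.I)) (by rw [h3, map_zero])
    exact Ideal.Quotient.eq_zero_iff_mem.1 h4
  · have h1 : (W.n : ℤ) * M.E.degree ≤ W.n * d := mul_le_mul_of_nonneg_left hEd (by positivity)
    have h2 : ((W.n * d + g : ℕ) : ℤ) ≤ k := by exact_mod_cast hk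
    push_cast at h2
    linarith

end RR
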