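import Pool.Agent.H99.RR.YDef

/-! # RR.ZP1 : the projective line (80 lines)

`I = ∅`: `Ideal.span ∅ = ⊥` is prime, `tan = ⊤` (`finrank (Fin 2 → K) = 2`), stabilisers: weight `1`.  `frm (fun _ => 1) ∅ m` is isomorphic to the homogeneous polynomials of degree `m` in two variables (`weightedHomogeneousSubmodule K 1 m`), basis `X 0 ^ i * X 1 ^ (m - i)`: dimension `m + 1`
(for example the injective linear map `HR ∅ ≃ MvPolynomial (Fin 2) K`, the span of the `m + 1` monomials, linearly independent). -/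

namespace RR

open Module

variable {K : Type} [Field K]

private theorem zp_wt (d : Fin 2 →₀ ℕ) : Finsupp.weight (fun _ : Fin 2 => (1 : ℕ)) d = d 0 + d 1 := by
  rw [Finsupp.weight_apply, Finsupp.sum_fintype _ _ (fun i => by simp)]
  simp [Fin.sum_univ_two]

private noncomputable def zp_eq (m : ℕ) :
    {d : Fin 2 →₀ ℕ | Finsupp.weight (fun _ : Fin 2 => (1 : ℕ)) d = m} ≃ Fin (m + 1) where
  toFun d := ⟨d.1 0, by
    have h1 : Finsupp.weight (fun _ : Fin 2 => (1 : ℕ)) d.1 = m := d.2
    rw [zp_wt] at h1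
    omega⟩
  invFun i := ⟨Finsupp.equivFunOnFinite.symm ![i.1, m - i.1], by
    have h2 := i.2
    show Finsupp.weight (fun _ : Fin 2 => (1 : ℕ)) _ = m
    rw [zp_wt]
    simp
    omega⟩
  left_inv d := by
    have h1 : Finsupp.weight (fun _ : Fin 2 => (1 : ℕ)) d.1 = m := d.2
    rw [zp_wt] at h1
    apply Subtype.ext
    ext i
    fin_cases i
    · simp
    · simp
      omega
  right_inv i := by
    apply Fin.ext
    simp

private theorem zp_dim (m : ℕ) :
    finrank K (MvPolynomial.weightedHomogeneousSubmodule K (fun _ : Fin 2 => (1 : ℕ)) m) = m + 1 := by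
  rw [MvPolynomial.weightedHomogeneousSubmodule_eq_finsupp_supported]
  have e1 := (AddMonoidAlgebra.supportedEquivFinsupp (S := K) (R := K)
    {d : Fin 2 →₀ ℕ | Finsupp.weight (fun _ : Fin 2 => (1 : ℕ)) d = m})
  have e2 := Finsupp.domLCongr (M := K) (R := K) (zp_eq m)
  have h1 := LinearEquiv.finrank_eq (e1.trans e2)
  refine Eq.trans h1 ?_
  simp

theorem smC_P1 : SmC (fun _ => 1) (∅ : Set (MvPolynomial (Fin 2) K)) 1 0 := by
  have hbot : Ideal.span (∅ : Set (MvPolynomial (Fin 2) K)) = ⊥ := Ideal.span_empty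
  refine ⟨fun _ => Nat.one_pos, fun f hf => absurd hf (Set.notMem_empty f), ?_, ?_, ?_, ?_, Nat.one_pos⟩
  · rw [hbot]
    exact Ideal.isPrime_bot
  · intro β
    have h1 : tan (∅ : Set (MvPolynomial (Fin 2) K)) β.1 = ⊤ := by
      rw [eq_top_iff]
      intro w _ f hf
      exact absurd hf (Set.notMem_empty f)
    rw [h1, finrank_top]
    simp
  · intro β e he
    have h1 : ∃ i, β.1 i ≠ 0 := by
      by_contra hc
      push Not at hc
      exact β.2.1 (funext hc)
    obtain ⟨i, hi⟩ := h1
    exact Nat.dvd_one.1 (he i hi)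
  · refine ⟨0, fun m _ => ?_⟩
    have hinj : Function.Injective
        ((Ideal.Quotient.mkₐ K (Ideal.span (∅ : Set (MvPolynomial (Fin 2) K)))).toLinearMap) := by
      intro a b hab
      have h2 : Ideal.Quotient.mk (Ideal.span (∅ : Set (MvPolynomial (Fin 2) K))) a
          = Ideal.Quotient.mk (Ideal.span (∅ : Set (MvPolynomial (Fin 2) K))) b := hab
      rw [Ideal.Quotient.eq, hbot, Ideal.mem_bot] at h2
      exact sub_eq_zero.1 h2
    have h3 := LinearEquiv.finrank_eq (Submodule.equivMapOfInjective _ hinj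
      (MvPolynomial.weightedHomogeneousSubmodule K (fun _ : Fin 2 => (1 : ℕ)) m))
    rw [zp_dim] at h3
    have h4 : finrank K (frm (fun _ => 1) (∅ : Set (MvPolynomial (Fin 2) K)) m) = m + 1 := h3.symm
    rw [h4]
    omega

end RR
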