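import Pool.Agent.H99.RR.Def
import Pool.Agent.H34.ES.Def

/-! # RR.Emb : the base curve of a Weierstrass model and the points of a function field (definitions only, no sorry)

`t` = the homogeneous coordinates of the generic point, `w p` = a local frame at `p`: the vector `w_p ^ v * t` is integral at `p` and reduces to a nonzero vector `bt p`, the coordinates of the point `p`.  Every point of the base is (up to scalars) one of the `bt p`.
`E` = the divisor of the line bundle `O(1)`. -/

namespace RR

open Module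

variable {K F : Type} [Field K] [Field F] [Algebra K F]

/-- coordinates -/
structure Emb (X : Crv K F) {s : ℕ} (W : ES.Wm K s) where
  t : Fin s → F
  I : ∀ f ∈ W.I, MvPolynomial.aeval t f = 0
  E : X.Pt →₀ ℤ
  w : X.Pt → F
  w_ne : ∀ p, w p ≠ 0
  w_ord : ∀ p, (X.pl p).ord (w p) = E p
  int : ∀ p i, (X.pl p).Ge 0 (w p ^ W.v i * t i)
  unit : ∀ p, ∃ i, t i ≠ 0 ∧ (X.pl p).ord (w p ^ W.v i * t i) = 0
  surj : ∀ β : Fin s → K, β ≠ 0 → (∀ f ∈ W.I, ES.ev f β = 0) →
    ∃ (p : X.Pt) (c : K), c ≠ 0 ∧ β = fun i => c ^ W.v i * (X.pl p).res (w p ^ W.v i * t i)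

/-- the coordinates of the point `p` -/
def Emb.bt {X : Crv K F} {s : ℕ} {W : ES.Wm K s} (M : Emb X W) (p : X.Pt) : Fin s → K :=
  fun i => (X.pl p).res (M.w p ^ W.v i * M.t i)

end RR
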