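import Pool.Agent.H99.RR.Zk
import Pool.Agent.H99.RR.Emb
import Pool.Agent.H99.GC.Chart

/-! # RR.Cht : a chart with the point `q` at infinity, which contains finitely many given points (200 lines)

`E' = E - single q (E q)` (the part outside `q`), `D = single q N - E'` with `N` large (`N > - E q` and `D.degree ≥ c0` of `sep`); `sep` for `S ∪ {q}`: `u ∈ L D`, `u ≠ 0`, `ord_p u = E p` for `p ∈ S`, `p ≠ q`, `ord_q u = -N`, and `ord_p u ≥ E p` for all `p ≠ q`.
`C.t i = u ^ (v i) * t i`; `ord_p (u ^ (v i) * t i) = (v i) * (ord_p u - E p) + ord_p (w_p ^ (v i) * t i)`, so it is in `R q` (`v i ≥ 0`), `C.m = N + E q` (`> 0`), `C.U` = the multiset of the `e p` with multiplicity `ord_p u - E p` (`p ≠ q`; finitely many: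
`(div u - E).support`; write it as a `Finset` sum of `Multiset.replicate`, `attach` or a `dite` for `p ≠ q`).  `I`: `f ∈ W.I` is weighted homogeneous (`hW.I`): `f (u ^ v * t) = u ^ m * f t = 0`.
`deg`: `- ord_q (u ^ v_i t_i) ≤ v_i (N + E q)`.  `top`: the index `i` of `unit q`.  `ord`: `zk_count`, `Multiset.le_iff_count`, all elements of `U` are `e p`.  `reg`: `Reg` means that the multiplicity is ultrametric: `zk_count` and `ord_add`
(`j • {c} ≤ M` iff `j ≤ count c M`).  `nz`: `b = e p` (`hom_eq`); `b ∉ U`: `ord_p u = E p` and the index of `unit p`: the order of `u ^ v_i t_i` at `p` is `0`, so its value is not `0` (`res_pos`).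
`card U = Σ_(p ≠ q) (ord_p u - E p) = - ord_q u - (E.degree - E q) = N + E q - E.degree` (`deg_div`), so `m - card U = E.degree`.
`inf`: `C.inf i = lc (u ^ v_i t_i)` if the degree is `m v_i`, `0` otherwise, `= res_q (u ^ v_i t_i tau ^ (m v_i)) = res_q ((u tau ^ m / w_q) ^ v_i * (w_q ^ v_i t_i)) = c ^ v_i * bt q i`, `c = res_q (u tau ^ m / w_q) ≠ 0` (order `-N + m - E q = 0`).
`bp (e p) i = res_p (u ^ v_i t_i) = res_p (u / w_p) ^ v_i * bt p i` for `p ∈ S` (`ord_p (u / w_p) = 0`). -/

namespace RR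

open Module

variable {K F : Type} [Field K] [IsAlgClosed K] [Field F] [Algebra K F] (X : Crv K F) {g s : ℕ} {W : ES.Wm K s}

omit [IsAlgClosed K] in
private theorem ord_pow (P : Pl K F) {x : F} (hx : x ≠ 0) (n : ℕ) : P.ord (x ^ n) = n * P.ord x := by
  induction n with
  | zero => rw [pow_zero, P.ord_one]; simp
  | succ n ih => rw [pow_succ, P.ord_mul (pow_ne_zero n hx) hx, ih]; push_cast; ring

omit [IsAlgClosed K] in
private theorem ord_inv (P : Pl K F) {x : F} (hx : x ≠ 0) : P.ord x⁻¹ = - P.ord x := by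
  have h := P.ord_mul hx (inv_ne_zero hx)
  rw [mul_inv_cancel₀ hx, P.ord_one] at h
  omega

omit [IsAlgClosed K] in
private theorem ord_div (P : Pl K F) {x y : F} (hx : x ≠ 0) (hy : y ≠ 0) : P.ord (x / y) = P.ord x - P.ord y := by
  rw [div_eq_mul_inv, P.ord_mul hx (inv_ne_zero hy), ord_inv P hy]
  ring

omit [IsAlgClosed K] in
private theorem ge_pow (P : Pl K F) {x : F} (hx : P.Ge 0 x) (n : ℕ) : P.Ge 0 (x ^ n) := by
  induction n with
  | zero => rw [pow_zero]; exact Or.inr (le_of_eq P.ord_one.symm)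
  | succ n ih =>
    rw [pow_succ]
    have h := ih.mul hx
    rwa [zero_add] at h

omit [IsAlgClosed K] in
private theorem res_one (P : Pl K F) : P.res 1 = 1 := by
  have h := P.res_const 1
  rwa [map_one] at h

omit [IsAlgClosed K] in
private theorem res_pow (P : Pl K F) {x : F} (hx : P.Ge 0 x) (n : ℕ) : P.res (x ^ n) = P.res x ^ n := by
  induction n with
  | zero => rw [pow_zero, pow_zero, res_one]
  | succ n ih => rw [pow_succ, pow_succ, P.res_mul (ge_pow P hx n) hx, ih]

omit [IsAlgClosed K] in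
private theorem res_ne (P : Pl K F) {x : F} (hx : x ≠ 0) (h0 : P.ord x = 0) : P.res x ≠ 0 := by
  intro h
  rcases (P.res_pos (Or.inr (le_of_eq h0.symm))).1 h with h1 | h1
  · exact hx h1
  · omega

omit [IsAlgClosed K] in
private theorem res_zero' (P : Pl K F) : P.res 0 = 0 := (P.res_pos (Or.inl rfl)).2 (Or.inl rfl)

omit [IsAlgClosed K] in
/-- the frame change at a point -/
private theorem tw (u w t : F) (hw : w ≠ 0) (n : ℕ) : u ^ n * t = (u / w) ^ n * (w ^ n * t) := by
  rw [div_pow]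
  field_simp

omit [IsAlgClosed K] in
private theorem ord_tw (P : Pl K F) {u w t : F} (hu : u ≠ 0) (hw : w ≠ 0) (ht : t ≠ 0) (n : ℕ) :
    P.ord (u ^ n * t) = n * (P.ord u - P.ord w) + P.ord (w ^ n * t) := by
  rw [tw u w t hw n, P.ord_mul (pow_ne_zero n (div_ne_zero hu hw)) (mul_ne_zero (pow_ne_zero n hw) ht),
    ord_pow P (div_ne_zero hu hw), ord_div P hu hw]

omit [IsAlgClosed K] in
private theorem aeval_wh (t : Fin s → F) (u : F) {v : Fin s → ℕ} {m : ℕ} {f : MvPolynomial (Fin s) K}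
    (hf : MvPolynomial.IsWeightedHomogeneous v f m) :
    MvPolynomial.aeval (fun i => u ^ v i * t i) f = u ^ m * MvPolynomial.aeval t f := by
  rw [MvPolynomial.aeval_def, MvPolynomial.aeval_def, MvPolynomial.eval₂_eq', MvPolynomial.eval₂_eq', Finset.mul_sum]
  refine Finset.sum_congr rfl fun d hd => ?_
  have h1 : Finsupp.weight v d = m := hf (MvPolynomial.mem_support_iff.1 hd)
  have h2 : ∑ i, v i * d i = m := by
    rw [← h1, Finsupp.weight_apply, Finsupp.sum_fintype _ _ (fun i => by simp)]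
    refine Finset.sum_congr rfl fun i _ => ?_
    rw [smul_eq_mul, mul_comm]
  have h3 : ∏ i, (u ^ v i * t i) ^ d i = u ^ m * ∏ i, t i ^ d i := by
    rw [← h2, ← Finset.prod_pow_eq_pow_sum, ← Finset.prod_mul_distrib]
    refine Finset.prod_congr rfl fun i _ => ?_
    rw [mul_pow, ← pow_mul]
  rw [h3]
  ring

theorem exists_chart (hW : W.Ok) (h : X.RI g) (M : Emb X W) (q : X.Pt) (S : Finset X.Pt) :
    ∃ (C : GB.Chart W (X.one h q)) (u : F), u ≠ 0 ∧ (∀ i, (C.t i : F) = u ^ W.v i * M.t i) ∧ (C.m : ℤ) - C.U.card = M.E.degree ∧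
      (∃ c : K, c ≠ 0 ∧ C.inf = fun i => c ^ W.v i * M.bt q i) ∧
      ∀ p ∈ S, ∀ hp : p ≠ q, X.e q p hp ∉ C.U ∧ ∃ c : K, c ≠ 0 ∧ C.bp (X.e q p hp) = fun i => c ^ W.v i * M.bt p i := by
  classical
  obtain ⟨c0, hc0⟩ := sep X h
  obtain ⟨m, hm1, hm2⟩ : ∃ m : ℕ, 0 < m ∧ c0 ≤ (m : ℤ) - M.E.degree := by
    refine ⟨(max 1 (c0 + M.E.degree)).toNat, ?_, ?_⟩ <;> omega
  obtain ⟨u, huL, hu0, huS⟩ := hc0 (Finsupp.single q (m : ℤ) - M.E) (by
    rw [map_sub, Finsupp.degree_single]
    exact hm2) (insert q S)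
  have hge : ∀ p, p ≠ q → M.E p ≤ (X.pl p).ord u := by
    intro p hp
    have h1 := (huL p).resolve_left hu0
    rw [Finsupp.sub_apply, Finsupp.single_apply, if_neg (Ne.symm hp)] at h1
    omega
  have hq : (X.pl q).ord u = M.E q - m := by
    have h1 := huS q (Finset.mem_insert_self q S)
    rw [Finsupp.sub_apply, Finsupp.single_eq_same] at h1
    omega
  have hS : ∀ p ∈ S, p ≠ q → (X.pl p).ord u = M.E p := by
    intro p hpS hp
    have h1 := huS p (Finset.mem_insert_of_mem hpS)
    rw [Finsupp.sub_apply, Finsupp.single_apply, if_neg (Ne.symm hp)] at h1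
    omega
  have hdv : ∀ p, p ≠ q → (X.pl p).Ge 0 (u / M.w p) := by
    intro p hp
    refine Or.inr ?_
    rw [ord_div (X.pl p) hu0 (M.w_ne p), M.w_ord]
    have := hge p hp
    omega
  have htR : ∀ i, u ^ W.v i * M.t i ∈ X.R q := by
    intro i p hp
    rw [tw u (M.w p) (M.t i) (M.w_ne p)]
    have h1 := (ge_pow (X.pl p) (hdv p hp) (W.v i)).mul (M.int p i)
    rwa [zero_add] at h1
  have hordp : ∀ p i, M.t i ≠ 0 → (X.pl p).ord (u ^ W.v i * M.t i) =
      W.v i * ((X.pl p).ord u - M.E p) + (X.pl p).ord (M.w p ^ W.v i * M.t i) := by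
    intro p i hi
    rw [ord_tw (X.pl p) hu0 (M.w_ne p) hi, M.w_ord]
  have hint : ∀ p i, M.t i ≠ 0 → 0 ≤ (X.pl p).ord (M.w p ^ W.v i * M.t i) := by
    intro p i hi
    exact (M.int p i).resolve_left (mul_ne_zero (pow_ne_zero _ (M.w_ne p)) hi)
  let t' : Fin s → X.R q := fun i => ⟨u ^ W.v i * M.t i, htR i⟩
  have ht'0 : ∀ i, t' i ≠ 0 ↔ M.t i ≠ 0 := by
    intro i
    constructor
    · intro h1 h2
      refine h1 (Subtype.ext ?_)
      change u ^ W.v i * M.t i = 0
      rw [h2, mul_zero]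
    · intro h1 h2
      have h3 : u ^ W.v i * M.t i = 0 := congrArg Subtype.val h2
      exact mul_ne_zero (pow_ne_zero _ hu0) h1 h3
  have hdeg : ∀ i, M.t i ≠ 0 → (((X.one h q).deg (t' i) : ℕ) : ℤ) = m * W.v i - (X.pl q).ord (M.w q ^ W.v i * M.t i) := by
    intro i hi
    rw [one_deg X h ((ht'0 i).2 hi)]
    change -(X.pl q).ord (u ^ W.v i * M.t i) = _
    rw [hordp q i hi, hq]
    ring
  let U : Multiset (X.R q →ₐ[K] K) := ∑ p ∈ (X.div u - M.E).support,
    (if hp : p ≠ q then Multiset.replicate ((X.pl p).ord u - M.E p).toNat (X.e q p hp) else 0)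
  have hcount : ∀ p (hp : p ≠ q), Multiset.count (X.e q p hp) U = ((X.pl p).ord u - M.E p).toNat := by
    intro p hp
    have h1 : Multiset.count (X.e q p hp) U = ∑ r ∈ (X.div u - M.E).support, Multiset.count (X.e q p hp)
        (if hr : r ≠ q then Multiset.replicate ((X.pl r).ord u - M.E r).toNat (X.e q r hr) else 0) :=
      Multiset.count_sum'
    rw [h1, Finset.sum_eq_single p]
    · rw [dif_pos hp, Multiset.count_replicate_self]
    · intro r _ hrp
      by_cases hr : r ≠ q
      · rw [dif_pos hr, Multiset.count_replicate, if_neg]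
        intro h2
        exact hrp (e_inj X h hr hp h2)
      · rw [dif_neg hr, Multiset.count_zero]
    · intro hps
      rw [dif_pos hp, Multiset.count_replicate_self]
      rw [Finsupp.notMem_support_iff, Finsupp.sub_apply, X.div_apply hu0] at hps
      rw [hps]
      rfl
  have hcard : (m : ℤ) - U.card = M.E.degree := by
    have h1 : (U.card : ℤ) = ∑ p ∈ (X.div u - M.E).support, (if p ≠ q then ((X.pl p).ord u - M.E p) else 0) := by
      rw [Multiset.card_sum, Nat.cast_sum]
      refine Finset.sum_congr rfl fun p _ => ?_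
      by_cases hp : p ≠ q
      · rw [dif_pos hp, if_pos hp, Multiset.card_replicate]
        have := hge p hp
        omega
      · rw [dif_neg hp, if_neg hp, Multiset.card_zero, Nat.cast_zero]
    have h2 : (X.div u - M.E).degree = - M.E.degree := by
      rw [map_sub, deg_div X h hu0, zero_sub]
    have h3 : (X.div u - M.E).degree = ∑ p ∈ (X.div u - M.E).support, ((X.pl p).ord u - M.E p) := by
      rw [Finsupp.degree_apply]
      refine Finset.sum_congr rfl fun p _ => ?_
      rw [Finsupp.sub_apply, X.div_apply hu0]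
    have h4 : ∑ p ∈ (X.div u - M.E).support, ((X.pl p).ord u - M.E p) =
        ∑ p ∈ (X.div u - M.E).support, (if p ≠ q then ((X.pl p).ord u - M.E p) else 0) +
        ∑ p ∈ (X.div u - M.E).support, (if p = q then ((X.pl p).ord u - M.E p) else 0) := by
      rw [← Finset.sum_add_distrib]
      refine Finset.sum_congr rfl fun p _ => ?_
      by_cases hp : p = q
      · rw [if_neg (not_not.2 hp), if_pos hp, zero_add]
      · rw [if_pos hp, if_neg hp, add_zero]
    have h5 : ∑ p ∈ (X.div u - M.E).support, (if p = q then ((X.pl p).ord u - M.E p) else 0) = -(m : ℤ) := by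
      rw [Finset.sum_ite_eq', if_pos]
      · rw [hq]
        ring
      · rw [Finsupp.mem_support_iff, Finsupp.sub_apply, X.div_apply hu0, hq]
        omega
    omega
  have hresp : ∀ p, (hp : p ≠ q) → ∀ i, (X.pl p).res (u ^ W.v i * M.t i) = (X.pl p).res (u / M.w p) ^ W.v i * M.bt p i := by
    intro p hp i
    rw [tw u (M.w p) (M.t i) (M.w_ne p), (X.pl p).res_mul (ge_pow (X.pl p) (hdv p hp) (W.v i)) (M.int p i),
      res_pow (X.pl p) (hdv p hp)]
    rfl
  refine ⟨{ t := t', m := m, U := U, mpos := hm1, I := ?_, deg := ?_, top := ?_, ord := ?_, reg := ?_, nz := ?_ }, u, hu0,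
    fun i => rfl, hcard, ?_, ?_⟩
  · intro f hf
    obtain ⟨m', _, hm'⟩ := hW.I f hf
    refine Subtype.ext ?_
    have h1 : ((MvPolynomial.aeval t' f : X.R q) : F) = MvPolynomial.aeval (fun i => (t' i : F)) f := by
      have h2 := MvPolynomial.comp_aeval (R := K) t' (X.R q).val
      have h3 := congrArg (fun φ : MvPolynomial (Fin s) K →ₐ[K] F => φ f) h2
      exact h3
    rw [h1]
    change MvPolynomial.aeval (fun i => u ^ W.v i * M.t i) f = 0
    rw [aeval_wh M.t u hm', M.I f hf, mul_zero]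
  · intro i
    by_cases hi : M.t i = 0
    · exact Or.inl (by_contra fun h1 => (ht'0 i).1 h1 hi)
    · refine Or.inr ?_
      have h1 := hdeg i hi
      have h2 := hint q i hi
      have h3 : ((m * W.v i : ℕ) : ℤ) = m * W.v i := by push_cast; ring
      omega
  · obtain ⟨i, hi, hi'⟩ := M.unit q
    refine ⟨i, (ht'0 i).2 hi, ?_⟩
    have h1 := hdeg i hi
    rw [hi', sub_zero] at h1
    exact_mod_cast h1
  · intro i hi
    rw [Multiset.le_iff_count]
    intro c
    obtain ⟨p, hp, rfl⟩ := hom_eq X h c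
    rw [Multiset.count_nsmul, hcount p hp]
    have h1 := zk_count X h hi hp
    have hi' := (ht'0 i).1 hi
    have h2 : (X.pl p).ord ((t' i : X.R q) : F) = _ := hordp p i hi'
    rw [h2] at h1
    have h3 := hint p i hi'
    have h4 := hge p hp
    have h5 : (((X.pl p).ord u - M.E p).toNat : ℤ) = (X.pl p).ord u - M.E p := Int.toNat_of_nonneg (by omega)
    have h6 : ((W.v i * ((X.pl p).ord u - M.E p).toNat : ℕ) : ℤ) ≤ (Multiset.count (X.e q p hp) (GB.zk K (t' i)) : ℕ) := by
      rw [h1]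
      push_cast
      rw [h5]
      omega
    exact_mod_cast h6
  · intro c _ f g' hf hg' hfg j hjf hjg
    obtain ⟨p, hp, rfl⟩ := hom_eq X h c
    rw [Multiset.nsmul_singleton, ← Multiset.le_count_iff_replicate_le] at hjf hjg ⊢
    have h1 := zk_count X h hf hp
    have h2 := zk_count X h hg' hp
    have h3 := zk_count X h hfg hp
    have hf0 : (f : F) ≠ 0 := fun h4 => hf (Subtype.ext h4)
    have hg0 : (g' : F) ≠ 0 := fun h4 => hg' (Subtype.ext h4)
    have hfg0 : (f : F) + (g' : F) ≠ 0 := fun h4 => hfg (Subtype.ext h4)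
    have h4 := (X.pl p).ord_add hf0 hg0 hfg0
    have h5 : ((f + g' : X.R q) : F) = (f : F) + (g' : F) := rfl
    rw [h5] at h3
    omega
  · intro b hb
    obtain ⟨p, hp, rfl⟩ := hom_eq X h b
    have h1 : Multiset.count (X.e q p hp) U = 0 := Multiset.count_eq_zero_of_notMem hb
    rw [hcount p hp] at h1
    have h2 := hge p hp
    obtain ⟨i, hi, hi'⟩ := M.unit p
    refine ⟨i, ?_⟩
    change (X.pl p).res (u ^ W.v i * M.t i) ≠ 0
    refine res_ne (X.pl p) (mul_ne_zero (pow_ne_zero _ hu0) hi) ?_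
    rw [hordp p i hi, hi']
    have h3 : (X.pl p).ord u - M.E p = 0 := by omega
    rw [h3]
    ring
  · have hT := (X.pl q).tau_ne
    have hx0 : u * (X.pl q).tau ^ m / M.w q ≠ 0 := div_ne_zero (mul_ne_zero hu0 (pow_ne_zero _ hT)) (M.w_ne q)
    have hxo : (X.pl q).ord (u * (X.pl q).tau ^ m / M.w q) = 0 := by
      rw [ord_div (X.pl q) (mul_ne_zero hu0 (pow_ne_zero _ hT)) (M.w_ne q), (X.pl q).ord_mul hu0 (pow_ne_zero _ hT),
        ord_pow (X.pl q) hT, (X.pl q).ord_tau, M.w_ord, hq]
      ring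
    have hxg : (X.pl q).Ge 0 (u * (X.pl q).tau ^ m / M.w q) := Or.inr (le_of_eq hxo.symm)
    refine ⟨(X.pl q).res (u * (X.pl q).tau ^ m / M.w q), res_ne (X.pl q) hx0 hxo, ?_⟩
    funext i
    change (if (X.one h q).deg (t' i) = m * W.v i then (X.one h q).lc (t' i) else 0) = _
    by_cases hi : M.t i = 0
    · have h1 : t' i = 0 := by_contra fun h2 => (ht'0 i).1 h2 hi
      have h2 : M.bt q i = 0 := by
        change (X.pl q).res (M.w q ^ W.v i * M.t i) = 0
        rw [hi, mul_zero, res_zero']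
      rw [h2, mul_zero, h1, (X.one h q).lc_zero, ite_self]
    · have h1 := hdeg i hi
      by_cases hd : (X.one h q).deg (t' i) = m * W.v i
      · rw [if_pos hd, one_lc X h ((ht'0 i).2 hi), hd]
        change (X.pl q).res (u ^ W.v i * M.t i * (X.pl q).tau ^ (m * W.v i)) = _
        have h2 : u ^ W.v i * M.t i * (X.pl q).tau ^ (m * W.v i) =
            (u * (X.pl q).tau ^ m / M.w q) ^ W.v i * (M.w q ^ W.v i * M.t i) := by
          have := M.w_ne q
          rw [div_pow, mul_pow, ← pow_mul]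
          field_simp
        rw [h2, (X.pl q).res_mul (ge_pow (X.pl q) hxg (W.v i)) (M.int q i), res_pow (X.pl q) hxg]
        rfl
      · rw [if_neg hd]
        have h2 : 1 ≤ (X.pl q).ord (M.w q ^ W.v i * M.t i) := by
          have h3 := hint q i hi
          by_contra h4
          have h5 : (X.pl q).ord (M.w q ^ W.v i * M.t i) = 0 := by omega
          rw [h5, sub_zero] at h1
          exact hd (by exact_mod_cast h1)
        have h3 : M.bt q i = 0 := ((X.pl q).res_pos (M.int q i)).2 (Or.inr h2)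
        rw [h3, mul_zero]
  · intro p hpS hp
    have h1 := hS p hpS hp
    constructor
    · change X.e q p hp ∉ U
      rw [← Multiset.count_eq_zero, hcount p hp, h1, sub_self]
      rfl
    · refine ⟨(X.pl p).res (u / M.w p), res_ne (X.pl p) (div_ne_zero hu0 (M.w_ne p)) ?_, ?_⟩
      · rw [ord_div (X.pl p) hu0 (M.w_ne p), M.w_ord, h1, sub_self]
      · funext i
        change (X.pl p).res (u ^ W.v i * M.t i) = _
        exact hresp p hp i

end RR
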