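import Mathlib

/-! # RR.Def : function fields of curves with their points, the spaces `L(D)` (definitions only, no sorry)

`Pl K F`: a rational point of a function field `F / K`: order, residue, uniformizer (`Ge n x` means: `x = 0` or the order is at least `n`).
`Crv K F`: a family of points; every `x ≠ 0` has only finitely many zeros and poles.  `X.L D`: the functions with `ord_p x ≥ -D p`.
`X.RI g`: functions without poles are constant, and `dim L(D) ≥ deg D + 1 - g` for effective `D`. -/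

namespace RR

open Module

/-- a rational point -/
structure Pl (K F : Type) [Field K] [Field F] [Algebra K F] where
  ord : F → ℤ
  res : F → K
  tau : F
  ord_mul : ∀ {x y : F}, x ≠ 0 → y ≠ 0 → ord (x * y) = ord x + ord y
  ord_add : ∀ {x y : F}, x ≠ 0 → y ≠ 0 → x + y ≠ 0 → min (ord x) (ord y) ≤ ord (x + y)
  ord_const : ∀ {c : K}, c ≠ 0 → ord (algebraMap K F c) = 0
  tau_ne : tau ≠ 0
  ord_tau : ord tau = 1
  res_const : ∀ c : K, res (algebraMap K F c) = c
  res_add : ∀ {x y : F}, (x = 0 ∨ 0 ≤ ord x) → (y = 0 ∨ 0 ≤ ord y) → res (x + y) = res x + res y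
  res_mul : ∀ {x y : F}, (x = 0 ∨ 0 ≤ ord x) → (y = 0 ∨ 0 ≤ ord y) → res (x * y) = res x * res y
  res_pos : ∀ {x : F}, (x = 0 ∨ 0 ≤ ord x) → (res x = 0 ↔ (x = 0 ∨ 1 ≤ ord x))

variable {K F : Type} [Field K] [Field F] [Algebra K F]

/-- the order is at least `n` -/
def Pl.Ge (P : Pl K F) (n : ℤ) (x : F) : Prop := x = 0 ∨ n ≤ P.ord x

variable (P : Pl K F)

theorem Pl.ord_one : P.ord 1 = 0 := by
  have h := P.ord_const (one_ne_zero (α := K))
  rwa [map_one] at h

theorem Pl.ord_neg (x : F) : P.ord (-x) = P.ord x := by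
  by_cases hx : x = 0
  · rw [hx, neg_zero]
  · have h1 : P.ord (algebraMap K F (-1)) = 0 := P.ord_const (neg_ne_zero.2 one_ne_zero)
    have h2 : algebraMap K F (-1) ≠ 0 := by
      rw [map_neg, map_one]
      exact neg_ne_zero.2 one_ne_zero
    have h3 := P.ord_mul h2 hx
    rw [h1, zero_add, map_neg, map_one, neg_one_mul] at h3
    exact h3

theorem Pl.Ge.zero (n : ℤ) : P.Ge n 0 := Or.inl rfl

theorem Pl.Ge.add {P : Pl K F} {n : ℤ} {x y : F} (hx : P.Ge n x) (hy : P.Ge n y) : P.Ge n (x + y) := by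
  by_cases h0 : x + y = 0
  · exact Or.inl h0
  by_cases hx0 : x = 0
  · rw [hx0, zero_add]
    exact hy
  by_cases hy0 : y = 0
  · rw [hy0, add_zero]
    exact hx
  · have h1 := P.ord_add hx0 hy0 h0
    have h2 := hx.resolve_left hx0
    have h3 := hy.resolve_left hy0
    exact Or.inr (le_trans (le_min h2 h3) h1)

theorem Pl.Ge.mul {P : Pl K F} {m n : ℤ} {x y : F} (hx : P.Ge m x) (hy : P.Ge n y) : P.Ge (m + n) (x * y) := by
  by_cases hx0 : x = 0
  · rw [hx0, zero_mul]
    exact Pl.Ge.zero P _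
  by_cases hy0 : y = 0
  · rw [hy0, mul_zero]
    exact Pl.Ge.zero P _
  · have h2 := hx.resolve_left hx0
    have h3 := hy.resolve_left hy0
    refine Or.inr ?_
    rw [P.ord_mul hx0 hy0]
    omega

theorem Pl.Ge.const (c : K) : P.Ge 0 (algebraMap K F c) := by
  by_cases hc : c = 0
  · rw [hc, map_zero]
    exact Pl.Ge.zero P _
  · exact Or.inr (le_of_eq (P.ord_const hc).symm)

theorem Pl.Ge.smul {P : Pl K F} {n : ℤ} {x : F} (hx : P.Ge n x) (c : K) : P.Ge n (c • x) := by
  rw [Algebra.smul_def]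
  have h := (Pl.Ge.const P c).mul hx
  rwa [zero_add] at h

theorem Pl.Ge.mono {P : Pl K F} {m n : ℤ} {x : F} (hx : P.Ge n x) (h : m ≤ n) : P.Ge m x :=
  hx.imp id fun h1 => h.trans h1

/-- a family of points -/
structure Crv (K F : Type) [Field K] [Field F] [Algebra K F] where
  Pt : Type
  pl : Pt → Pl K F
  fin : ∀ x : F, x ≠ 0 → {p | (pl p).ord x ≠ 0}.Finite
  ne : Nonempty Pt

variable (X : Crv K F)

/-- the functions with poles bounded by `D` -/
def Crv.L (D : X.Pt →₀ ℤ) : Submodule K F where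
  carrier := {x | ∀ p, (X.pl p).Ge (-(D p)) x}
  zero_mem' := fun p => Pl.Ge.zero (X.pl p) _
  add_mem' := fun hx hy p => (hx p).add (hy p)
  smul_mem' := fun c _ hx p => (hx p).smul c

theorem Crv.mem_L {D : X.Pt →₀ ℤ} {x : F} : x ∈ X.L D ↔ ∀ p, (X.pl p).Ge (-(D p)) x := Iff.rfl

/-- the inequality of Riemann -/
structure Crv.RI (g : ℕ) : Prop where
  const : ∀ x : F, x ∈ X.L 0 → ∃ c : K, x = algebraMap K F c
  ri : ∀ D : X.Pt →₀ ℤ, 0 ≤ D → D.degree + 1 ≤ (finrank K (X.L D) : ℤ) + g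

/-- the functions which are regular outside `q` -/
def Crv.R (q : X.Pt) : Subalgebra K F where
  carrier := {x | ∀ p, p ≠ q → (X.pl p).Ge 0 x}
  mul_mem' := fun hx hy p hp => by
    have h := (hx p hp).mul (hy p hp)
    rwa [zero_add] at h
  add_mem' := fun hx hy p hp => (hx p hp).add (hy p hp)
  algebraMap_mem' := fun c p _ => Pl.Ge.const (X.pl p) c

theorem Crv.mem_R {q : X.Pt} {x : F} : x ∈ X.R q ↔ ∀ p, p ≠ q → (X.pl p).Ge 0 x := Iff.rfl

open Classical in
/-- the divisor of a function -/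
noncomputable def Crv.div (x : F) : X.Pt →₀ ℤ :=
  if h : x ≠ 0 then Finsupp.ofSupportFinite (fun p => (X.pl p).ord x) (X.fin x h) else 0

theorem Crv.div_apply {x : F} (hx : x ≠ 0) (p : X.Pt) : X.div x p = (X.pl p).ord x := by
  unfold Crv.div
  rw [dif_pos hx]
  rfl

end RR
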