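import Pool.Agent.H99.RR.Deg

/-! # RR.Exa : the theorem of Riemann: equality in large degree (120 lines)

The integers `i(D) = D.degree + 1 - finrank (L D)` are `≤ g` (`ri_all`) and `i(0) = 0`; let `g'` be their maximum (`0 ≤ g' ≤ g`), attained at `D0` (`Int` set bounded above, nonempty: `Int.exists_greatest_of_bdd`).  Put `c0 = D0.degree + g'`.
Let `c0 ≤ D.degree`.  `D.degree + 1 ≤ finrank + g'` holds by maximality.  `finrank (L (D - D0)) ≥ (D - D0).degree + 1 - g' ≥ 1` so there is `f ≠ 0` in `L(D - D0)`: `div f + D - D0 ≥ 0`, so `D0 - div f ≤ D`, and by `L_rank` and `L_mulx`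
`finrank (L D) ≤ finrank (L (D0 - div f)) + D.degree - (D0 - div f).degree = finrank (L D0) + D.degree - D0.degree` (`deg_div`), i.e. `i(D) ≥ i(D0) = g'`. -/

namespace RR

open Module

variable {K F : Type} [Field K] [Field F] [Algebra K F] (X : Crv K F) {g : ℕ}

/-- a function space of positive dimension has a nonzero member -/
private theorem exa_ne {D : X.Pt →₀ ℤ} (h : (1 : ℤ) ≤ (finrank K (X.L D) : ℤ)) : ∃ f ∈ X.L D, f ≠ 0 := by
  by_contra hc
  push Not at hc
  have h1 : X.L D = ⊥ := (Submodule.eq_bot_iff _).2 hc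
  rw [h1, finrank_bot] at h
  norm_num at h

theorem exact (h : X.RI g) : ∃ g' : ℕ, g' ≤ g ∧ ∃ c0 : ℤ, ∀ D : X.Pt →₀ ℤ, c0 ≤ D.degree → (finrank K (X.L D) : ℤ) + g' = D.degree + 1 := by
  obtain ⟨u, ⟨D0, hD0⟩, hu⟩ := Int.exists_greatest_of_bdd
    (P := fun z : ℤ => ∃ D : X.Pt →₀ ℤ, z = D.degree + 1 - (finrank K (X.L D) : ℤ))
    ⟨(g : ℤ), by
      rintro z ⟨D, rfl⟩
      have := ri_all X h D
      omega⟩
    ⟨_, 0, rfl⟩
  have hmax : ∀ D : X.Pt →₀ ℤ, D.degree + 1 - (finrank K (X.L D) : ℤ) ≤ u := fun D => hu _ ⟨D, rfl⟩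
  have h0 : (0 : ℤ) ≤ u := by
    have h1 := hmax 0
    rw [L_zero X h, map_zero] at h1
    norm_num at h1
    exact h1
  have hg : u ≤ (g : ℤ) := by
    have := ri_all X h D0
    omega
  refine ⟨u.toNat, by omega, D0.degree + u, fun D hD => ?_⟩
  have hun : ((u.toNat : ℕ) : ℤ) = u := Int.toNat_of_nonneg h0
  rw [hun]
  have h1 := hmax D
  have h2 := hmax (D - D0)
  rw [map_sub] at h2
  obtain ⟨f, hf, hf0⟩ := exa_ne X (D := D - D0) (by omega)
  have hle : D0 - X.div f ≤ D := by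
    intro p
    have h3 := (hf p).resolve_left hf0
    rw [Finsupp.sub_apply, X.div_apply hf0]
    rw [Finsupp.sub_apply] at h3
    omega
  have h4 := L_rank X h hle
  rw [L_mulx X hf0, map_sub, deg_div X h hf0, sub_zero] at h4
  omega

end RR
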