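import Pool.Agent.H99.RR.One

/-! # RR.Hom : the points of the ring `R q` (200 lines)

`Crv.e q p`: `x ↦ res_p x`.  `e_inj`: `p ≠ p'`: `sep` for `D = single q M - single p 1` (`M` large), `S = {p, p'}`: `x` with `ord_p x = 1`, `ord_(p') x = 0`, `x ∈ R q`: `e p x = 0`, `e p' x ≠ 0` (`res_pos`).
`two`: `x, y ∈ R q`, nonzero, without common zero (`∀ p ≠ q, ord_p x = 0 ∨ ord_p y = 0`): there are `a, b ∈ R q` with `a x + b y = 1`: for `m` large consider `V = x L(m q) + y L(m' q)` with `m + deg x = m' + deg y = M` inside `L(M q)`: the kernel of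
`(a, b) ↦ x a + y b` is isomorphic to `L((m - deg y) q)` by `c ↦ (y c, - x c)` (if `x a = - y b` then `c = a / y` is in `R q`: at a zero of `y` outside `q` the function `x` is a unit, so `ord a ≥ ord y`).  By `exact` the dimension of the image is
`(m + 1 - g') + (m' + 1 - g') - (m - deg y + 1 - g') = M + 1 - g' = dim L(M q)`, so the image contains `1`.
`hom_eq`: let `b` be given, `J = ker b`.  If `b ≠ e p` for all `p`, then for all `p ≠ q` there is `y ∈ J` with `e p y ≠ 0` (otherwise `J ≤ ker (e p)`: `f - b f ∈ J`, so `e p f = b f`).  `J ≠ 0` (otherwise `b` is injective, `R q = K`, but `big` gives an element of positive degree; `f - b f ∈ J`).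
Take `0 ≠ x ∈ J`; its zeros `p_1, .., p_r` outside `q` are finitely many; a linear combination `y ∈ J` of the `y_i` does not vanish at any `p_i` (`K` infinite, as in `Sep`).  `two` gives `1 ∈ J`, a contradiction. -/

namespace RR

open Module

variable {K F : Type} [Field K] [Infinite K] [Field F] [Algebra K F] (X : Crv K F) {g : ℕ}

/-- the value at the point `p` -/
noncomputable def Crv.e (q p : X.Pt) (hp : p ≠ q) : X.R q →ₐ[K] K where
  toFun f := (X.pl p).res (f : F)
  map_one' := by
    have h := (X.pl p).res_const 1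
    rwa [map_one] at h
  map_mul' x y := (X.pl p).res_mul (x.2 p hp) (y.2 p hp)
  map_zero' := by
    have h := (X.pl p).res_const 0
    rwa [map_zero] at h
  map_add' x y := (X.pl p).res_add (x.2 p hp) (y.2 p hp)
  commutes' c := (X.pl p).res_const c

omit [Infinite K] in
private theorem hom_div (P : Pl K F) {x y : F} (hx : x ≠ 0) (hy : y ≠ 0) : P.ord (x * y⁻¹) = P.ord x - P.ord y := by
  have h := P.ord_mul (mul_ne_zero hx (inv_ne_zero hy)) hy
  rw [inv_mul_cancel_right₀ hy] at h
  omega

theorem e_inj (h : X.RI g) {q p p' : X.Pt} (hp : p ≠ q) (hp' : p' ≠ q) (he : X.e q p hp = X.e q p' hp') : p = p' := by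
  classical
  by_contra hpp
  obtain ⟨c0, hc0⟩ := sep X h
  obtain ⟨x, hxL, hx0, hxo⟩ := hc0 (Finsupp.single q (c0 + 1) - Finsupp.single p 1) (by
    rw [map_sub, Finsupp.degree_single, Finsupp.degree_single]
    omega) {p, p'}
  have h1 := hxo p (by simp)
  have h2 := hxo p' (by simp)
  rw [Finsupp.sub_apply, Finsupp.single_eq_of_ne hp, Finsupp.single_eq_same] at h1
  rw [Finsupp.sub_apply, Finsupp.single_eq_of_ne hp', Finsupp.single_eq_of_ne (Ne.symm hpp)] at h2
  have hR : x ∈ X.R q := by
    intro r hr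
    refine (hxL r).mono ?_
    rw [Finsupp.sub_apply, Finsupp.single_eq_of_ne hr, Finsupp.single_apply]
    split_ifs <;> omega
  have h3 : (X.pl p).res x = 0 := ((X.pl p).res_pos (hR p hp)).2 (Or.inr (by omega))
  have h4 : (X.pl p).res x = (X.pl p').res x := congrArg (fun φ : X.R q →ₐ[K] K => φ ⟨x, hR⟩) he
  rw [h3] at h4
  rcases ((X.pl p').res_pos (hR p' hp')).1 h4.symm with h5 | h5
  · exact hx0 h5
  · omega

theorem two (h : X.RI g) {q : X.Pt} {x y : F} (hx : x ∈ X.R q) (hy : y ∈ X.R q) (hx0 : x ≠ 0) (hy0 : y ≠ 0)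
    (hxy : ∀ p, p ≠ q → (X.pl p).ord x = 0 ∨ (X.pl p).ord y = 0) : ∃ a ∈ X.R q, ∃ b ∈ X.R q, a * x + b * y = 1 := by
  classical
  obtain ⟨g', -, c0, hc0⟩ := exact X h
  have hdx := R_neg X h hx hx0
  have hdy := R_neg X h hy hy0
  obtain ⟨dx, hdxe⟩ : ∃ dx : ℤ, dx = -(X.pl q).ord x := ⟨_, rfl⟩
  obtain ⟨dy, hdye⟩ : ∃ dy : ℤ, dy = -(X.pl q).ord y := ⟨_, rfl⟩
  obtain ⟨M, hM0, hMc⟩ : ∃ M : ℤ, 0 ≤ M ∧ c0 ≤ M - dx - dy := ⟨max c0 0 + dx + dy, by omega, by omega⟩
  -- a function is in `L (n q)` iff it is in `R q` and its order at `q` is at least `-n`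
  have hmem : ∀ (n : ℤ) (z : F), z ∈ X.L (Finsupp.single q n) ↔ z ∈ X.R q ∧ (X.pl q).Ge (-n) z := by
    intro n z
    constructor
    · intro hz
      refine ⟨fun p hp => ?_, ?_⟩
      · have h1 := hz p
        rwa [Finsupp.single_eq_of_ne hp, neg_zero] at h1
      · have h1 := hz q
        rwa [Finsupp.single_eq_same] at h1
    · rintro ⟨h1, h2⟩ p
      by_cases hp : p = q
      · subst hp
        rwa [Finsupp.single_eq_same]
      · rw [Finsupp.single_eq_of_ne hp, neg_zero]
        exact h1 p hp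
  have hdeg : ∀ n : ℤ, c0 ≤ n → (finrank K (X.L (Finsupp.single q n)) : ℤ) + g' = n + 1 := by
    intro n hn
    have h1 := hc0 (Finsupp.single q n) (by rwa [Finsupp.degree_single])
    rwa [Finsupp.degree_single] at h1
  have hgx : (X.pl q).Ge (-dx) x := Or.inr (by omega)
  have hgy : (X.pl q).Ge (-dy) y := Or.inr (by omega)
  have := L_fd X h (Finsupp.single q (M - dx))
  have := L_fd X h (Finsupp.single q (M - dy))
  have := L_fd X h (Finsupp.single q (M - dx - dy))
  have := L_fd X h (Finsupp.single q M)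
  let φ : (X.L (Finsupp.single q (M - dx)) × X.L (Finsupp.single q (M - dy))) →ₗ[K] F :=
    ((LinearMap.mulRight K x).comp (X.L (Finsupp.single q (M - dx))).subtype).coprod
      ((LinearMap.mulRight K y).comp (X.L (Finsupp.single q (M - dy))).subtype)
  have hφ : ∀ u, φ u = (u.1 : F) * x + (u.2 : F) * y := fun u => rfl
  have hran : LinearMap.range φ ≤ X.L (Finsupp.single q M) := by
    rintro z ⟨u, rfl⟩
    rw [hφ]
    obtain ⟨a1, a2⟩ := (hmem _ _).1 u.1.2
    obtain ⟨b1, b2⟩ := (hmem _ _).1 u.2.2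
    refine (hmem _ _).2 ⟨(X.R q).add_mem ((X.R q).mul_mem a1 hx) ((X.R q).mul_mem b1 hy), ?_⟩
    exact ((a2.mul hgx).mono (by omega)).add ((b2.mul hgy).mono (by omega))
  -- the kernel
  let ψ0 : LinearMap.ker φ →ₗ[K] F :=
    (((LinearMap.mulRight K y⁻¹).comp (X.L (Finsupp.single q (M - dx))).subtype).comp
      (LinearMap.fst K _ _)).comp (LinearMap.ker φ).subtype
  have hψ : ∀ u, ψ0 u = ((u.1.1 : F)) * y⁻¹ := fun u => rfl
  have hψ0 : ∀ u, ψ0 u ∈ X.L (Finsupp.single q (M - dx - dy)) := by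
    intro u
    rw [hψ]
    obtain ⟨⟨a, b⟩, hu⟩ := u
    have hu1 : (a : F) * x + (b : F) * y = 0 := hu
    change (a : F) * y⁻¹ ∈ _
    obtain ⟨a1, a2⟩ := (hmem _ _).1 a.2
    obtain ⟨b1, b2⟩ := (hmem _ _).1 b.2
    by_cases ha : (a : F) = 0
    · rw [ha, zero_mul]
      exact Submodule.zero_mem _
    have hb : (b : F) ≠ 0 := by
      intro hb
      rw [hb, zero_mul, add_zero] at hu1
      exact (mul_ne_zero ha hx0) hu1
    have hc : (a : F) * y⁻¹ = (-(b : F)) * x⁻¹ := by
      field_simp
      linear_combination hu1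
    refine (hmem _ _).2 ⟨fun p hp => ?_, ?_⟩
    · rcases hxy p hp with h1 | h1
      · right
        rw [hc, hom_div _ (neg_ne_zero.2 hb) hx0, (X.pl p).ord_neg, h1, sub_zero]
        exact (b1 p hp).resolve_left hb
      · right
        rw [hom_div _ ha hy0, h1, sub_zero]
        exact (a1 p hp).resolve_left ha
    · right
      rw [hom_div _ ha hy0]
      have h2 := a2.resolve_left ha
      omega
  have hker : finrank K (LinearMap.ker φ) ≤ finrank K (X.L (Finsupp.single q (M - dx - dy))) := by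
    apply LinearMap.finrank_le_finrank_of_injective (f := LinearMap.codRestrict _ ψ0 hψ0)
    intro u v huv
    have h1 : ψ0 u = ψ0 v := congrArg Subtype.val huv
    rw [hψ, hψ] at h1
    have h2 : (u.1.1 : F) = (v.1.1 : F) := mul_right_cancel₀ (inv_ne_zero hy0) h1
    have h3 : (u.1.1 : F) * x + (u.1.2 : F) * y = 0 := u.2
    have h4 : (v.1.1 : F) * x + (v.1.2 : F) * y = 0 := v.2
    have h5 : (u.1.2 : F) = (v.1.2 : F) := by
      apply mul_right_cancel₀ hy0
      rw [h2] at h3
      linear_combination h3 - h4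
    exact Subtype.ext (Prod.ext (Subtype.ext h2) (Subtype.ext h5))
  have hrk := LinearMap.finrank_range_add_finrank_ker φ
  rw [Module.finrank_prod] at hrk
  have e1 := hdeg (M - dx) (by omega)
  have e2 := hdeg (M - dy) (by omega)
  have e3 := hdeg (M - dx - dy) hMc
  have e4 := hdeg M (by omega)
  have heq : LinearMap.range φ = X.L (Finsupp.single q M) :=
    Submodule.eq_of_le_of_finrank_le hran (by omega)
  have hone : (1 : F) ∈ LinearMap.range φ := by
    rw [heq]
    exact (hmem _ _).2 ⟨(X.R q).one_mem, Or.inr (by rw [(X.pl q).ord_one]; omega)⟩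
  obtain ⟨u, hu⟩ := hone
  rw [hφ] at hu
  exact ⟨u.1, ((hmem _ _).1 u.1.2).1, u.2, ((hmem _ _).1 u.2.2).1, hu⟩

theorem hom_eq (h : X.RI g) {q : X.Pt} (b : X.R q →ₐ[K] K) : ∃ (p : X.Pt) (hp : p ≠ q), b = X.e q p hp := by
  classical
  by_contra hcon
  push Not at hcon
  -- for every point there is a function in the kernel of `b` with nonzero value
  have hy : ∀ (p : X.Pt) (hp : p ≠ q), ∃ y : X.R q, b y = 0 ∧ X.e q p hp y ≠ 0 := by
    intro p hp
    by_contra hc
    push Not at hc
    apply hcon p hp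
    ext f
    have h1 := hc (f - algebraMap K (X.R q) (b f)) (by
      rw [map_sub, b.commutes]
      exact sub_self _)
    rw [map_sub, (X.e q p hp).commutes] at h1
    exact (sub_eq_zero.1 h1).symm
  -- a nonzero member of the kernel
  obtain ⟨x, hbx, hx0⟩ : ∃ x : X.R q, b x = 0 ∧ x ≠ 0 := by
    obtain ⟨N, hN⟩ := (X.one h q).big
    obtain ⟨f, hf0, hf⟩ := hN (N + 1) (by omega)
    refine ⟨f - algebraMap K (X.R q) (b f), ?_, ?_⟩
    · rw [map_sub, b.commutes]
      exact sub_self _
    · intro h1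
      rw [sub_eq_zero.1 h1, (X.one h q).deg_const] at hf
      omega
  have hx0F : (x : F) ≠ 0 := fun h1 => hx0 (Subtype.ext h1)
  -- a member of the kernel without zeros in a finite set
  have hlin : ∀ S : Finset X.Pt, ∃ y : X.R q, b y = 0 ∧ ∀ p ∈ S, ∀ hp : p ≠ q, X.e q p hp y ≠ 0 := by
    intro S
    induction S using Finset.induction_on with
    | empty => exact ⟨0, map_zero b, fun p hp => absurd hp (Finset.notMem_empty p)⟩
    | insert p S hpS ih =>
      obtain ⟨y, hby, hyS⟩ := ih
      by_cases hp : p = q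
      · refine ⟨y, hby, fun r hr hrq => ?_⟩
        rcases Finset.mem_insert.1 hr with h1 | h1
        · exact absurd (h1.trans hp) hrq
        · exact hyS r h1 hrq
      · obtain ⟨z, hbz, hz⟩ := hy p hp
        obtain ⟨c, hc⟩ := Infinite.exists_notMem_finset
          ((insert p S).image fun r => if hr : r = q then (0 : K) else -(X.e q r hr y) / (X.e q r hr z))
        refine ⟨y + c • z, ?_, fun r hr hrq h1 => ?_⟩
        · rw [map_add, map_smul, hby, hbz, smul_zero, add_zero]
        · rw [map_add, map_smul, smul_eq_mul] at h1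
          by_cases hzr : X.e q r hrq z = 0
          · rw [hzr, mul_zero, add_zero] at h1
            rcases Finset.mem_insert.1 hr with h2 | h2
            · subst h2
              exact hz hzr
            · exact hyS r h2 hrq h1
          · apply hc
            refine Finset.mem_image.2 ⟨r, hr, ?_⟩
            rw [dif_neg hrq]
            rw [div_eq_iff hzr]
            linear_combination -h1
  obtain ⟨y, hby, hyS⟩ := hlin (X.fin (x : F) hx0F).toFinset
  have hfin : ∀ y : X.R q, b y = 0 → (y : F) ≠ 0 → (∀ p, p ≠ q → (X.pl p).ord (x : F) = 0 ∨ (X.pl p).ord (y : F) = 0) → False := by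
    intro y hby hy0 hxy
    obtain ⟨a, ha, c, hc, hac⟩ := two X h x.2 y.2 hx0F hy0 hxy
    have h1 : (⟨a, ha⟩ : X.R q) * x + (⟨c, hc⟩ : X.R q) * y = 1 := Subtype.ext hac
    have h2 := congrArg b h1
    rw [map_add, map_mul, map_mul, hbx, hby, mul_zero, mul_zero, add_zero, map_one] at h2
    exact zero_ne_one h2
  by_cases hy0 : (y : F) = 0
  · refine hfin x hbx hx0F fun p hp => Or.inl ?_
    by_contra h1
    have h2 := hyS p ((Set.Finite.mem_toFinset _).2 h1) hp
    apply h2
    have h3 : y = 0 := Subtype.ext hy0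
    rw [h3, map_zero]
  · refine hfin y hby hy0 fun p hp => ?_
    by_cases h1 : (X.pl p).ord (x : F) = 0
    · exact Or.inl h1
    · right
      have h2 := hyS p ((Set.Finite.mem_toFinset _).2 h1) hp
      have h3 : (X.pl p).res (y : F) ≠ 0 := h2
      have h4 := (y.2 p hp).resolve_left hy0
      by_contra h5
      apply h3
      exact ((X.pl p).res_pos (y.2 p hp)).2 (Or.inr (by omega))

end RR
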