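import Pool.Agent.H99.RR.Def

/-! # RR.Lsp : first properties of the spaces `L(D)` (120 lines)

`L_step`: `l x = res_p (x * tau_p ^ (D p))` (`zpow`), linear by `res_add`, `res_mul`, `res_const`, because `x * tau ^ (D p)` has order `≥ 0` at `p`; it is `0` iff `Ge 1`, i.e. iff `x` has order `≥ -D p + 1`.
`L_fd`: first `D = 0`: `L 0` is the image of `K` (`const`).  Induction: `L_step` gives `fd (L (D - p)) → fd (L D)` (kernel and image of `l` are finite-dimensional; `L (D - p) ≤ L D`) and `L_mono` the converse.
Every `D` is `≤` its positive part, and `0 + p_1 + ... + p_r` is reached in finitely many steps (`Finsupp.induction_linear`, or induction on the degree of the positive part).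
`L_rank`: induction on `(D - D').degree`: if `D' ≤ D`, `D' ≠ D` there is `p` with `D' p < D p`, so `D' ≤ D - single p 1`. -/

namespace RR

open Module

variable {K F : Type} [Field K] [Field F] [Algebra K F] (X : Crv K F) {g : ℕ}

theorem L_mono {D D' : X.Pt →₀ ℤ} (h : D ≤ D') : X.L D ≤ X.L D' := fun _ hx p => (hx p).mono (neg_le_neg (h p))

omit [Algebra K F] in
private theorem degree_nn {ι : Type} {D : ι →₀ ℤ} (h : 0 ≤ D) : 0 ≤ D.degree := by
  rw [Finsupp.degree_apply]
  exact Finset.sum_nonneg fun i _ => h i

private theorem ord_inv (P : Pl K F) {x : F} (hx : x ≠ 0) : P.ord x⁻¹ = - P.ord x := by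
  have h := P.ord_mul hx (inv_ne_zero hx)
  rw [mul_inv_cancel₀ hx, P.ord_one] at h
  omega

private theorem ord_pow (P : Pl K F) {x : F} (hx : x ≠ 0) (n : ℕ) : P.ord (x ^ n) = n * P.ord x := by
  induction n with
  | zero => rw [pow_zero, P.ord_one]; simp
  | succ n ih =>
    rw [pow_succ, P.ord_mul (pow_ne_zero n hx) hx, ih]
    push_cast
    ring

private theorem ord_zpow (P : Pl K F) {x : F} (hx : x ≠ 0) (n : ℤ) : P.ord (x ^ n) = n * P.ord x := by
  obtain ⟨m, rfl | rfl⟩ := n.eq_nat_or_neg
  · rw [zpow_natCast, ord_pow P hx]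
  · rw [zpow_neg, zpow_natCast, ord_inv P (pow_ne_zero m hx), ord_pow P hx]
    ring

private theorem ge_tau (P : Pl K F) {n : ℤ} {x : F} (hx : P.Ge (-n) x) : x * P.tau ^ n = 0 ∨ 0 ≤ P.ord (x * P.tau ^ n) := by
  rcases hx with h | h
  · left
    rw [h, zero_mul]
  · by_cases h0 : x = 0
    · left
      rw [h0, zero_mul]
    · right
      rw [P.ord_mul h0 (zpow_ne_zero n P.tau_ne), ord_zpow P P.tau_ne, P.ord_tau]
      omega

theorem L_step (D : X.Pt →₀ ℤ) (p : X.Pt) : ∃ l : X.L D →ₗ[K] K, ∀ x : X.L D, l x = 0 ↔ (x : F) ∈ X.L (D - Finsupp.single p 1) := by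
  classical
  refine ⟨{ toFun := fun x => (X.pl p).res ((x : F) * (X.pl p).tau ^ (D p))
            map_add' := fun x y => ?_
            map_smul' := fun c x => ?_ }, fun x => ?_⟩
  · rw [Submodule.coe_add, add_mul, (X.pl p).res_add (ge_tau _ (x.2 p)) (ge_tau _ (y.2 p))]
  · rw [Submodule.coe_smul, Algebra.smul_def, mul_assoc, (X.pl p).res_mul (Pl.Ge.const (X.pl p) c) (ge_tau _ (x.2 p)),
      (X.pl p).res_const, RingHom.id_apply, smul_eq_mul]
  · change (X.pl p).res ((x : F) * (X.pl p).tau ^ (D p)) = 0 ↔ _
    rw [(X.pl p).res_pos (ge_tau _ (x.2 p)), X.mem_L]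
    have ht : (X.pl p).tau ^ (D p) ≠ 0 := zpow_ne_zero _ (X.pl p).tau_ne
    constructor
    · intro h q
      by_cases hq : q = p
      · subst hq
        rw [Finsupp.sub_apply, Finsupp.single_eq_same]
        rcases h with h | h
        · exact Or.inl ((mul_eq_zero.1 h).resolve_right ht)
        · by_cases h0 : (x : F) = 0
          · exact Or.inl h0
          · right
            rw [(X.pl q).ord_mul h0 ht, ord_zpow _ (X.pl q).tau_ne, (X.pl q).ord_tau] at h
            omega
      · rw [Finsupp.sub_apply, Finsupp.single_eq_of_ne hq, sub_zero]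
        exact x.2 q
    · intro h
      have h1 := h p
      rw [Finsupp.sub_apply, Finsupp.single_eq_same] at h1
      rcases h1 with h1 | h1
      · left
        rw [h1, zero_mul]
      · by_cases h0 : (x : F) = 0
        · left
          rw [h0, zero_mul]
        · right
          rw [(X.pl p).ord_mul h0 ht, ord_zpow _ (X.pl p).tau_ne, (X.pl p).ord_tau]
          omega

theorem L_zero (h : X.RI g) : finrank K (X.L 0) = 1 := by
  have hc : ∀ c : K, algebraMap K F c ∈ X.L 0 := fun c p => by
    rw [Finsupp.zero_apply, neg_zero]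
    exact Pl.Ge.const (X.pl p) c
  let e : K →ₗ[K] X.L 0 :=
    { toFun := fun c => ⟨algebraMap K F c, hc c⟩
      map_add' := fun x y => Subtype.ext (map_add _ x y)
      map_smul' := fun c x => Subtype.ext (by
        change algebraMap K F (c * x) = c • algebraMap K F x
        rw [Algebra.smul_def, map_mul]) }
  have hb : Function.Bijective e := by
    constructor
    · intro x y hxy
      exact (algebraMap K F).injective (congrArg Subtype.val hxy)
    · intro x
      obtain ⟨c, hc'⟩ := h.const x.1 x.2
      exact ⟨c, Subtype.ext hc'.symm⟩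
  rw [← LinearEquiv.finrank_eq (LinearEquiv.ofBijective e hb)]
  exact finrank_self K

private theorem sub_le (D : X.Pt →₀ ℤ) (p : X.Pt) : D - Finsupp.single p 1 ≤ D := by
  classical
  intro q
  rw [Finsupp.sub_apply, Finsupp.single_apply]
  split_ifs <;> omega

private theorem ker_eq {D : X.Pt →₀ ℤ} {p : X.Pt} {l : X.L D →ₗ[K] K}
    (hl : ∀ x : X.L D, l x = 0 ↔ (x : F) ∈ X.L (D - Finsupp.single p 1)) :
    LinearMap.ker l = Submodule.comap (X.L D).subtype (X.L (D - Finsupp.single p 1)) := by
  ext x
  rw [LinearMap.mem_ker, hl, Submodule.mem_comap]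
  rfl

private theorem fd_up {D : X.Pt →₀ ℤ} (p : X.Pt) (h : FiniteDimensional K (X.L (D - Finsupp.single p 1))) :
    FiniteDimensional K (X.L D) := by
  obtain ⟨l, hl⟩ := L_step X D p
  have h1 : FiniteDimensional K (LinearMap.ker l) := by
    rw [ker_eq X hl]
    exact LinearEquiv.finiteDimensional (Submodule.comapSubtypeEquivOfLe (L_mono X (sub_le X D p))).symm
  have h2 : FiniteDimensional K (LinearMap.range l) := inferInstance
  have h3 : (⊤ : Submodule K (X.L D)).FG := by
    apply Submodule.fg_of_fg_map_of_fg_inf_ker l
    · rw [← LinearMap.range_eq_map]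
      exact (Submodule.fg_top _).1 h2.fg_top
    · rw [top_inf_eq]
      exact (Submodule.fg_top _).1 h1.fg_top
  exact ⟨h3⟩

theorem L_fd (h : X.RI g) (D : X.Pt →₀ ℤ) : FiniteDimensional K (X.L D) := by
  classical
  have h0 : FiniteDimensional K (X.L 0) := by
    apply FiniteDimensional.of_finrank_pos
    rw [L_zero X h]
    exact one_pos
  have hup : ∀ (n : ℕ) (D : X.Pt →₀ ℤ) (p : X.Pt), FiniteDimensional K (X.L D) →
      FiniteDimensional K (X.L (D + Finsupp.single p (n : ℤ))) := by
    intro n
    induction n with
    | zero =>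
      intro D p hD
      rw [Nat.cast_zero, Finsupp.single_zero, add_zero]
      exact hD
    | succ n ih =>
      intro D p hD
      apply fd_up X p
      have e : D + Finsupp.single p ((n + 1 : ℕ) : ℤ) - Finsupp.single p 1 = D + Finsupp.single p (n : ℤ) := by
        rw [add_sub_assoc, ← Finsupp.single_sub]
        congr 2
        push_cast
        ring
      rw [e]
      exact ih D p hD
  have hall : ∀ (n : ℤ) (D : X.Pt →₀ ℤ) (p : X.Pt), FiniteDimensional K (X.L D) →
      FiniteDimensional K (X.L (Finsupp.single p n + D)) := by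
    intro n D p hD
    rw [add_comm]
    rcases le_total 0 n with hn | hn
    · obtain ⟨m, rfl⟩ := Int.eq_ofNat_of_zero_le hn
      exact hup m D p hD
    · have h2 : D + Finsupp.single p n ≤ D := by
        intro q
        rw [Finsupp.add_apply, Finsupp.single_apply]
        split_ifs <;> omega
      exact Submodule.finiteDimensional_of_le (L_mono X h2)
  induction D using Finsupp.induction with
  | zero => exact h0
  | single_add a b f _ _ ih => exact hall b f a ih

private theorem rank_step (h : X.RI g) (D : X.Pt →₀ ℤ) (p : X.Pt) :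
    finrank K (X.L D) ≤ finrank K (X.L (D - Finsupp.single p 1)) + 1 := by
  obtain ⟨l, hl⟩ := L_step X D p
  have := L_fd X h D
  have h1 := LinearMap.finrank_range_add_finrank_ker l
  have h2 : finrank K (LinearMap.range l) ≤ 1 := by
    refine (Submodule.finrank_le _).trans ?_
    rw [finrank_self]
  have h3 : finrank K (LinearMap.ker l) = finrank K (X.L (D - Finsupp.single p 1)) := by
    rw [ker_eq X hl]
    exact LinearEquiv.finrank_eq (Submodule.comapSubtypeEquivOfLe (L_mono X (sub_le X D p)))
  omega

theorem L_rank (h : X.RI g) {D D' : X.Pt →₀ ℤ} (h' : D' ≤ D) :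
    (finrank K (X.L D) : ℤ) ≤ finrank K (X.L D') + (D.degree - D'.degree) := by
  classical
  have key : ∀ (n : ℕ) (D : X.Pt →₀ ℤ), D' ≤ D → D.degree - D'.degree ≤ n →
      (finrank K (X.L D) : ℤ) ≤ finrank K (X.L D') + (D.degree - D'.degree) := by
    intro n
    induction n with
    | zero =>
      intro D hD hn
      by_cases hDD : D = D'
      · subst hDD
        omega
      · exfalso
        obtain ⟨p, hp⟩ : ∃ p, D' p < D p := by
          by_contra h1
          push Not at h1
          exact hDD (le_antisymm h1 hD)
        have h2 : 0 ≤ (D - D' - Finsupp.single p 1).degree := by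
          apply degree_nn
          intro q
          rw [Finsupp.zero_apply, Finsupp.sub_apply, Finsupp.sub_apply, Finsupp.single_apply]
          have := hD q
          split_ifs with hq
          · subst hq
            omega
          · omega
        rw [map_sub, map_sub, Finsupp.degree_single] at h2
        omega
    | succ n ih =>
      intro D hD hn
      by_cases hDD : D = D'
      · subst hDD
        omega
      · obtain ⟨p, hp⟩ : ∃ p, D' p < D p := by
          by_contra h1
          push Not at h1
          exact hDD (le_antisymm h1 hD)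
        have h2 : D' ≤ D - Finsupp.single p 1 := by
          intro q
          rw [Finsupp.sub_apply, Finsupp.single_apply]
          have := hD q
          split_ifs with hq
          · subst hq
            omega
          · omega
        have h3 : (D - Finsupp.single p 1).degree = D.degree - 1 := by
          rw [map_sub, Finsupp.degree_single]
        have h4 := ih _ h2 (by rw [h3]; push_cast at hn ⊢; omega)
        have h5 := rank_step X h D p
        rw [h3] at h4
        omega
  have h0 : 0 ≤ (D - D').degree := degree_nn fun q => by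
    rw [Finsupp.zero_apply, Finsupp.sub_apply]
    have := h' q
    omega
  rw [map_sub] at h0
  obtain ⟨n, hn⟩ := Int.eq_ofNat_of_zero_le h0
  exact key n D h' (le_of_eq hn)

end RR
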