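import Pool.Agent.H99.RR.Sep
import Pool.Agent.H99.GB.Def

/-! # RR.One : the functions regular outside `q` form a ring with one point at infinity (150 lines)

`R_neg`: `f ∈ R q`, `f ≠ 0`: `0 = (div f).degree = Σ ord_p f`, all terms with `p ≠ q` are `≥ 0`, so `ord_q f ≤ 0` (`deg_div`; write `(X.div f).degree = (X.div f) q + ...`, e.g. `0 ≤ div f - single q (ord_q f)` and `degree_nonneg`, `map_sub`, `degree_single`).
`deg f = (- ord_q f).toNat`, `lc f = res_q (f * tau ^ deg f)`; `f * tau ^ deg f` has order `0` if `f ≠ 0`, so `lc f ≠ 0`.  `lc_mul`: `res_mul`.  `deg_const`, `lc_const`: `ord_const`, `res_const`.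
`deg_sub`: `ord_add`, `ord_neg`.  `drop`: `deg f = deg g = d`, `res (f tau^d) = res (g tau^d)`: `res ((f - g) tau^d) = 0`, so `f - g` has order `≥ -d + 1`; if `d = 0` this is a positive order, impossible by `R_neg`, so `d > 0` and `deg (f - g) < d`.
`big`: `sep` for `D = single q m`, `S = {q}`: `x ∈ L D` is in `R q` and has order `-m` at `q`. -/

namespace RR

open Module

variable {K F : Type} [Field K] [Infinite K] [Field F] [Algebra K F] (X : Crv K F) {g : ℕ}

omit [Infinite K] in
private theorem one_opow (P : Pl K F) (n : ℕ) : P.tau ^ n ≠ 0 ∧ P.ord (P.tau ^ n) = n := by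
  induction n with
  | zero =>
    refine ⟨by rw [pow_zero]; exact one_ne_zero, ?_⟩
    rw [pow_zero, P.ord_one]
    rfl
  | succ n ih =>
    refine ⟨pow_ne_zero _ P.tau_ne, ?_⟩
    rw [pow_succ, P.ord_mul ih.1 P.tau_ne, ih.2, P.ord_tau]
    push_cast
    ring

omit [Infinite K] in
private theorem one_res_zero (P : Pl K F) : P.res 0 = 0 := (P.res_pos (Or.inl rfl)).2 (Or.inl rfl)

omit [Infinite K] in
private theorem one_res_neg (P : Pl K F) {x : F} (hx : x = 0 ∨ 0 ≤ P.ord x) : P.res (-x) = - P.res x := by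
  have hx' : -x = 0 ∨ 0 ≤ P.ord (-x) := by
    rw [P.ord_neg, neg_eq_zero]
    exact hx
  have h1 := P.res_add hx hx'
  rw [add_neg_cancel, one_res_zero] at h1
  exact (neg_eq_of_add_eq_zero_right h1.symm).symm

omit [Infinite K] in
theorem R_neg (h : X.RI g) {q : X.Pt} {f : F} (hf : f ∈ X.R q) (hf0 : f ≠ 0) : (X.pl q).ord f ≤ 0 := by
  classical
  by_contra hcon
  have h1 := deg_div X h hf0
  have h2 : (0 : X.Pt →₀ ℤ) ≤ X.div f - Finsupp.single q 1 := by
    intro p
    rw [Finsupp.sub_apply, X.div_apply hf0, Finsupp.zero_apply]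
    by_cases hp : p = q
    · subst hp
      rw [Finsupp.single_eq_same]
      omega
    · rw [Finsupp.single_eq_of_ne hp]
      have h3 := (hf p hp).resolve_left hf0
      omega
  have h3 := degree_nonneg X h2
  rw [map_sub, Finsupp.degree_single, h1] at h3
  omega

omit [Infinite K] in
/-- the normalised function has order zero -/
private theorem one_ord (h : X.RI g) {q : X.Pt} {f : F} (hf : f ∈ X.R q) (hf0 : f ≠ 0) :
    (((-(X.pl q).ord f).toNat : ℕ) : ℤ) = -(X.pl q).ord f ∧
      (X.pl q).ord (f * (X.pl q).tau ^ ((-(X.pl q).ord f).toNat)) = 0 := by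
  have h1 := R_neg X h hf hf0
  have h2 : (((-(X.pl q).ord f).toNat : ℕ) : ℤ) = -(X.pl q).ord f := Int.toNat_of_nonneg (by omega)
  refine ⟨h2, ?_⟩
  rw [(X.pl q).ord_mul hf0 (one_opow _ _).1, (one_opow _ _).2, h2]
  ring

open Classical in
/-- the pole order and the leading coefficient at `q` -/
noncomputable def Crv.one (h : X.RI g) (q : X.Pt) : GB.OnePt K (X.R q) where
  deg f := if (f : F) = 0 then 0 else (-(X.pl q).ord (f : F)).toNat
  lc f := (X.pl q).res ((f : F) * (X.pl q).tau ^ ((-(X.pl q).ord (f : F)).toNat))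
  deg_zero := by
    rw [if_pos (ZeroMemClass.coe_zero _)]
  lc_zero := by
    rw [ZeroMemClass.coe_zero, zero_mul, one_res_zero]
  lc_ne := by
    intro f hf
    have hf0 : (f : F) ≠ 0 := fun h0 => hf (Subtype.ext h0)
    obtain ⟨h1, h2⟩ := one_ord X h f.2 hf0
    intro h3
    rcases ((X.pl q).res_pos (Or.inr (le_of_eq h2.symm))).1 h3 with h4 | h4
    · exact (mul_ne_zero hf0 (one_opow _ _).1) h4
    · omega
  deg_mul := by
    intro f g hf hg
    have hf0 : (f : F) ≠ 0 := fun h0 => hf (Subtype.ext h0)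
    have hg0 : (g : F) ≠ 0 := fun h0 => hg (Subtype.ext h0)
    have h1 := R_neg X h f.2 hf0
    have h2 := R_neg X h g.2 hg0
    rw [if_neg hf0, if_neg hg0, if_neg (by rw [MulMemClass.coe_mul]; exact mul_ne_zero hf0 hg0), MulMemClass.coe_mul,
      (X.pl q).ord_mul hf0 hg0]
    omega
  lc_mul := by
    intro f g
    by_cases hf0 : (f : F) = 0
    · rw [MulMemClass.coe_mul, hf0, zero_mul, zero_mul, one_res_zero, zero_mul]
    by_cases hg0 : (g : F) = 0
    · rw [MulMemClass.coe_mul, hg0, mul_zero, zero_mul, one_res_zero, mul_zero]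
    obtain ⟨h1, h2⟩ := one_ord X h f.2 hf0
    obtain ⟨h3, h4⟩ := one_ord X h g.2 hg0
    have h5 : (-(X.pl q).ord ((f * g : X.R q) : F)).toNat = (-(X.pl q).ord (f : F)).toNat + (-(X.pl q).ord (g : F)).toNat := by
      rw [MulMemClass.coe_mul, (X.pl q).ord_mul hf0 hg0]
      omega
    rw [h5, ← (X.pl q).res_mul (Or.inr (le_of_eq h2.symm)) (Or.inr (le_of_eq h4.symm)), MulMemClass.coe_mul]
    congr 1
    ring
  deg_const := by
    intro c
    by_cases hc : c = 0
    · rw [hc, map_zero, if_pos (ZeroMemClass.coe_zero _)]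
    · have h1 : ((algebraMap K (X.R q) c : X.R q) : F) = algebraMap K F c := rfl
      rw [h1, (X.pl q).ord_const hc, neg_zero, Int.toNat_zero, ite_self]
  lc_const := by
    intro c
    have h1 : ((algebraMap K (X.R q) c : X.R q) : F) = algebraMap K F c := rfl
    rw [h1]
    by_cases hc : c = 0
    · rw [hc, map_zero, zero_mul, one_res_zero]
    · rw [(X.pl q).ord_const hc, neg_zero, Int.toNat_zero, pow_zero, mul_one, (X.pl q).res_const]
  deg_sub := by
    intro f g
    have hs : ((f - g : X.R q) : F) = (f : F) - (g : F) := rfl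
    rw [hs]
    by_cases h0 : (f : F) - (g : F) = 0
    · rw [if_pos h0]
      exact Nat.zero_le _
    rw [if_neg h0]
    by_cases hf0 : (f : F) = 0
    · rw [if_pos hf0]
      rw [hf0, zero_sub] at h0 ⊢
      have hg0 : (g : F) ≠ 0 := fun h1 => h0 (by rw [h1, neg_zero])
      rw [if_neg hg0, (X.pl q).ord_neg]
      exact le_max_right _ _
    by_cases hg0 : (g : F) = 0
    · rw [if_pos hg0, if_neg hf0, hg0, sub_zero]
      exact le_max_left _ _
    rw [if_neg hf0, if_neg hg0]
    have h1 : (f : F) + -(g : F) ≠ 0 := by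
      rw [← sub_eq_add_neg]
      exact h0
    have h2 := (X.pl q).ord_add hf0 (neg_ne_zero.2 hg0) h1
    rw [(X.pl q).ord_neg, ← sub_eq_add_neg] at h2
    rcases le_total ((X.pl q).ord (f : F)) ((X.pl q).ord (g : F)) with h3 | h3
    · rw [min_eq_left h3] at h2
      exact le_trans (Int.toNat_le_toNat (by omega)) (le_max_left _ _)
    · rw [min_eq_right h3] at h2
      exact le_trans (Int.toNat_le_toNat (by omega)) (le_max_right _ _)
  drop := by
    intro f g hdeg hlc hne
    have hs : ((f - g : X.R q) : F) = (f : F) - (g : F) := rfl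
    have h0 : (f : F) - (g : F) ≠ 0 := fun h0 => hne (Subtype.ext (sub_eq_zero.1 h0))
    have key : ∀ u : X.R q, (u : F) ≠ 0 →
        (X.pl q).res ((u : F) * (X.pl q).tau ^ ((-(X.pl q).ord (u : F)).toNat)) ≠ 0 := by
      intro u hu h3
      obtain ⟨h1, h2⟩ := one_ord X h u.2 hu
      rcases ((X.pl q).res_pos (Or.inr (le_of_eq h2.symm))).1 h3 with h4 | h4
      · exact (mul_ne_zero hu (one_opow _ _).1) h4
      · omega
    by_cases hf0 : (f : F) = 0
    · exfalso
      have hg0 : (g : F) ≠ 0 := fun h1 => h0 (by rw [hf0, h1, sub_zero])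
      apply key g hg0
      rw [← hlc, hf0, zero_mul, one_res_zero]
    by_cases hg0 : (g : F) = 0
    · exfalso
      apply key f hf0
      rw [hlc, hg0, zero_mul, one_res_zero]
    rw [if_neg hf0, if_neg hg0] at hdeg
    obtain ⟨h1, h2⟩ := one_ord X h f.2 hf0
    obtain ⟨h3, h4⟩ := one_ord X h g.2 hg0
    rw [← hdeg] at hlc h3 h4
    rw [hs, if_neg h0, if_neg hf0]
    have h5 : (X.pl q).res (((f : F) - (g : F)) * (X.pl q).tau ^ ((-(X.pl q).ord (f : F)).toNat)) = 0 := by
      have h6 : ((f : F) - (g : F)) * (X.pl q).tau ^ ((-(X.pl q).ord (f : F)).toNat) =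
          (f : F) * (X.pl q).tau ^ ((-(X.pl q).ord (f : F)).toNat) +
            -((g : F) * (X.pl q).tau ^ ((-(X.pl q).ord (f : F)).toNat)) := by ring
      rw [h6, (X.pl q).res_add (Or.inr (le_of_eq h2.symm)) (Or.inr (by rw [(X.pl q).ord_neg, h4])),
        one_res_neg _ (Or.inr (le_of_eq h4.symm)), hlc, add_neg_cancel]
    have h7 : ((f : F) - (g : F)) * (X.pl q).tau ^ ((-(X.pl q).ord (f : F)).toNat) ≠ 0 :=
      mul_ne_zero h0 (one_opow _ _).1
    have h8 : 0 ≤ (X.pl q).ord (((f : F) - (g : F)) * (X.pl q).tau ^ ((-(X.pl q).ord (f : F)).toNat)) := by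
      rw [(X.pl q).ord_mul h0 (one_opow _ _).1, (one_opow _ _).2, h1]
      have h9 : (f : F) + -(g : F) ≠ 0 := by
        rw [← sub_eq_add_neg]
        exact h0
      have h10 := (X.pl q).ord_add hf0 (neg_ne_zero.2 hg0) h9
      rw [(X.pl q).ord_neg, ← sub_eq_add_neg] at h10
      have h11 : (X.pl q).ord (g : F) = (X.pl q).ord (f : F) := by omega
      rw [h11, min_self] at h10
      omega
    have h9 := (((X.pl q).res_pos (Or.inr h8)).1 h5).resolve_left h7
    rw [(X.pl q).ord_mul h0 (one_opow _ _).1, (one_opow _ _).2] at h9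
    have h10 := R_neg X h (f - g).2 h0
    rw [hs] at h10
    omega
  big := by
    obtain ⟨c0, hc⟩ := sep X h
    refine ⟨c0.toNat, fun m hm => ?_⟩
    obtain ⟨x, hx, hx0, hxq⟩ := hc (Finsupp.single q (m : ℤ)) (by rw [Finsupp.degree_single]; omega) {q}
    have h1 := hxq q (Finset.mem_singleton_self q)
    rw [Finsupp.single_eq_same] at h1
    have h2 : x ∈ X.R q := by
      intro p hp
      have h3 := hx p
      rwa [Finsupp.single_eq_of_ne hp, neg_zero] at h3
    refine ⟨⟨x, h2⟩, fun h3 => hx0 (congrArg Subtype.val h3), ?_⟩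
    change (if x = 0 then 0 else (-(X.pl q).ord x).toNat) = m
    rw [if_neg hx0, h1, neg_neg, Int.toNat_natCast]

theorem one_deg (h : X.RI g) {q : X.Pt} {f : X.R q} (hf : f ≠ 0) : (((X.one h q).deg f : ℕ) : ℤ) = -(X.pl q).ord (f : F) := by
  classical
  have hf0 : (f : F) ≠ 0 := fun h0 => hf (Subtype.ext h0)
  change (((if (f : F) = 0 then 0 else (-(X.pl q).ord (f : F)).toNat) : ℕ) : ℤ) = _
  rw [if_neg hf0]
  exact (one_ord X h f.2 hf0).1

theorem one_lc (h : X.RI g) {q : X.Pt} {f : X.R q} (hf : f ≠ 0) :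
    (X.one h q).lc f = (X.pl q).res ((f : F) * (X.pl q).tau ^ ((X.one h q).deg f)) := by
  classical
  have hf0 : (f : F) ≠ 0 := fun h0 => hf (Subtype.ext h0)
  have h1 : (X.one h q).deg f = (-(X.pl q).ord (f : F)).toNat := by
    change (if (f : F) = 0 then 0 else (-(X.pl q).ord (f : F)).toNat) = _
    rw [if_neg hf0]
  rw [h1]
  rfl

end RR
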