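import Pool.Agent.H99.RR.Exa

/-! # RR.Sep : functions with prescribed orders (120 lines)

`exact`: `c0`.  For `D.degree ≥ c0 + 1` and every `p`: `finrank (L (D - single p 1)) < finrank (L D)`, so there is `x ∈ L D` which is not in `L (D - single p 1)`, i.e. `x ≠ 0` and `ord_p x = - D p` (`Ge (-(D p)) x` but not `Ge (-(D p) + 1) x`).
Finite sets `S`: induction.  Let `x` be good for `S`, `y` good for `p` (both in `L D`).  For `c : K` consider `x + c y`: for each `r ∈ insert p S` there is at most one `c` for which `x + c y ∈ L (D - single r 1)`: if `c ≠ c'` both are bad then `(c - c') y` and then `x` are in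
`L (D - single r 1)`, a contradiction for one of `x`, `y`... (for `r = p`: `y` is not in it; for `r ∈ S`: `x` is not in it).  `K` is infinite (`Infinite.exists_notMem_finset`). -/

namespace RR

open Module

variable {K F : Type} [Field K] [Infinite K] [Field F] [Algebra K F] (X : Crv K F) {g : ℕ}

omit [Infinite K] in
private theorem sep_bad {D : X.Pt →₀ ℤ} {p : X.Pt} {x : F} (hx : x ∈ X.L D) (hb : x ∉ X.L (D - Finsupp.single p 1)) :
    x ≠ 0 ∧ (X.pl p).ord x = -(D p) := by
  have hx0 : x ≠ 0 := by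
    rintro rfl
    exact hb (Submodule.zero_mem _)
  refine ⟨hx0, ?_⟩
  by_contra hne
  apply hb
  intro r
  by_cases hr : r = p
  · subst hr
    refine Or.inr ?_
    have h1 := (hx r).resolve_left hx0
    have h2 : (D - Finsupp.single r 1 : X.Pt →₀ ℤ) r = D r - 1 := by
      rw [Finsupp.sub_apply, Finsupp.single_eq_same]
    rw [h2]
    omega
  · have h2 : (D - Finsupp.single p 1 : X.Pt →₀ ℤ) r = D r := by
      rw [Finsupp.sub_apply, Finsupp.single_eq_of_ne hr, sub_zero]
    rw [h2]
    exact hx r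

omit [Infinite K] in
private theorem sep_line {M : Submodule K F} {x y : F} (h : ¬ (x ∈ M ∧ y ∈ M)) : {c : K | x + c • y ∈ M}.Subsingleton := by
  intro c hc c' hc'
  by_contra hne
  have h1 : (c - c') • y ∈ M := by
    have h2 := M.sub_mem hc hc'
    have h3 : x + c • y - (x + c' • y) = (c - c') • y := by
      rw [sub_smul]
      ring
    rwa [h3] at h2
  have hy : y ∈ M := (M.smul_mem_iff (sub_ne_zero.2 hne)).1 h1
  refine h ⟨?_, hy⟩
  have h2 := M.sub_mem hc (M.smul_mem c hy)
  rwa [add_sub_cancel_right] at h2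

private theorem sep_ind {D : X.Pt →₀ ℤ} (hD : ∀ p, ∃ x ∈ X.L D, x ∉ X.L (D - Finsupp.single p 1)) (S : Finset X.Pt) :
    ∃ x ∈ X.L D, ∀ p ∈ S, x ∉ X.L (D - Finsupp.single p 1) := by
  classical
  induction S using Finset.induction_on with
  | empty => exact ⟨0, Submodule.zero_mem _, fun p hp => absurd hp (Finset.notMem_empty p)⟩
  | insert p S _ ih =>
    obtain ⟨x, hx, hxS⟩ := ih
    obtain ⟨y, hy, hyp⟩ := hD p
    have hfin : (⋃ r ∈ insert p S, {c : K | x + c • y ∈ X.L (D - Finsupp.single r 1)}).Finite := by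
      refine Set.Finite.biUnion (Finset.finite_toSet _) fun r hr => ?_
      refine Set.Subsingleton.finite (sep_line ?_)
      rintro ⟨h1, h2⟩
      rcases Finset.mem_insert.1 hr with h3 | h3
      · subst h3
        exact hyp h2
      · exact hxS r h3 h1
    obtain ⟨c, hc⟩ := hfin.exists_notMem
    refine ⟨x + c • y, (X.L D).add_mem hx ((X.L D).smul_mem c hy), fun r hr h1 => hc ?_⟩
    exact Set.mem_biUnion hr h1

theorem sep (h : X.RI g) : ∃ c0 : ℤ, ∀ D : X.Pt →₀ ℤ, c0 ≤ D.degree → ∀ S : Finset X.Pt, ∃ x ∈ X.L D, x ≠ 0 ∧ ∀ p ∈ S, (X.pl p).ord x = -(D p) := by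
  classical
  obtain ⟨g', -, c0, hc⟩ := exact X h
  refine ⟨c0 + 1, fun D hD S => ?_⟩
  have hone : ∀ p, ∃ x ∈ X.L D, x ∉ X.L (D - Finsupp.single p 1) := by
    intro p
    by_contra hcon
    push Not at hcon
    have h1 : X.L (D - Finsupp.single p 1) = X.L D := by
      refine le_antisymm (L_mono X ?_) hcon
      exact sub_le_self _ (Finsupp.single_nonneg.2 zero_le_one)
    have h2 : (D - Finsupp.single p 1).degree = D.degree - 1 := by
      rw [map_sub, Finsupp.degree_single]
    have h3 := hc (D - Finsupp.single p 1) (by rw [h2]; omega)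
    have h4 := hc D (by omega)
    rw [h1, h2] at h3
    omega
  obtain ⟨p0⟩ := X.ne
  obtain ⟨x, hx, hxS⟩ := sep_ind X hone (insert p0 S)
  refine ⟨x, hx, (sep_bad X hx (hxS p0 (Finset.mem_insert_self _ _))).1, fun p hp => ?_⟩
  exact (sep_bad X hx (hxS p (Finset.mem_insert_of_mem hp))).2

end RR
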