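import Pool.Agent.H99.RR.YJd

/-! # RR.YAs : two forms (80 lines)

`jet` for `S = D.support`: `a` of a large degree `m'` with `ord_p a = D p` for `p ∈ S`, `a ≠ 0`.  `S' = S ∪ {p | a ∈ p.1}` (finite, `zero_fin`); `jet` for `S'`: `b` of a large degree `m` with `ord_p b = D p` for `p ∈ S'`, `b ≠ 0`.
Orders of `a`, `b` are `≥ 0` everywhere (`IsOrd.nonneg`).  `p ∈ S`: `ord a = D p`.  `p ∉ S`: `D p = 0`; if `a ∉ p.1` then `ord a = 0 = D p`; if `a ∈ p.1` then `ord b = D p = 0`.  `m`, `m'` so large that `hilb` holds in the degrees `m`, `m'`, `m + m'` and `J_dim` in degree `m + m'`. -/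

namespace RR

open Module

variable {K : Type} [Field K] [CharZero K] {s : ℕ} {v : Fin s → ℕ} {I : Set (MvPolynomial (Fin s) K)} {d g : ℕ} [hI : (Ideal.span I).IsPrime]

theorem exists_ab (h : SmC v I d g) (D : CPt v I →₀ ℕ) : ∃ m m' : ℕ, ∃ a ∈ frm v I m', ∃ b ∈ frm v I m, a ≠ 0 ∧ b ≠ 0 ∧
    (∀ p : CPt v I, (D p : ℤ) ≤ ordL h p.rep (io a)) ∧ (∀ p : CPt v I, (D p : ℤ) ≤ ordL h p.rep (io b)) ∧
    (∀ p : CPt v I, ordL h p.rep (io a) = D p ∨ ordL h p.rep (io b) = 0) ∧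
    finrank K (frm v I m) + g = m * d + 1 ∧ finrank K (frm v I m') + g = m' * d + 1 ∧
    finrank K (Jd h D (m + m')) + D.degree + g ≤ (m + m') * d + 1 := by
  classical
  obtain ⟨m0, hm0⟩ := jet h D.support D
  obtain ⟨N, hN⟩ := h.hilb
  obtain ⟨J0, hJ⟩ := J_dim h D
  obtain ⟨m', hm'⟩ : ∃ m' : ℕ, m' = max m0 (max N J0) := ⟨_, rfl⟩
  have g1 : m0 ≤ m' := by rw [hm']; exact le_max_left _ _
  have g2 : N ≤ m' := by rw [hm']; exact (le_max_left _ _).trans (le_max_right _ _)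
  have g3 : J0 ≤ m' := by rw [hm']; exact (le_max_right _ _).trans (le_max_right _ _)
  obtain ⟨a, ha, ha0, haD⟩ := hm0 m' g1
  obtain ⟨m1, hm1⟩ := jet h (D.support ∪ (zero_fin h ha0).toFinset) D
  obtain ⟨m, hm⟩ : ∃ m : ℕ, m = max m1 N := ⟨_, rfl⟩
  have g4 : m1 ≤ m := by rw [hm]; exact le_max_left _ _
  have g5 : N ≤ m := by rw [hm]; exact le_max_right _ _
  obtain ⟨b, hb, hb0, hbD⟩ := hm1 m g4
  refine ⟨m, m', a, ha, b, hb, ha0, hb0, ?_, ?_, ?_, hN m g5, hN m' g2, ?_⟩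
  · intro p
    by_cases hp : p ∈ D.support
    · rw [haD p hp]
    · rw [Finsupp.notMem_support_iff.1 hp, Nat.cast_zero]
      exact (isOrd h p.rep).nonneg a ha0
  · intro p
    by_cases hp : p ∈ D.support
    · rw [hbD p (Finset.mem_union_left _ hp)]
    · rw [Finsupp.notMem_support_iff.1 hp, Nat.cast_zero]
      exact (isOrd h p.rep).nonneg b hb0
  · intro p
    by_cases hp : p ∈ D.support
    · exact Or.inl (haD p hp)
    · by_cases hap : a ∈ p.1
      · right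
        rw [hbD p (Finset.mem_union_right _ ((zero_fin h ha0).mem_toFinset.2 hap)),
          Finsupp.notMem_support_iff.1 hp, Nat.cast_zero]
      · left
        rw [Finsupp.notMem_support_iff.1 hp, Nat.cast_zero]
        rw [p.rep_eq] at hap
        exact ((isOrd h p.rep).zero a ha0).2 hap
  · have h1 := hJ (m + m') (by omega)
    have h2 := hN (m + m') (by omega)
    omega

end RR
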