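import Pool.Agent.H99.RR.YGr

/-! # RR.YBig : forms of all large degrees which do not vanish at a point (120 lines)

Monomials in the `z_i` with `β_i ≠ 0`: their degrees are the numerical semigroup generated by the `v i`, `β_i ≠ 0`; the greatest common divisor is `1` (`stab`), so it contains all large integers (`Nat.exists_mem_closure_of_ge` or similar in `Mathlib/NumberTheory/FrobeniusNumber.lean`;
otherwise: the set of degrees is closed under addition, Bezout gives two consecutive elements `a`, `a + 1`, and then all `n ≥ a * a`). -/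

namespace RR

open Module

variable {K : Type} [Field K] {s : ℕ} {v : Fin s → ℕ} {I : Set (MvPolynomial (Fin s) K)} {d g : ℕ}

theorem big_form (h : SmC v I d g) (β : BPt I) : ∃ m0, ∀ m, m0 ≤ m → ∃ f ∈ frm v I m, evq β f = 1 := by
  classical
  obtain ⟨n, hn⟩ := Nat.exists_mem_closure_of_ge {m : ℕ | ∃ i, β.1 i ≠ 0 ∧ v i = m}
  refine ⟨n, fun m hm => ?_⟩
  have hg : Nat.setGcd {m : ℕ | ∃ i, β.1 i ≠ 0 ∧ v i = m} = 1 := by
    refine h.stab β _ fun i hi => Nat.setGcd_dvd_of_mem ⟨i, hi, rfl⟩
  have h1 := hn m hm (by rw [hg]; exact one_dvd m)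
  clear hm
  induction h1 using AddSubmonoid.closure_induction with
  | mem x hx =>
    obtain ⟨i, hi, rfl⟩ := hx
    refine ⟨(β.1 i)⁻¹ • Ideal.Quotient.mk (Ideal.span I) (MvPolynomial.X i), Submodule.smul_mem _ _ (frm_X i), ?_⟩
    have h2 : evq β (Ideal.Quotient.mk (Ideal.span I) (MvPolynomial.X i)) = β.1 i := MvPolynomial.aeval_X β.1 i
    rw [map_smul, h2, smul_eq_mul, inv_mul_cancel₀ hi]
  | zero => exact ⟨1, frm_one, map_one _⟩
  | add x y _ _ hx hy =>
    obtain ⟨f, hf, h2⟩ := hx
    obtain ⟨f', hf', h3⟩ := hy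
    exact ⟨f * f', frm_mul hf hf', by rw [map_mul, h2, h3, one_mul]⟩

/-- two different maximal forms of large degree: `M ≠ 0` -/
theorem mi_ne (h : SmC v I d g) (β : BPt I) : ∃ m, ∃ f ∈ frm v I m, f ≠ 0 ∧ evq β f = 0 := by
  obtain ⟨N, hN⟩ := h.hilb
  set m := N + g + 1 with hm
  have h1 := hN m (by omega)
  have hd : m ≤ m * d := Nat.le_mul_of_pos_right m h.dpos
  have hfd := frm_fd (I := I) h.vpos m
  let l : frm v I m →ₗ[K] K := (evq β : HR I →ₐ[K] K).toLinearMap ∘ₗ (frm v I m).subtype
  have h2 : 1 < finrank K (frm v I m) := by omega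
  have h3 : 0 < finrank K (LinearMap.ker l) := by
    have h4 := LinearMap.finrank_range_add_finrank_ker l
    have h5 : finrank K (LinearMap.range l) ≤ 1 := by
      have h6 := Submodule.finrank_le (LinearMap.range l)
      rwa [finrank_self] at h6
    omega
  obtain ⟨x, hx⟩ := (LinearMap.ker l).ne_bot_iff.1 (by
    intro h4
    rw [h4, finrank_bot] at h3
    exact absurd h3 (lt_irrefl 0))
  refine ⟨m, x, x.2, fun h4 => hx.2 (Subtype.ext h4), ?_⟩
  exact hx.1

end RR
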