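import Pool.Agent.H99.RR.YOrd

/-! # RR.YRep : functions which are regular at a point (60 lines)

`ff_rep`: `x = a / b`, `b ∉ M`, and `x = f / e'` with forms of the same degree; `f b = a e'`; take components (`frm_comp`): some component `b_j` of `b` is not in `M` (`b` is the sum of its components), `f * c j b = e' * c j a` (component of degree `m + j` of both sides), so
`x = c j a / c j b`, and `evq β (c j b) ≠ 0` (`mi_form`).  If `x = 0` take `0 / h`, `h = big_form`. -/

namespace RR

open Module

variable {K : Type} [Field K] [CharZero K] {s : ℕ} {v : Fin s → ℕ} {I : Set (MvPolynomial (Fin s) K)} {d g : ℕ} [hI : (Ideal.span I).IsPrime]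

theorem ff_rep (h : SmC v I d g) (β : BPt I) {x : QF I} (hx : x ∈ FF v I) (h0 : x = 0 ∨ 0 ≤ ordL h β x) :
    ∃ m, ∃ f ∈ frm v I m, ∃ e ∈ frm v I m, evq β e ≠ 0 ∧ x = io f / io e := by
  classical
  by_cases hx0 : x = 0
  · obtain ⟨m0, hm0⟩ := big_form h β
    obtain ⟨f, hf, hf1⟩ := hm0 m0 le_rfl
    refine ⟨m0, 0, Submodule.zero_mem _, f, hf, ?_, ?_⟩
    · rw [hf1]
      exact one_ne_zero
    · rw [hx0, map_zero, zero_div]
  · have hord : 0 ≤ ordL h β x := h0.resolve_left hx0
    obtain ⟨m, f, hf, e, he, hene, hxe⟩ := mem_FF.1 hx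
    obtain ⟨a, b, hb, hab⟩ := (isOrd h β).rep x hx0 hord
    have hb0 : b ≠ 0 := by
      rintro rfl
      exact hb (Ideal.zero_mem _)
    have hinj : Function.Injective (io : HR I →+* QF I) := IsFractionRing.injective (HR I) (QF I)
    have hbi : (io b : QF I) ≠ 0 := fun hh => hb0 (hinj (by rw [hh, map_zero]))
    have hei : (io e : QF I) ≠ 0 := fun hh => hene (hinj (by rw [hh, map_zero]))
    have hfb : f * b = e * a := by
      apply hinj
      rw [map_mul, map_mul]
      have h1 : (io f : QF I) / io e = io a / io b := by rw [← hxe, ← hab]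
      rw [div_eq_div_iff hei hbi] at h1
      rw [h1]
      ring
    obtain ⟨c, hc1, hc2, hc3, -, -⟩ := frm_comp (v := v) (I := I) h.hom
    obtain ⟨N, -, hN⟩ := hc2 b
    have hex : ∃ j, c j b ∉ Mi v I β := by
      by_contra hcon
      push Not at hcon
      apply hb
      rw [hN]
      exact Ideal.sum_mem _ (fun j _ => hcon j)
    obtain ⟨j, hj⟩ := hex
    have hev : evq β (c j b) ≠ 0 := fun hh => hj ((mi_form (hc1 j b)).2 hh)
    have hcb : c j b ≠ 0 := by
      intro hh
      rw [hh, map_zero] at hev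
      exact hev rfl
    have hcbi : (io (c j b) : QF I) ≠ 0 := fun hh => hcb (hinj (by rw [hh, map_zero]))
    have h2 : f * c j b = e * c j a := by
      rw [← hc3 m f hf b j, ← hc3 m e he a j, hfb]
    refine ⟨j, c j a, hc1 j a, c j b, hc1 j b, hev, ?_⟩
    rw [hxe, div_eq_div_iff hei hcbi]
    have h3 : (io (f * c j b) : QF I) = io (e * c j a) := by rw [h2]
    rw [map_mul, map_mul] at h3
    rw [h3]
    ring

end RR
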