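import Pool.Agent.H99.RR.YNS
import Pool.Agent.H99.RR.YRep

/-! # RR.YCst : functions without poles are constant; there are points (100 lines)

`reg_const`: `J = {b ∈ HR I | ∃ y : HR I, io b * x = io y}` is an ideal; for `β : BPt I` with ideal `p`, `x = f / e`, `evq β e ≠ 0`, `e ∈ J` (`ff_rep`; the hypothesis is about `p.rep` for `p = ⟨Mi v I β, β, rfl⟩`; `Mi p.rep = Mi β`, so `evq β e ≠ 0` also (`mi_form`)).
`ns`: all forms of large degree `m` are in `J`.  For such a form `b`: `io b * x = io y` with `y ∈ frm v I m`: `x = f / e` with forms of the same degree `n`; `e y = f b`; components (`frm_comp`): `e c_m(y) = f b = e y`, so `y = c_m(y)`.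
So `x` acts on the finite-dimensional space `frm v I m` (`frm_fd`), which is not zero (`hilb`, `dpos`); `K` is algebraically closed: it has an eigenvector `u` (`Module.End.exists_eigenvalue`), `x * io u = c * io u`, `x = c`.
`pt_ne`: if there are no points, `ns` for `J = ⊥` gives `frm v I m = ⊥` for large `m`, against `hilb`. -/

namespace RR

open Module

variable {K : Type} [Field K] [CharZero K] [IsAlgClosed K] {s : ℕ} {v : Fin s → ℕ} {I : Set (MvPolynomial (Fin s) K)} {d g : ℕ} [hI : (Ideal.span I).IsPrime]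

theorem pt_ne (h : SmC v I d g) : Nonempty (BPt I) := by
  by_contra hcon
  rw [not_nonempty_iff] at hcon
  obtain ⟨m0, hm0⟩ := ns h.vpos (I := I) (⊥ : Ideal (HR I)) (fun β => (hcon.false β).elim)
  obtain ⟨N, hN⟩ := h.hilb
  have h0 : ∀ m, m0 ≤ m → finrank K (frm v I m) = 0 := by
    intro m hm
    have h1 : frm v I m = ⊥ := by
      rw [Submodule.eq_bot_iff]
      intro f hf
      exact hm0 m hm f hf
    rw [h1, finrank_bot]
  have h1 := hN (max m0 N) (le_max_right _ _)
  have h2 := hN (max m0 N + 1) (by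
    have := le_max_right m0 N
    omega)
  rw [h0 _ (le_max_left _ _)] at h1
  rw [h0 _ (by
    have := le_max_left m0 N
    omega), add_mul] at h2
  have h3 := h.dpos
  omega

theorem reg_const (h : SmC v I d g) {x : QF I} (hx : x ∈ FF v I) (h0 : x = 0 ∨ ∀ p : CPt v I, 0 ≤ ordL h p.rep x) : ∃ c : K, x = algebraMap K (QF I) c := by
  have hinj : Function.Injective (io : HR I →+* QF I) := IsFractionRing.injective (HR I) (QF I)
  have hne : ∀ e : HR I, e ≠ 0 → (io e : QF I) ≠ 0 := fun e he hh => he (hinj (by rw [hh, map_zero]))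
  let J : Ideal (HR I) :=
    { carrier := {b | ∃ y : HR I, io b * x = io y}
      zero_mem' := ⟨0, by rw [map_zero, zero_mul]⟩
      add_mem' := by
        rintro b b' ⟨y, hy⟩ ⟨y', hy'⟩
        exact ⟨y + y', by rw [map_add, add_mul, hy, hy', map_add]⟩
      smul_mem' := by
        rintro c b ⟨y, hy⟩
        exact ⟨c * y, by rw [smul_eq_mul, map_mul, mul_assoc, hy, map_mul]⟩ }
  have hJ : ∀ β : BPt I, ∃ f ∈ J, evq β f ≠ 0 := by
    intro β
    let p : CPt v I := ⟨Mi v I β, β, rfl⟩
    obtain ⟨m, f, hf, e, he, hev, hxe⟩ := ff_rep h p.rep hx (h0.imp id fun h1 => h1 p)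
    refine ⟨e, ⟨f, ?_⟩, ?_⟩
    · have he0 : e ≠ 0 := by
        rintro rfl
        exact hev (map_zero _)
      rw [hxe, mul_div_cancel₀ _ (hne e he0)]
    · intro h2
      apply hev
      have h3 : e ∈ Mi v I β := (mi_form he).2 h2
      have h4 : Mi v I β = Mi v I p.rep := p.rep_eq
      rw [h4] at h3
      exact (mi_form he).1 h3
  obtain ⟨m0, hm0⟩ := ns h.vpos J hJ
  obtain ⟨N, hN⟩ := h.hilb
  obtain ⟨n, f, hf, e, he, he0, hxe⟩ := mem_FF.1 hx
  obtain ⟨c, hc1, -, hc3, -, hc5⟩ := frm_comp (v := v) (I := I) h.hom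
  set m := max m0 (max N g) with hm
  have hm1 : m0 ≤ m := le_max_left _ _
  have hm2 : N ≤ m := (le_max_left _ _).trans (le_max_right _ _)
  have hm3 : g ≤ m := (le_max_right _ _).trans (le_max_right _ _)
  have hfr : 0 < finrank K (frm v I m) := by
    have h1 := hN m hm2
    have h2 : m ≤ m * d := Nat.le_mul_of_pos_right m h.dpos
    omega
  have hmul : ∀ b ∈ frm v I m, ∃ y ∈ frm v I m, io b * x = io y := by
    intro b hb
    obtain ⟨y, hy⟩ := hm0 m hm1 b hb
    refine ⟨y, ?_, hy⟩
    have h1 : f * b = e * y := by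
      apply hinj
      rw [map_mul, map_mul, ← hy, hxe]
      have := hne e he0
      field_simp
    have h2 : e * c m y = e * y := by
      rw [← hc3 n e he y m, ← h1, hc3 n f hf b m, hc5 m b hb m, if_pos rfl]
    have h3 : c m y = y := mul_left_cancel₀ he0 h2
    rw [← h3]
    exact hc1 m y
  let ι : HR I →ₗ[K] QF I := (IsScalarTower.toAlgHom K (HR I) (QF I)).toLinearMap
  have hι : ∀ a, ι a = io a := fun a => rfl
  let W : Submodule K (QF I) := (frm v I m).map ι
  have hfd := frm_fd (I := I) h.vpos m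
  have hWfd : FiniteDimensional K W := inferInstanceAs (FiniteDimensional K ((frm v I m).map ι))
  have hWnt : Nontrivial W := by
    have h1 : Nontrivial (frm v I m) := Module.nontrivial_of_finrank_pos hfr
    obtain ⟨b, hb⟩ := exists_ne (0 : frm v I m)
    refine ⟨⟨⟨ι b.1, Submodule.mem_map_of_mem b.2⟩, 0, ?_⟩⟩
    intro h2
    apply hb
    have h3 : ι b.1 = 0 := congrArg Subtype.val h2
    rw [hι] at h3
    exact Subtype.ext (hinj (by rw [h3, ZeroMemClass.coe_zero, map_zero]))
  have hW : ∀ w ∈ W, LinearMap.mulLeft K x w ∈ W := by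
    rintro _ ⟨b, hb, rfl⟩
    obtain ⟨y, hy, hxy⟩ := hmul b hb
    refine ⟨y, hy, ?_⟩
    rw [LinearMap.mulLeft_apply, hι, hι, ← hxy, mul_comm]
  obtain ⟨lam, hlam⟩ := Module.End.exists_eigenvalue ((LinearMap.mulLeft K x).restrict hW)
  obtain ⟨w, hw⟩ := hlam.exists_hasEigenvector
  have h1 := congrArg Subtype.val hw.apply_eq_smul
  have h2 : x * w.1 = lam • w.1 := h1
  have h3 : w.1 ≠ 0 := fun hh => hw.2 (Subtype.ext hh)
  refine ⟨lam, ?_⟩
  rw [Algebra.smul_def] at h2
  exact mul_right_cancel₀ h3 h2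

end RR
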