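import Pool.Agent.H99.RR.YRep

/-! # RR.YZer : the ideals of the points have height one; finitely many zeros (120 lines)

`mi_max`: let `x ∈ q`, `x ≠ 0`, `ord = ordL h β`, `n = ord x ≥ 0`; `f` with `ord f = 1` (`f1`; `f ∈ Mi` by `zero`).  `x / f^n` has order `0`, so it is `a / b` with `b ∉ Mi` (`rep`), `ord a = ord b = 0`, `a ∉ Mi`; `x b = a f^n ∈ q`, `a ∉ q`, so `f ∈ q`.
For `y ∈ Mi`, `y ≠ 0`: `ord y ≥ 1`, `y / f` has order `≥ 0`, `y / f = a / b`, `b ∉ Mi`: `y b = a f ∈ q`, so `y ∈ q`.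
`zero_fin`: if `a ∈ p.1 = Mi p.rep` then `p.1` is a minimal prime over `(a)` (`mi_prime`, `mi_max`: a prime `q` with `a ∈ q ≤ p.1` is `p.1`); `HR I` is Noetherian: `Ideal.finite_minimalPrimes_of_isNoetherianRing`; `p ↦ p.1` is injective.
`mi_sep`: otherwise all generators of `Mi β` are in `Mi β'` (`mi_form`), `Mi β ≤ Mi β'`, `Mi β ≠ 0` (`mi_ne`), so they are equal by `mi_max`. -/

namespace RR

open Module

variable {K : Type} [Field K] [CharZero K] {s : ℕ} {v : Fin s → ℕ} {I : Set (MvPolynomial (Fin s) K)} {d g : ℕ} [hI : (Ideal.span I).IsPrime]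

private theorem yz_inj : Function.Injective (io : HR I →+* QF I) :=
  IsFractionRing.injective (HR I) (QF I)

private theorem yz_ne {a : HR I} (ha : a ≠ 0) : (io a : QF I) ≠ 0 :=
  fun hh => ha (yz_inj (by rw [hh, map_zero]))

private theorem yz_one {β : BPt I} {ord : QF I → ℤ} (H : IsOrd v I β ord) : ord 1 = 0 := by
  have h1 := H.mul 1 1 one_ne_zero one_ne_zero
  rw [mul_one] at h1
  omega

private theorem yz_pow {β : BPt I} {ord : QF I → ℤ} (H : IsOrd v I β ord) {x : QF I} (hx : x ≠ 0) (k : ℕ) :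
    ord (x ^ k) = k * ord x := by
  induction k with
  | zero => rw [pow_zero, yz_one H]; simp
  | succ k ih =>
    rw [pow_succ, H.mul _ _ (pow_ne_zero k hx) hx, ih]
    push_cast
    ring

/-- an element of the maximal ideal which is not zero has positive order -/
private theorem yz_pos {β : BPt I} {ord : QF I → ℤ} (H : IsOrd v I β ord) {a : HR I} (ha : a ≠ 0)
    (hM : a ∈ Mi v I β) : 1 ≤ ord (io a) := by
  have h1 := H.nonneg a ha
  have h2 : ord (io a) ≠ 0 := fun h => (H.zero a ha).1 h hM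
  omega

/-- `x / f^k` of order `≥ 0` -/
private theorem yz_div {β : BPt I} {ord : QF I → ℤ} (H : IsOrd v I β ord) {x f : HR I} (hx : x ≠ 0)
    (hf : f ≠ 0) (hf1 : ord (io f) = 1) (k : ℕ) (hk : (k : ℤ) ≤ ord (io x)) :
    ∃ a b : HR I, b ∉ Mi v I β ∧ a ≠ 0 ∧ ord (io a) = ord (io x) - k ∧ x * b = a * f ^ k := by
  have hx' := yz_ne hx
  have hf' := pow_ne_zero k (yz_ne hf)
  obtain ⟨y, hy⟩ : ∃ y : QF I, y = io x / io f ^ k := ⟨_, rfl⟩
  have hy0 : y ≠ 0 := by rw [hy]; exact div_ne_zero hx' hf'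
  have hyx : y * io f ^ k = io x := by rw [hy]; exact div_mul_cancel₀ _ hf'
  have hordy : ord y = ord (io x) - k := by
    have h1 := H.mul y (io f ^ k) hy0 hf'
    rw [hyx, yz_pow H (yz_ne hf), hf1] at h1
    omega
  obtain ⟨a, b, hb, hab⟩ := H.rep y hy0 (by omega)
  have hb0 : b ≠ 0 := by
    rintro rfl
    exact hb (Ideal.zero_mem _)
  have hb' := yz_ne hb0
  have hya : y * io b = io a := by rw [hab]; exact div_mul_cancel₀ _ hb'
  have ha0 : a ≠ 0 := by
    rintro rfl
    rw [map_zero] at hya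
    exact (mul_ne_zero hy0 hb') hya
  refine ⟨a, b, hb, ha0, ?_, ?_⟩
  · have h1 := H.mul y (io b) hy0 hb'
    rw [hya, (H.zero b hb0).2 hb, hordy] at h1
    omega
  · apply yz_inj
    rw [map_mul, map_mul, map_pow, ← hya, ← hyx]
    ring

theorem mi_max (h : SmC v I d g) (β : BPt I) {q : Ideal (HR I)} (hq : q.IsPrime) (h0 : q ≠ ⊥) (hle : q ≤ Mi v I β) : q = Mi v I β := by
  have H := isOrd h β
  obtain ⟨x, hxq, hx0⟩ := Submodule.exists_mem_ne_zero_of_ne_bot h0
  obtain ⟨m, f, hf, hf0, hf1⟩ := H.f1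
  have hfM : f ∈ Mi v I β := by
    by_contra hcon
    rw [(H.zero f hf0).2 hcon] at hf1
    omega
  have hfq : f ∈ q := by
    have hn := H.nonneg x hx0
    obtain ⟨a, b, hb, ha0, hoa, hxb⟩ := yz_div H hx0 hf0 hf1 (ordL h β (io x)).toNat (by omega)
    have haM : a ∉ Mi v I β := (H.zero a ha0).1 (by omega)
    have h1 : a * f ^ (ordL h β (io x)).toNat ∈ q := by
      rw [← hxb]
      exact q.mul_mem_right _ hxq
    rcases hq.mem_or_mem h1 with h2 | h2
    · exact absurd (hle h2) haM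
    · exact hq.mem_of_pow_mem _ h2
  apply le_antisymm hle
  intro y hy
  by_cases hy0 : y = 0
  · rw [hy0]
    exact q.zero_mem
  have hpos := yz_pos H hy0 hy
  obtain ⟨a, b, hb, ha0, hoa, hyb⟩ := yz_div H hy0 hf0 hf1 1 (by push_cast; omega)
  have h1 : y * b ∈ q := by
    rw [hyb, pow_one]
    exact q.mul_mem_left _ hfq
  rcases hq.mem_or_mem h1 with h2 | h2
  · exact h2
  · exact absurd (hle h2) hb

theorem zero_fin (h : SmC v I d g) {a : HR I} (ha : a ≠ 0) : {p : CPt v I | a ∈ p.1}.Finite := by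
  have hfin := Ideal.finite_minimalPrimes_of_isNoetherianRing (HR I) (Ideal.span {a})
  refine Set.Finite.of_finite_image (f := fun p : CPt v I => p.1) (hfin.subset ?_) ?_
  · rintro _ ⟨p, hp, rfl⟩
    have hprime : p.1.IsPrime := by
      rw [p.rep_eq]
      exact mi_prime h.hom _
    refine ⟨⟨hprime, ?_⟩, ?_⟩
    · rw [Ideal.span_singleton_le_iff_mem]
      exact hp
    · rintro q ⟨hq, haq⟩ hqp
      rw [Ideal.span_singleton_le_iff_mem] at haq
      have h1 : q = Mi v I p.rep := mi_max h p.rep hq (by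
        rintro rfl
        exact ha ((Submodule.mem_bot _).1 haq)) (by rw [← p.rep_eq]; exact hqp)
      change p.1 ≤ q
      rw [h1, ← p.rep_eq]
  · intro p _ p' _ hpp
    exact Subtype.ext hpp

theorem mi_sep (h : SmC v I d g) {β β' : BPt I} (hne : Mi v I β ≠ Mi v I β') : ∃ m, ∃ f ∈ frm v I m, evq β f = 0 ∧ evq β' f ≠ 0 := by
  by_contra hcon
  push Not at hcon
  apply hne
  apply mi_max h β' (mi_prime h.hom β)
  · intro hbot
    have H := isOrd h β
    obtain ⟨m, f, hf, hf0, hf1⟩ := H.f1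
    have hfM : f ∈ Mi v I β := by
      by_contra hc
      rw [(H.zero f hf0).2 hc] at hf1
      omega
    rw [hbot] at hfM
    exact hf0 ((Submodule.mem_bot _).1 hfM)
  · refine Ideal.span_le.2 ?_
    rintro a ⟨m, ha, ha0⟩
    exact Ideal.subset_span ⟨m, ha, hcon m a ha ha0⟩

end RR
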