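import Pool.Agent.H99.RR.YPt
import Pool.Agent.H99.RR.YZer
import Pool.Agent.H99.RR.YCst

/-! # RR.YCv : the curve (60 lines)

`cv_fin`: `x = f / e` (`mem_FF`), `f ≠ 0`, `e ≠ 0`; `ord_p x = ord_p f - ord_p e ≠ 0` implies that `f ∈ p.1` or `e ∈ p.1` (`plq_ord`, `IsOrd.mul`, `zero`, `p.rep_eq`); `zero_fin`. -/

namespace RR

open Module

variable {K : Type} [Field K] [CharZero K] [IsAlgClosed K] {s : ℕ} {v : Fin s → ℕ} {I : Set (MvPolynomial (Fin s) K)} {d g : ℕ} [hI : (Ideal.span I).IsPrime]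

theorem cv_fin (h : SmC v I d g) (x : FF v I) (hx : x ≠ 0) : {p : CPt v I | (plq h p.rep).ord x ≠ 0}.Finite := by
  have hinj : Function.Injective (io : HR I →+* QF I) := IsFractionRing.injective (HR I) (QF I)
  have hx0 : (x : QF I) ≠ 0 := fun hh => hx (Subtype.ext hh)
  obtain ⟨m, f, -, e, -, he0, hxe⟩ := mem_FF.1 x.2
  have hei : (io e : QF I) ≠ 0 := fun hh => he0 (hinj (by rw [hh, map_zero]))
  have hf0 : f ≠ 0 := by
    rintro rfl
    apply hx0
    rw [hxe, map_zero, zero_div]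
  refine ((zero_fin h hf0).union (zero_fin h he0)).subset fun p hp => ?_
  by_contra hcon
  rw [Set.mem_union, Set.mem_ofPred_eq, Set.mem_ofPred_eq, not_or] at hcon
  obtain ⟨hf, he⟩ := hcon
  rw [p.rep_eq] at hf he
  apply hp
  have h1 : (ordL h p.rep) (io f) = 0 := ((isOrd h p.rep).zero f hf0).2 hf
  have h2 : (ordL h p.rep) (io e) = 0 := ((isOrd h p.rep).zero e he0).2 he
  have h3 := (isOrd h p.rep).mul (x : QF I) (io e) hx0 hei
  have h4 : (x : QF I) * io e = io f := by
    rw [hxe, div_mul_cancel₀ _ hei]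
  rw [h4, h1, h2] at h3
  rw [plq_ord]
  omega

/-- the curve: the function field with its points -/
noncomputable abbrev crvA (h : SmC v I d g) : Crv K (FF v I) where
  Pt := CPt v I
  pl p := plq h p.rep
  fin := cv_fin h
  ne := (pt_ne h).map fun β => ⟨Mi v I β, β, rfl⟩

end RR
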