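import Mathlib

/-! # RR.YDv : the order function of a discrete valuation ring on its field of fractions (100 lines)

`D` a discrete valuation ring with field of fractions `L`.  Every `x ≠ 0` in `L` is `u ϖ^n` with a unit `u` and a unique `n : ℤ`.  For example `ord x = addVal a - addVal b` for `x = a / b` (`IsDiscreteValuationRing.addVal`), or `- WithZero.log` of the valuation
`(IsDiscreteValuationRing.maximalIdeal D).valuation L` (`IsDedekindDomain.HeightOneSpectrum.valuation`).  `0 ≤ ord x` iff `x ∈ D`: if `x = u ϖ^n` with `n < 0` were in `D` then `ϖ` would be a unit. -/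

namespace RR

open IsDedekindDomain WithZero in
theorem exists_ord (D L : Type) [CommRing D] [IsDomain D] [IsDiscreteValuationRing D] [Field L] [Algebra D L] [IsFractionRing D L] :
    ∃ ord : L → ℤ, (∀ x y, x ≠ 0 → y ≠ 0 → ord (x * y) = ord x + ord y) ∧
      (∀ x y, x ≠ 0 → y ≠ 0 → x + y ≠ 0 → min (ord x) (ord y) ≤ ord (x + y)) ∧
      (∀ x, x ≠ 0 → (0 ≤ ord x ↔ ∃ a : D, x = algebraMap D L a)) ∧
      (∀ a : D, a ≠ 0 → (ord (algebraMap D L a) = 0 ↔ IsUnit a)) ∧ ∀ ϖ : D, Irreducible ϖ → ord (algebraMap D L ϖ) = 1 := by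
  set P := IsDiscreteValuationRing.maximalIdeal D with hP
  set v := P.valuation L with hv
  have hne : ∀ x : L, x ≠ 0 → v x ≠ 0 := fun x hx => (Valuation.ne_zero_iff v).2 hx
  have hle : ∀ x : L, x ≠ 0 → (0 ≤ -(WithZero.log (v x)) ↔ v x ≤ 1) := by
    intro x hx
    have h1 := WithZero.log_le_log (hne x hx) (one_ne_zero (α := WithZero (Multiplicative ℤ)))
    rw [WithZero.log_one] at h1
    rw [← h1]
    omega
  have hmem : ∀ x : L, x ≠ 0 → (0 ≤ -(WithZero.log (v x)) ↔ ∃ a : D, x = algebraMap D L a) := by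
    intro x hx
    rw [hle x hx]
    constructor
    · intro h
      obtain ⟨a, ha⟩ := IsDiscreteValuationRing.exists_lift_of_le_one h
      exact ⟨a, ha.symm⟩
    · rintro ⟨a, rfl⟩
      exact P.valuation_le_one a
  refine ⟨fun x => -(WithZero.log (v x)), ?_, ?_, hmem, ?_, ?_⟩
  · intro x y hx hy
    show -(WithZero.log (v (x * y))) = -(WithZero.log (v x)) + -(WithZero.log (v y))
    rw [map_mul, WithZero.log_mul (hne x hx) (hne y hy)]
    ring
  · intro x y hx hy hxy
    show min (-(WithZero.log (v x))) (-(WithZero.log (v y))) ≤ -(WithZero.log (v (x + y)))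
    have h1 := v.map_add x y
    rcases le_max_iff.1 h1 with h2 | h2
    · have h3 := (WithZero.log_le_log (hne _ hxy) (hne x hx)).2 h2
      exact le_trans (min_le_left _ _) (neg_le_neg h3)
    · have h3 := (WithZero.log_le_log (hne _ hxy) (hne y hy)).2 h2
      exact le_trans (min_le_right _ _) (neg_le_neg h3)
  · intro a ha
    show -(WithZero.log (v (algebraMap D L a))) = 0 ↔ IsUnit a
    have ha' : algebraMap D L a ≠ 0 := by
      rw [Ne, IsFractionRing.to_map_eq_zero_iff]
      exact ha
    have h1 : v (algebraMap D L a) ≤ 1 := P.valuation_le_one a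
    have h2 : v (algebraMap D L a) < 1 ↔ a ∈ P.asIdeal := P.valuation_lt_one_iff_mem a
    have h3 := WithZero.log_lt_log (hne _ ha') (one_ne_zero (α := WithZero (Multiplicative ℤ)))
    rw [WithZero.log_one] at h3
    have h4 := (hle _ ha').2 h1
    have h5 : a ∈ P.asIdeal ↔ ¬ IsUnit a := IsLocalRing.mem_maximalIdeal a
    constructor
    · intro h
      by_contra hu
      have h6 := h3.2 (h2.2 (h5.2 hu))
      omega
    · intro hu
      have h6 : ¬ (v (algebraMap D L a) < 1) := fun h => (h5.1 (h2.1 h)) hu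
      rw [← h3] at h6
      omega
  · intro ϖ hϖ
    show -(WithZero.log (v (algebraMap D L ϖ))) = 1
    have h1 : P.asIdeal = Ideal.span {ϖ} := (IsDiscreteValuationRing.irreducible_iff_uniformizer ϖ).1 hϖ
    have h2 : v (algebraMap D L ϖ) = WithZero.exp (-1 : ℤ) := by
      rw [hv, P.valuation_of_algebraMap, P.intValuation_singleton hϖ.ne_zero h1]
    rw [h2, WithZero.log_exp]
    ring

end RR
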