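import Pool.Agent.H99.RR.YMpt
import Pool.Agent.H99.RR.YBig

/-! # RR.YPrp : the point is determined by its ideal up to scalars (60 lines)

`big_form` for `β`: forms `h0`, `h1` of degrees `m`, `m + 1` with value `1` at `β`; they are not in `Mi β = Mi β'`, so their values at `β'` are not zero (`mi_form`).  `c = h1(β') / h0(β')`.  For `z_i = mk (X i)` (degree `v i`, `frm_X`): the form
`z_i h0^(v i) - β_i h1^(v i)` of degree `(m + 1) v_i` vanishes at `β`, so it is in `Mi β'` and vanishes at `β'`: `β'_i h0(β')^(v i) = β_i h1(β')^(v i)`. -/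

namespace RR

open Module

variable {K : Type} [Field K] {s : ℕ} {v : Fin s → ℕ} {I : Set (MvPolynomial (Fin s) K)} {d g : ℕ}

private theorem evq_X (β : BPt I) (i : Fin s) : evq β (Ideal.Quotient.mk (Ideal.span I) (MvPolynomial.X i)) = β.1 i := by
  have h : evq β (Ideal.Quotient.mk (Ideal.span I) (MvPolynomial.X i)) = MvPolynomial.aeval β.1 (MvPolynomial.X i) := rfl
  rw [h, MvPolynomial.aeval_X]

theorem prop (h : SmC v I d g) {β β' : BPt I} (hb : Mi v I β = Mi v I β') : ∃ c : K, c ≠ 0 ∧ β'.1 = fun i => c ^ v i * β.1 i := by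
  obtain ⟨m, hm⟩ := big_form h β
  obtain ⟨h0, h0f, h0v⟩ := hm m le_rfl
  obtain ⟨h1, h1f, h1v⟩ := hm (m + 1) (Nat.le_succ m)
  have key : ∀ {k : ℕ} {f : HR I}, f ∈ frm v I k → (evq β f = 0 ↔ evq β' f = 0) := by
    intro k f hf
    rw [← mi_form hf, ← mi_form hf, hb]
  have h0' : evq β' h0 ≠ 0 := fun h2 => by
    have h3 := (key h0f).2 h2
    rw [h0v] at h3
    exact one_ne_zero h3
  have h1' : evq β' h1 ≠ 0 := fun h2 => by
    have h3 := (key h1f).2 h2
    rw [h1v] at h3
    exact one_ne_zero h3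
  refine ⟨evq β' h1 / evq β' h0, div_ne_zero h1' h0', ?_⟩
  funext i
  have hF1 : (Ideal.Quotient.mk (Ideal.span I) (MvPolynomial.X i) : HR I) * h0 ^ v i ∈ frm v I (v i * (m + 1)) := by
    have h2 := frm_mul (frm_X (v := v) (I := I) i) (frm_pow h0f (v i))
    rw [show v i + v i * m = v i * (m + 1) by ring] at h2
    exact h2
  have hF2 : β.1 i • h1 ^ v i ∈ frm v I (v i * (m + 1)) := (frm v I (v i * (m + 1))).smul_mem _ (frm_pow h1f (v i))
  have hF := (frm v I (v i * (m + 1))).sub_mem hF1 hF2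
  have h2 := (key hF).1 (by
    rw [map_sub, map_mul, map_pow, map_smul, map_pow, h0v, h1v, evq_X]
    simp)
  rw [map_sub, map_mul, map_pow, map_smul, map_pow, evq_X, smul_eq_mul, sub_eq_zero] at h2
  rw [div_pow, div_mul_eq_mul_div, eq_div_iff (pow_ne_zero _ h0'), h2, mul_comm]

end RR
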