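import Pool.Agent.H99.RR.YRho
import Pool.Agent.H99.RR.YPrp
import Pool.Agent.H99.RR.YCv
import Pool.Agent.H99.RR.Emb
import Pool.Agent.H34.ES.Spc

/-! # RR.YEmb : the coordinates (150 lines)

`ρ` from `exists_rho`.  `t i = z_i ρ^(v i)` (`z_i = mk (X i)`, `frm_X`).  `E p = - ord_p ρ`: finite support: for a form `f ≠ 0` of degree `m > 0` (`hilb`) `ord_p (f ρ^m) = ord_p f + m ord_p ρ`, both `ord_p f` (`zero_fin`) and `ord_p (f ρ^m)` (`cv_fin`) are zero for almost all `p`.
`w p` from `exists_rho` for `p.rep`.  `I`: for weighted homogeneous `q` of degree `m`: `aeval t q = io (mk q) ρ^m` in `QF` (check on monomials), and `mk f = 0` for `f ∈ I`.  `int`, `unit`: `w^(v i) t i = f' / e'` with `evq e' = 1`, `evq f' = β i`, `β = p.rep`; `plq_ord`; if `β i ≠ 0` then `f'`, `e'` have order `0`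
(`zero`, `mi_form`).  `plq_res`: `res (w^(v i) t i) = β i`.  `surj`: `β` gives a point `p = ⟨Mi v I β, β, rfl⟩`, `prop` for `p.rep` and `β` (`rep_eq`). -/

namespace RR

open Module

variable {K : Type} [Field K] [CharZero K] [IsAlgClosed K] {s : ℕ} {W : ES.Wm K s} {d g : ℕ} [hI : (Ideal.span W.I).IsPrime]

omit [CharZero K] [IsAlgClosed K] in
/-- the value of a weighted homogeneous polynomial at the coordinates -/
private theorem ye_ev {ρ : QF W.I} {t : Fin s → FF W.v W.I}
    (ht : ∀ i, ((t i : FF W.v W.I) : QF W.I) =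
      io (Ideal.Quotient.mk (Ideal.span W.I) (MvPolynomial.X i)) * ρ ^ W.v i)
    {q : MvPolynomial (Fin s) K} {m : ℕ} (hq : MvPolynomial.IsWeightedHomogeneous W.v q m) :
    ((MvPolynomial.aeval t q : FF W.v W.I) : QF W.I) = ρ ^ m * io (Ideal.Quotient.mk (Ideal.span W.I) q) := by
  have h1 : ((MvPolynomial.aeval t q : FF W.v W.I) : QF W.I) =
      MvPolynomial.aeval (fun i => ((t i : FF W.v W.I) : QF W.I)) q :=
    MvPolynomial.comp_aeval_apply t (FF W.v W.I).val q
  have h2 : (fun i => ((t i : FF W.v W.I) : QF W.I)) =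
      fun i => ρ ^ W.v i * io (Ideal.Quotient.mk (Ideal.span W.I) (MvPolynomial.X i)) := by
    funext i
    rw [ht i, mul_comm]
  have h3 := ES.ev_scale hq ρ (fun i => (io (Ideal.Quotient.mk (Ideal.span W.I) (MvPolynomial.X i)) : QF W.I))
  unfold ES.ev at h3
  rw [h1, h2, h3]
  congr 1
  have h4 : (MvPolynomial.aeval (fun i => (io (Ideal.Quotient.mk (Ideal.span W.I) (MvPolynomial.X i)) : QF W.I)) :
      MvPolynomial (Fin s) K →ₐ[K] QF W.I) =
      (IsScalarTower.toAlgHom K (HR W.I) (QF W.I)).comp (Ideal.Quotient.mkₐ K (Ideal.span W.I)) := by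
    apply MvPolynomial.algHom_ext
    intro i
    rw [MvPolynomial.aeval_X]
    rfl
  rw [h4]
  rfl

omit [CharZero K] [IsAlgClosed K] hI in
private theorem ye_X (β : BPt W.I) (i : Fin s) :
    evq β (Ideal.Quotient.mk (Ideal.span W.I) (MvPolynomial.X i)) = β.1 i := by
  have h : evq β (Ideal.Quotient.mk (Ideal.span W.I) (MvPolynomial.X i)) = MvPolynomial.aeval β.1 (MvPolynomial.X i) := rfl
  rw [h, MvPolynomial.aeval_X]

omit [IsAlgClosed K] in
private theorem ye_unit (h : SmC W.v W.I d g) (β : BPt W.I) {m : ℕ} {e : HR W.I} (he : e ∈ frm W.v W.I m)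
    (h0 : evq β e ≠ 0) : e ≠ 0 ∧ ordL h β (io e) = 0 := by
  have he0 : e ≠ 0 := by
    rintro rfl
    rw [map_zero] at h0
    exact h0 rfl
  refine ⟨he0, ?_⟩
  rw [(isOrd h β).zero e he0, mi_form he]
  exact h0

omit [CharZero K] [IsAlgClosed K] hI in
private theorem ye_form (h : SmC W.v W.I d g) : ∃ m, 0 < m ∧ ∃ f ∈ frm W.v W.I m, f ≠ 0 := by
  obtain ⟨N, hN⟩ := h.hilb
  refine ⟨N + g + 1, Nat.succ_pos _, ?_⟩
  have hfr : 0 < finrank K (frm W.v W.I (N + g + 1)) := by
    have h1 := hN (N + g + 1) (by omega)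
    have h2 : N + g + 1 ≤ (N + g + 1) * d := Nat.le_mul_of_pos_right _ h.dpos
    omega
  have h1 : Nontrivial (frm W.v W.I (N + g + 1)) := Module.nontrivial_of_finrank_pos hfr
  obtain ⟨b, hb⟩ := exists_ne (0 : frm W.v W.I (N + g + 1))
  exact ⟨b.1, b.2, fun h2 => hb (Subtype.ext h2)⟩

private theorem ye_fin (h : SmC W.v W.I d g) {ρ : QF W.I} (hρ0 : ρ ≠ 0)
    (hF : ∀ m, ∀ f ∈ frm W.v W.I m, io f * ρ ^ m ∈ FF W.v W.I) :
    {p : CPt W.v W.I | - ordL h p.rep ρ ≠ 0}.Finite := by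
  have hinj : Function.Injective (io : HR W.I →+* QF W.I) := IsFractionRing.injective (HR W.I) (QF W.I)
  obtain ⟨m, hm, f, hf, hf0⟩ := ye_form h
  have hfi : (io f : QF W.I) ≠ 0 := fun hh => hf0 (hinj (by rw [hh, map_zero]))
  have hx0 : (⟨io f * ρ ^ m, hF m f hf⟩ : FF W.v W.I) ≠ 0 := fun hh =>
    mul_ne_zero hfi (pow_ne_zero m hρ0) (congrArg Subtype.val hh)
  refine ((zero_fin h hf0).union (cv_fin h _ hx0)).subset fun p hp => ?_
  by_contra hcon
  rw [Set.mem_union, Set.mem_ofPred_eq, Set.mem_ofPred_eq, not_or, not_not, plq_ord, p.rep_eq] at hcon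
  obtain ⟨h1, h2⟩ := hcon
  apply hp
  have hpow : ∀ n : ℕ, ordL h p.rep (ρ ^ n) = n * ordL h p.rep ρ := by
    intro n
    induction n with
    | zero =>
      have h3 := (isOrd h p.rep).mul 1 1 one_ne_zero one_ne_zero
      rw [mul_one] at h3
      rw [pow_zero, Nat.cast_zero, zero_mul]
      omega
    | succ n ih =>
      rw [pow_succ, (isOrd h p.rep).mul _ _ (pow_ne_zero n hρ0) hρ0, ih]
      push_cast
      ring
  have h3 : ordL h p.rep (io f) = 0 := ((isOrd h p.rep).zero f hf0).2 h1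
  have h4 : ordL h p.rep (io f * ρ ^ m) = 0 := h2
  rw [(isOrd h p.rep).mul _ _ hfi (pow_ne_zero m hρ0), h3, hpow, zero_add] at h4
  have h5 : (m : ℤ) ≠ 0 := by exact_mod_cast hm.ne'
  rw [neg_eq_zero]
  exact (mul_eq_zero.1 h4).resolve_left h5

theorem exists_emb (h : SmC W.v W.I d g) : ∃ (ρ : QF W.I) (M : Emb (crvA h) W), ρ ≠ 0 ∧ (∀ m, ∀ f ∈ frm W.v W.I m, io f * ρ ^ m ∈ FF W.v W.I) ∧
    (∀ i, ((M.t i : FF W.v W.I) : QF W.I) = io (Ideal.Quotient.mk (Ideal.span W.I) (MvPolynomial.X i)) * ρ ^ W.v i) ∧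
    ∀ p : CPt W.v W.I, M.E p = - ordL h p.rep ρ := by
  have hinj : Function.Injective (io : HR W.I →+* QF W.I) := IsFractionRing.injective (HR W.I) (QF W.I)
  obtain ⟨ρ, hρ0, hF, hw⟩ := exists_rho h
  choose w hw0 hword hwf using hw
  let t : Fin s → FF W.v W.I := fun i => ⟨_, hF (W.v i) _ (frm_X i)⟩
  have ht : ∀ i, ((t i : FF W.v W.I) : QF W.I) =
      io (Ideal.Quotient.mk (Ideal.span W.I) (MvPolynomial.X i)) * ρ ^ W.v i := fun i => rfl
  -- the coordinates in the local frame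
  have hfr : ∀ (p : CPt W.v W.I) (i : Fin s), ∃ N, ∃ f' ∈ frm W.v W.I N, ∃ e' ∈ frm W.v W.I N,
      evq p.rep e' = 1 ∧ evq p.rep f' = p.rep.1 i ∧
      ((w p.rep ^ W.v i * t i : FF W.v W.I) : QF W.I) = io f' / io e' := by
    intro p i
    obtain ⟨N, f', hf', e', he', h1, h2, h3⟩ := hwf p.rep (W.v i) _ (frm_X i)
    exact ⟨N, f', hf', e', he', h1, h2.trans (ye_X _ _), h3⟩
  have hone : ∀ {β : BPt W.I} {e : HR W.I}, evq β e = 1 → evq β e ≠ 0 := fun he => by
    rw [he]
    exact one_ne_zero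
  have hres : ∀ (p : CPt W.v W.I) (i : Fin s), (plq h p.rep).res (w p.rep ^ W.v i * t i) = p.rep.1 i := by
    intro p i
    obtain ⟨N, f', hf', e', he', h1, h2, h3⟩ := hfr p i
    rw [plq_res h p.rep hf' he' (hone h1) h3, h1, h2, div_one]
  have hord : ∀ (p : CPt W.v W.I) (i : Fin s) (f' e' : HR W.I) (N : ℕ), e' ∈ frm W.v W.I N →
      evq p.rep e' = 1 → f' ≠ 0 → ((w p.rep ^ W.v i * t i : FF W.v W.I) : QF W.I) = io f' / io e' →
      (plq h p.rep).ord (w p.rep ^ W.v i * t i) = ordL h p.rep (io f') := by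
    intro p i f' e' N he' h1 hf0 h3
    obtain ⟨he0, heo⟩ := ye_unit h p.rep he' (hone h1)
    have hei : (io e' : QF W.I) ≠ 0 := fun hh => he0 (hinj (by rw [hh, map_zero]))
    have hfi : (io f' : QF W.I) ≠ 0 := fun hh => hf0 (hinj (by rw [hh, map_zero]))
    have h4 := (isOrd h p.rep).mul (io f' / io e') (io e') (div_ne_zero hfi hei) hei
    rw [div_mul_cancel₀ _ hei, heo, add_zero] at h4
    rw [plq_ord, h3, h4]
  let M : Emb (crvA h) W :=
    { t := t
      I := fun f hf => by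
        obtain ⟨m, -, hm⟩ := h.hom f hf
        have h1 := ye_ev ht hm
        rw [Ideal.Quotient.eq_zero_iff_mem.2 (Ideal.subset_span hf), map_zero, mul_zero] at h1
        exact Subtype.ext h1
      E := Finsupp.ofSupportFinite (fun p : CPt W.v W.I => - ordL h p.rep ρ) (ye_fin h hρ0 hF)
      w := fun p : CPt W.v W.I => w p.rep
      w_ne := fun p => hw0 _
      w_ord := fun p => by
        show (plq h (CPt.rep p)).ord (w (CPt.rep p)) = - ordL h (CPt.rep p) ρ
        rw [plq_ord]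
        exact hword _
      int := fun p i => by
        show (plq h (CPt.rep p)).Ge 0 (w (CPt.rep p) ^ W.v i * t i)
        obtain ⟨N, f', hf', e', he', h1, h2, h3⟩ := hfr p i
        by_cases hf0 : f' = 0
        · left
          apply Subtype.ext
          rw [h3, hf0, map_zero, zero_div]
          rfl
        · right
          rw [hord p i f' e' N he' h1 hf0 h3]
          exact (isOrd h (CPt.rep p)).nonneg f' hf0
      unit := fun p => by
        show ∃ i, t i ≠ 0 ∧ (plq h (CPt.rep p)).ord (w (CPt.rep p) ^ W.v i * t i) = 0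
        obtain ⟨i, hi⟩ := Function.ne_iff.1 (CPt.rep p).2.1
        rw [Pi.zero_apply] at hi
        obtain ⟨N, f', hf', e', he', h1, h2, h3⟩ := hfr p i
        rw [← h2] at hi
        obtain ⟨hf0, hfo⟩ := ye_unit h (CPt.rep p) hf' hi
        refine ⟨i, ?_, ?_⟩
        · intro ht0
          have he0 := (ye_unit h (CPt.rep p) he' (hone h1)).1
          have hei : (io e' : QF W.I) ≠ 0 := fun hh => he0 (hinj (by rw [hh, map_zero]))
          have hfi : (io f' : QF W.I) ≠ 0 := fun hh => hf0 (hinj (by rw [hh, map_zero]))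
          rw [ht0, mul_zero] at h3
          exact div_ne_zero hfi hei h3.symm
        · rw [hord p i f' e' N he' h1 hf0 h3]
          exact hfo
      surj := fun β hβ hβI => by
        let b : BPt W.I := ⟨β, hβ, fun f hf => by
          have h1 := hβI f hf
          unfold ES.ev at h1
          rw [← MvPolynomial.coe_aeval_eq_eval]
          exact h1⟩
        let p : CPt W.v W.I := ⟨Mi W.v W.I b, b, rfl⟩
        obtain ⟨c, hc, hcb⟩ := prop h (β := p.rep) (β' := b) (p.rep_eq.symm)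
        refine ⟨p, c, hc, ?_⟩
        show β = fun i => c ^ W.v i * (plq h (CPt.rep p)).res (w (CPt.rep p) ^ W.v i * t i)
        have h1 : β = fun i => c ^ W.v i * p.rep.1 i := hcb
        rw [h1]
        funext i
        rw [hres p i] }
  exact ⟨ρ, M, hρ0, hF, ht, fun p => rfl⟩

end RR
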