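import Pool.Agent.H99.RR.Lsp

/-! # RR.YFd : `L D` is finite-dimensional if the functions without poles are constant (50 lines)

Induction on the degree of `D ≥ 0`: `D = 0`: one-dimensional.  Otherwise `D p > 0` for some `p`; `L_step` for `D` and `p`: the kernel of `l : L D → K` is `L (D - single p 1)` (finite-dimensional by induction), the range is finite-dimensional; compare the private lemmas `ker_eq`, `fd_up` in `Lsp.lean`. -/

namespace RR

open Module

variable {K F : Type} [Field K] [Field F] [Algebra K F]

theorem L_fd0 (X : Crv K F) (hc : ∀ x ∈ X.L 0, ∃ c : K, x = algebraMap K F c) {D : X.Pt →₀ ℤ} (hD : 0 ≤ D) : FiniteDimensional K (X.L D) := by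
  classical
  have key : ∀ n : ℕ, ∀ D : X.Pt →₀ ℤ, 0 ≤ D → D.degree = n → FiniteDimensional K (X.L D) := by
    intro n
    induction n with
    | zero =>
      intro D hD hn
      have h0 : D = 0 := by
        ext p
        have h1 : ∀ q, 0 ≤ D q := fun q => hD q
        have h2 : D p ≤ D.degree := by
          rw [Finsupp.degree_apply]
          by_cases hp : p ∈ D.support
          · exact Finset.single_le_sum (f := fun q => D q) (fun q _ => h1 q) hp
          · rw [Finsupp.notMem_support_iff.1 hp]
            exact Finset.sum_nonneg fun q _ => h1 q
        have h3 := h1 p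
        rw [hn] at h2
        simp only [Finsupp.coe_zero, Pi.zero_apply]
        exact le_antisymm (by exact_mod_cast h2) h3
      subst h0
      let l : K →ₗ[K] F := Algebra.linearMap K F
      have h1 : X.L 0 ≤ LinearMap.range l := by
        intro x hx
        obtain ⟨c, rfl⟩ := hc x hx
        exact ⟨c, rfl⟩
      exact Submodule.finiteDimensional_of_le h1
    | succ n ih =>
      intro D hD hn
      have hex : ∃ p, 0 < D p := by
        by_contra hcon
        push Not at hcon
        have h1 : D.degree ≤ 0 := by
          rw [Finsupp.degree_apply]
          exact Finset.sum_nonpos fun q _ => hcon q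
        rw [hn] at h1
        push_cast at h1
        omega
      obtain ⟨p, hp⟩ := hex
      obtain ⟨l, hl⟩ := L_step X D p
      have hD' : 0 ≤ D - Finsupp.single p 1 := by
        intro q
        have h1 : 0 ≤ D q := hD q
        rw [Finsupp.sub_apply, Finsupp.single_apply]
        simp only [Finsupp.coe_zero, Pi.zero_apply]
        split_ifs with h
        · subst h; omega
        · omega
      have h1 := ih (D - Finsupp.single p 1) hD' (by
        rw [map_sub, Finsupp.degree_single, hn]
        push_cast
        ring)
      have hker : FiniteDimensional K (LinearMap.ker l) := by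
        let f : LinearMap.ker l →ₗ[K] X.L (D - Finsupp.single p 1) :=
          { toFun := fun x => ⟨((x : X.L D) : F), (hl x.1).1 x.2⟩
            map_add' := fun x y => rfl
            map_smul' := fun c x => rfl }
        refine FiniteDimensional.of_injective f fun x y hxy => ?_
        have h2 : ((f x : X.L (D - Finsupp.single p 1)) : F) = ((f y : X.L (D - Finsupp.single p 1)) : F) := by rw [hxy]
        exact Subtype.ext (Subtype.ext h2)
      have h2 : FiniteDimensional K (LinearMap.range l) := inferInstance
      have h3 : (⊤ : Submodule K (X.L D)).FG := by
        apply Submodule.fg_of_fg_map_of_fg_inf_ker l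
        · rw [← LinearMap.range_eq_map]
          exact (Submodule.fg_top _).1 h2.fg_top
        · rw [top_inf_eq]
          exact (Submodule.fg_top _).1 hker.fg_top
      exact ⟨h3⟩
  obtain ⟨n, hn⟩ := Int.eq_ofNat_of_zero_le (show 0 ≤ D.degree by
    rw [Finsupp.degree_apply]
    exact Finset.sum_nonneg fun q _ => hD q)
  exact key n D hD hn

end RR
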