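import Pool.Agent.H99.RR.YGr

/-! # RR.YFld : the field of homogeneous fractions of degree `0` (80 lines)

`f / h + f' / h' = (f h' + f' h) / (h h')`, etc. (`frm_mul`; `h h' ≠ 0`: domain, `io` is injective).  Inverse: `f = 0` or `h / f`.  Constants: degree `0`, `c • 1`, `h = 1`. -/

namespace RR

open Module MvPolynomial

variable {K : Type} [Field K] {s : ℕ} (v : Fin s → ℕ) (I : Set (MvPolynomial (Fin s) K)) [hI : (Ideal.span I).IsPrime]

/-- the field of homogeneous fractions of degree `0` -/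
noncomputable def FF : IntermediateField K (QF I) where
  carrier := {x | ∃ m, ∃ f ∈ frm v I m, ∃ h ∈ frm v I m, h ≠ 0 ∧ x = io f / io h}
  mul_mem' := by
    rintro _ _ ⟨m, f, hf, h, hh, h0, rfl⟩ ⟨m', f', hf', h', hh', h0', rfl⟩
    exact ⟨m + m', f * f', frm_mul hf hf', h * h', frm_mul hh hh', mul_ne_zero h0 h0', by
      rw [map_mul, map_mul, div_mul_div_comm]⟩
  one_mem' := ⟨0, 1, frm_one, 1, frm_one, one_ne_zero, by rw [map_one, div_one]⟩
  add_mem' := by
    rintro _ _ ⟨m, f, hf, h, hh, h0, rfl⟩ ⟨m', f', hf', h', hh', h0', rfl⟩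
    have hinj : Function.Injective (io : HR I →+* QF I) := IsFractionRing.injective (HR I) (QF I)
    have e1 : (io h : QF I) ≠ 0 := fun e => h0 (hinj (by rw [e, map_zero]))
    have e2 : (io h' : QF I) ≠ 0 := fun e => h0' (hinj (by rw [e, map_zero]))
    exact ⟨m + m', f * h' + h * f', (frm v I (m + m')).add_mem (frm_mul hf hh') (frm_mul hh hf'), h * h',
      frm_mul hh hh', mul_ne_zero h0 h0', by rw [map_add, map_mul, map_mul, map_mul, div_add_div _ _ e1 e2]⟩
  zero_mem' := ⟨0, 0, (frm v I 0).zero_mem, 1, frm_one, one_ne_zero, by rw [map_zero, zero_div]⟩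
  algebraMap_mem' := by
    intro c
    refine ⟨0, algebraMap K (HR I) c, ?_, 1, frm_one, one_ne_zero, ?_⟩
    · rw [Algebra.algebraMap_eq_smul_one]
      exact (frm v I 0).smul_mem c frm_one
    · rw [map_one, div_one]
      exact IsScalarTower.algebraMap_apply K (HR I) (QF I) c
  inv_mem' := by
    rintro _ ⟨m, f, hf, h, hh, h0, rfl⟩
    by_cases hf0 : f = 0
    · refine ⟨0, 0, (frm v I 0).zero_mem, 1, frm_one, one_ne_zero, ?_⟩
      rw [hf0, map_zero, zero_div, zero_div, inv_zero]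
    · exact ⟨m, h, hh, f, hf, hf0, by rw [inv_div]⟩

variable {v I}

theorem mem_FF {x : QF I} : x ∈ FF v I ↔ ∃ m, ∃ f ∈ frm v I m, ∃ h ∈ frm v I m, h ≠ 0 ∧ x = io f / io h := Iff.rfl

end RR
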