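import Pool.Agent.H99.RR.YDef

/-! # RR.YGr : forms (150 lines)

`frm_mul`: `IsWeightedHomogeneous.mul`.  `frm_fd`: there are only finitely many monomials of weighted degree `m` (`v i > 0`: `Finsupp.weight`, e.g. all exponents are `≤ m`; the weighted homogeneous submodule is spanned by them; `MvPolynomial.restrictDegree`-like, or
`weightedHomogeneousSubmodule_eq_finsupp_supported` and `Finsupp.supported` of a finite set), the image is finite-dimensional.
`frm_comp`: the algebra homomorphism `Φ : HR I → (HR I)[X]`, `z_i ↦ z_i X^(v i)` (lift of `aeval`; a weighted homogeneous `f` of degree `m` goes to `f X^m`, so `I` is killed; `Ideal.Quotient.liftₐ`); `c m a = (Φ a).coeff m`.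
`c m a` is a form: for `a = mk p` it is `mk` of the weighted homogeneous component of `p`.  `a = Σ c m a`: evaluate `Φ a` at `X = 1`.  `Φ (f a) = f X^m Φ a` for a form `f` of degree `m`. -/

namespace RR

open Module MvPolynomial

variable {K : Type} [Field K] {s : ℕ} {v : Fin s → ℕ} {I : Set (MvPolynomial (Fin s) K)}

theorem frm_mul {m n : ℕ} {a b : HR I} (ha : a ∈ frm v I m) (hb : b ∈ frm v I n) : a * b ∈ frm v I (m + n) := by
  obtain ⟨p, hp, rfl⟩ := ha
  obtain ⟨q, hq, rfl⟩ := hb
  have hp2 : IsWeightedHomogeneous v p m := hp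
  have hq2 : IsWeightedHomogeneous v q n := hq
  exact ⟨p * q, hp2.mul hq2, by simp⟩

theorem frm_one : (1 : HR I) ∈ frm v I 0 :=
  ⟨1, isWeightedHomogeneous_one K v, by simp⟩

theorem frm_pow {m : ℕ} {a : HR I} (ha : a ∈ frm v I m) (n : ℕ) : a ^ n ∈ frm v I (n * m) := by
  induction n with
  | zero =>
    rw [pow_zero, zero_mul]
    exact frm_one
  | succ n ih =>
    rw [pow_succ, Nat.succ_mul]
    exact frm_mul ih ha

theorem frm_X (i : Fin s) : (Ideal.Quotient.mk (Ideal.span I) (X i) : HR I) ∈ frm v I (v i) :=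
  ⟨X i, isWeightedHomogeneous_X K v i, rfl⟩

theorem frm_fd (hv : ∀ i, 0 < v i) (m : ℕ) : FiniteDimensional K (frm v I m) := by
  have h1 : (weightedHomogeneousSubmodule K v m).FG :=
    weightedHomogeneousSubmodule_fg K v (fun i => (hv i).ne') m
  have h2 : (frm v I m).FG := h1.map _
  exact Module.Finite.iff_fg.2 h2

/-- the substitution `z_i ↦ z_i X^(v i)` -/
private noncomputable def psi (v : Fin s → ℕ) (I : Set (MvPolynomial (Fin s) K)) :
    MvPolynomial (Fin s) K →ₐ[K] Polynomial (HR I) :=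
  aeval fun i => Polynomial.C (Ideal.Quotient.mk (Ideal.span I) (X i)) * Polynomial.X ^ v i

private theorem pw {R : Type} [CommRing R] (a : R) (k n : ℕ) :
    (Polynomial.C a * Polynomial.X ^ k) ^ n = Polynomial.C (a ^ n) * Polynomial.X ^ (n * k) := by
  rw [mul_pow, ← Polynomial.C_pow, ← pow_mul, mul_comm k]

private theorem psi_mon (d : Fin s →₀ ℕ) (c : K) :
    psi v I (monomial d c) = Polynomial.C (Ideal.Quotient.mk (Ideal.span I) (monomial d c)) * Polynomial.X ^ (Finsupp.weight v d) := by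
  have h1 : (monomial d c : MvPolynomial (Fin s) K) = C c * ∏ i, X i ^ d i := by
    rw [monomial_eq, Finsupp.prod_fintype _ _ (fun i => pow_zero _)]
  have h2 : Finsupp.weight v d = ∑ i, d i * v i := by
    rw [Finsupp.weight_apply, Finsupp.sum_fintype _ _ (fun i => by simp)]
    simp
  have h3 : psi v I (C c) = Polynomial.C (Ideal.Quotient.mk (Ideal.span I) (C c)) := by
    rw [psi, aeval_C]
    rfl
  have h4 : ∀ i, psi v I (X i) = Polynomial.C (Ideal.Quotient.mk (Ideal.span I) (X i)) * Polynomial.X ^ v i := fun i => by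
    rw [psi, aeval_X]
  rw [h1, h2, map_mul, map_prod, h3, map_mul, map_prod, map_mul, map_prod, mul_assoc]
  congr 1
  have h5 : ∀ t : Finset (Fin s), (Polynomial.X : Polynomial (HR I)) ^ (∑ i ∈ t, d i * v i) = ∏ i ∈ t, Polynomial.X ^ (d i * v i) := by
    intro t
    induction t using Finset.cons_induction with
    | empty => rw [Finset.sum_empty, Finset.prod_empty, pow_zero]
    | cons a t ha ih => rw [Finset.sum_cons, Finset.prod_cons, pow_add, ih]
  rw [h5, ← Finset.prod_mul_distrib]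
  refine Finset.prod_congr rfl fun i _ => ?_
  rw [map_pow, h4, map_pow]
  exact pw _ _ _

private theorem psi_hom {m : ℕ} {p : MvPolynomial (Fin s) K} (hp : IsWeightedHomogeneous v p m) :
    psi v I p = Polynomial.C (Ideal.Quotient.mk (Ideal.span I) p) * Polynomial.X ^ m := by
  conv_lhs => rw [p.as_sum]
  conv_rhs => rw [p.as_sum]
  rw [map_sum, map_sum, map_sum, Finset.sum_mul]
  refine Finset.sum_congr rfl fun d hd => ?_
  rw [psi_mon, hp (mem_support_iff.1 hd)]

private theorem psi_coeff (p : MvPolynomial (Fin s) K) (m : ℕ) : (psi v I p).coeff m ∈ frm v I m := by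
  rw [p.as_sum, map_sum, Polynomial.finsetSum_coeff]
  refine Submodule.sum_mem _ fun d _ => ?_
  rw [psi_mon, Polynomial.coeff_C_mul_X_pow]
  split_ifs with h
  · exact ⟨monomial d _, isWeightedHomogeneous_monomial v d _ h.symm, rfl⟩
  · exact zero_mem _

private theorem psi_zero (hom : ∀ f ∈ I, ∃ m, 0 < m ∧ IsWeightedHomogeneous v f m) (a : MvPolynomial (Fin s) K)
    (ha : a ∈ Ideal.span I) : psi v I a = 0 := by
  have h1 : Ideal.span I ≤ RingHom.ker (psi v I) := by
    refine Ideal.span_le.2 fun f hf => ?_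
    obtain ⟨m, _, hm⟩ := hom f hf
    have h2 : Ideal.Quotient.mk (Ideal.span I) f = 0 := Ideal.Quotient.eq_zero_iff_mem.2 (Ideal.subset_span hf)
    have h3 : psi v I f = 0 := by
      rw [psi_hom hm, h2, map_zero, zero_mul]
    exact h3
  exact h1 ha

/-- the substitution on the quotient -/
private noncomputable def Psi (v : Fin s → ℕ) (I : Set (MvPolynomial (Fin s) K))
    (hom : ∀ f ∈ I, ∃ m, 0 < m ∧ IsWeightedHomogeneous v f m) : HR I →ₐ[K] Polynomial (HR I) :=
  Ideal.Quotient.liftₐ (Ideal.span I) (psi v I) (psi_zero hom)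

private theorem Psi_mk (hom : ∀ f ∈ I, ∃ m, 0 < m ∧ IsWeightedHomogeneous v f m) (p : MvPolynomial (Fin s) K) :
    Psi v I hom (Ideal.Quotient.mk (Ideal.span I) p) = psi v I p := rfl

private theorem Psi_frm (hom : ∀ f ∈ I, ∃ m, 0 < m ∧ IsWeightedHomogeneous v f m) {m : ℕ} {f : HR I} (hf : f ∈ frm v I m) :
    Psi v I hom f = Polynomial.C f * Polynomial.X ^ m := by
  obtain ⟨p, hp, rfl⟩ := hf
  exact psi_hom hp

private theorem Psi_one (hom : ∀ f ∈ I, ∃ m, 0 < m ∧ IsWeightedHomogeneous v f m) (a : HR I) :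
    (Psi v I hom a).eval 1 = a := by
  obtain ⟨p, rfl⟩ := Ideal.Quotient.mk_surjective a
  rw [Psi_mk]
  conv_rhs => rw [p.as_sum]
  conv_lhs => rw [p.as_sum]
  rw [map_sum, map_sum, Polynomial.eval_finsetSum]
  refine Finset.sum_congr rfl fun d _ => ?_
  rw [psi_mon, Polynomial.eval_mul, Polynomial.eval_C, Polynomial.eval_pow, Polynomial.eval_X, one_pow, mul_one]

theorem frm_comp (hom : ∀ f ∈ I, ∃ m, 0 < m ∧ IsWeightedHomogeneous v f m) : ∃ c : ℕ → (HR I →ₗ[K] HR I),
    (∀ m a, c m a ∈ frm v I m) ∧ (∀ a, ∃ N, (∀ j, N ≤ j → c j a = 0) ∧ a = ∑ m ∈ Finset.range N, c m a) ∧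
    (∀ m, ∀ f ∈ frm v I m, ∀ a j, c (m + j) (f * a) = f * c j a) ∧ (∀ m, ∀ f ∈ frm v I m, ∀ a j, j < m → c j (f * a) = 0) ∧
    ∀ m, ∀ f ∈ frm v I m, ∀ j, c j f = if j = m then f else 0 := by
  refine ⟨fun m => (Polynomial.lcoeff (HR I) m).restrictScalars K ∘ₗ (Psi v I hom).toLinearMap, ?_, ?_, ?_, ?_, ?_⟩
  · intro m a
    obtain ⟨p, rfl⟩ := Ideal.Quotient.mk_surjective a
    exact psi_coeff p m
  · intro a
    refine ⟨(Psi v I hom a).natDegree + 1, fun j hj => ?_, ?_⟩
    · have h0 : (Psi v I hom a).coeff j = 0 := Polynomial.coeff_eq_zero_of_natDegree_lt (by omega)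
      exact h0
    have h1 := Psi_one hom a
    rw [Polynomial.eval_eq_sum_range] at h1
    simp only [one_pow, mul_one] at h1
    exact h1.symm
  · intro m f hf a j
    have h1 : (Psi v I hom (f * a)).coeff (m + j) = f * (Psi v I hom a).coeff j := by
      rw [map_mul, Psi_frm hom hf, mul_assoc, Polynomial.coeff_C_mul, add_comm m j, Polynomial.coeff_X_pow_mul]
    exact h1
  · intro m f hf a j hj
    have h1 : (Psi v I hom (f * a)).coeff j = 0 := by
      rw [map_mul, Psi_frm hom hf, mul_assoc, Polynomial.coeff_C_mul, Polynomial.coeff_X_pow_mul', if_neg (by omega), mul_zero]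
    exact h1
  · intro m f hf j
    have h1 : (Psi v I hom f).coeff j = if j = m then f else 0 := by
      rw [Psi_frm hom hf, Polynomial.coeff_C_mul_X_pow]
    exact h1

end RR
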