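import Pool.Agent.H99.RR.YJet

/-! # RR.YJd : vanishing conditions are independent in large degree (120 lines)

`Jd h D m`: the forms of degree `m` whose orders are at least `D` (`add_mem'`, `smul_mem'`: `IsOrd.add`, `IsOrd.mul`; constants are units).
`J_dim`: induction on `D` (`Finsupp.induction_linear`, or on `D.degree`, or `Finsupp.induction`): for `D = D' + single p 1` with support in `S = D.support`: `jet` gives a form `a` of degree `m` with orders exactly `D'` on `S`, so `a ∈ Jd D' m`, `a ∉ Jd D m`; `Jd D m ≤ Jd D' m` (strictly), so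
`finrank (Jd D m) + 1 ≤ finrank (Jd D' m)` (`Submodule.finrank_lt_finrank_of_lt`, finite-dimensional by `frm_fd`). -/

namespace RR

open Module

variable {K : Type} [Field K] [CharZero K] {s : ℕ} {v : Fin s → ℕ} {I : Set (MvPolynomial (Fin s) K)} {d g : ℕ} [hI : (Ideal.span I).IsPrime]

omit [CharZero K] hI in
private theorem io_ne {a : HR I} (ha : a ≠ 0) : (io a : QF I) ≠ 0 := fun hh =>
  ha (IsFractionRing.injective (HR I) (QF I) (by rw [hh, map_zero]))

/-- the forms of degree `m` with orders at least `D` -/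
noncomputable def Jd (h : SmC v I d g) (D : CPt v I →₀ ℕ) (m : ℕ) : Submodule K (HR I) where
  carrier := {a | a ∈ frm v I m ∧ (a = 0 ∨ ∀ p, (D p : ℤ) ≤ ordL h p.rep (io a))}
  zero_mem' := ⟨(frm v I m).zero_mem, Or.inl rfl⟩
  add_mem' := by
    rintro a b ⟨ha, ha1⟩ ⟨hb, hb1⟩
    refine ⟨(frm v I m).add_mem ha hb, ?_⟩
    by_cases h0 : a + b = 0
    · exact Or.inl h0
    by_cases ha0 : a = 0
    · rw [ha0, zero_add]
      exact hb1
    by_cases hb0 : b = 0
    · rw [hb0, add_zero]
      exact ha1
    refine Or.inr fun p => ?_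
    have h1 := (isOrd h p.rep).add (io a) (io b) (io_ne ha0) (io_ne hb0) (by rw [← map_add]; exact io_ne h0)
    rw [map_add]
    exact le_trans (le_min ((ha1.resolve_left ha0) p) ((hb1.resolve_left hb0) p)) h1
  smul_mem' := by
    rintro c a ⟨ha, ha1⟩
    refine ⟨(frm v I m).smul_mem c ha, ?_⟩
    by_cases h0 : c • a = 0
    · exact Or.inl h0
    refine Or.inr fun p => ?_
    have ha0 : a ≠ 0 := fun hh => h0 (by rw [hh, smul_zero])
    have hc0 : algebraMap K (HR I) c ≠ 0 := fun hh => h0 ((Algebra.smul_def c a).trans (by rw [hh, zero_mul]))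
    refine (congrArg (fun z => (D p : ℤ) ≤ ordL h p.rep (io z)) (Algebra.smul_def c a)).mpr ?_
    rw [map_mul, (isOrd h p.rep).mul _ _ (io_ne hc0) (io_ne ha0)]
    have h1 := (isOrd h p.rep).nonneg _ hc0
    have h2 := (ha1.resolve_left ha0) p
    omega

theorem mem_Jd {h : SmC v I d g} {D : CPt v I →₀ ℕ} {m : ℕ} {a : HR I} : a ∈ Jd h D m ↔ a ∈ frm v I m ∧ (a = 0 ∨ ∀ p, (D p : ℤ) ≤ ordL h p.rep (io a)) := Iff.rfl

private theorem Jd_le {h : SmC v I d g} (D : CPt v I →₀ ℕ) (m : ℕ) : Jd h D m ≤ frm v I m := fun _ ha => ha.1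

theorem J_dim (h : SmC v I d g) (D : CPt v I →₀ ℕ) : ∃ m0, ∀ m, m0 ≤ m → finrank K (Jd h D m) + D.degree ≤ finrank K (frm v I m) := by
  classical
  have hfd : ∀ m, FiniteDimensional K (frm v I m) := fun m => frm_fd h.vpos m
  have main : ∀ n : ℕ, ∀ D : CPt v I →₀ ℕ, D.degree = n →
      ∃ m0, ∀ m, m0 ≤ m → finrank K (Jd h D m) + D.degree ≤ finrank K (frm v I m) := by
    intro n
    induction n with
    | zero =>
      intro D hD
      refine ⟨0, fun m _ => ?_⟩
      have := hfd m
      rw [hD, add_zero]
      exact Submodule.finrank_mono (Jd_le D m)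
    | succ n ih =>
      intro D hD
      have hex : ∃ p, D p ≠ 0 := by
        by_contra hcon
        push Not at hcon
        have h1 : D = 0 := Finsupp.ext hcon
        rw [h1] at hD
        simp at hD
      obtain ⟨p, hp⟩ := hex
      have hle : Finsupp.single p 1 ≤ D := Finsupp.single_le_iff.2 (Nat.one_le_iff_ne_zero.2 hp)
      set D' := D - Finsupp.single p 1 with hD'
      have hDD : D' + Finsupp.single p 1 = D := tsub_add_cancel_of_le hle
      have hdeg : D'.degree = n := by
        have h1 := congrArg Finsupp.degree hDD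
        rw [map_add, Finsupp.degree_single, hD] at h1
        omega
      have hval : ∀ q, D q = D' q + (Finsupp.single p 1 : CPt v I →₀ ℕ) q := fun q => by
        rw [← Finsupp.add_apply, hDD]
      obtain ⟨m1, hm1⟩ := ih D' hdeg
      obtain ⟨m2, hm2⟩ := jet h D.support (fun q => D' q)
      refine ⟨max m1 m2, fun m hm => ?_⟩
      have hfm := hfd m
      obtain ⟨a, ha, ha0, hord⟩ := hm2 m (le_trans (le_max_right _ _) hm)
      have h3 := hm1 m (le_trans (le_max_left _ _) hm)
      have haD' : a ∈ Jd h D' m := by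
        refine ⟨ha, Or.inr fun q => ?_⟩
        by_cases hq : q ∈ D.support
        · rw [hord q hq]
        · have h4 : D q = 0 := Finsupp.notMem_support_iff.1 hq
          have h5 : D' q = 0 := by
            have := hval q
            omega
          rw [h5]
          exact_mod_cast (isOrd h q.rep).nonneg a ha0
      have haD : a ∉ Jd h D m := by
        rintro ⟨-, h6⟩
        have h7 := (h6.resolve_left ha0) p
        rw [hord p (Finsupp.mem_support_iff.2 hp), hval p, Finsupp.single_eq_same] at h7
        push_cast at h7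
        omega
      have hlt : Jd h D m < Jd h D' m := by
        refine lt_of_le_of_ne ?_ (fun hh => haD (hh ▸ haD'))
        rintro b ⟨hb, hb1⟩
        refine ⟨hb, hb1.imp id fun h8 q => le_trans ?_ (h8 q)⟩
        have := hval q
        omega
      have hf' : FiniteDimensional K (Jd h D' m) := Submodule.finiteDimensional_of_le (Jd_le D' m)
      have h9 := Submodule.finrank_lt_finrank_of_lt hlt
      rw [hD]
      rw [hdeg] at h3
      omega
  exact main _ D rfl

end RR
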