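import Pool.Agent.H99.RR.YZer

/-! # RR.YJet : forms with prescribed orders at finitely many points (150 lines)

`exists_mu`: for every `p' ∈ S`, `p' ≠ p`, there is a form `f_p'` with `f_p'(p') = 0`, `f_p'(p) ≠ 0` (`mi_sep`; `p.rep` and `rep_eq`: different points have different ideals); `f = (∏ f_p')^N` (`frm_mul`, `frm_pow`; an induction over `S`): `ord_p' f ≥ N` (`ord_p' f_p' ≥ 1` by `zero`, the others `≥ 0`).
`jet`: let `N = 1 + Σ_{p ∈ S} D p`.  For `p ∈ S`: `f_p` a form with `ord_p f_p = 1` (`f1`), `μ_p` from `exists_mu`, `k_p` a form of degree `m - (degree of f_p^(D p) μ_p)` with value `1` at `p` (`big_form`, `m` large).  `a = Σ_{p ∈ S} f_p^(D p) μ_p k_p`: the term of `p` has order exactly `D p` at `p`,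
the other terms have order `≥ N > D p` at `p`, so `ord_p a = D p` and `a ≠ 0` (the order of `x + y` is `ord x` if `ord x < ord y`).  If `S` is empty: there is a nonzero form of degree `m` for large `m` (`hilb`, `dpos`). -/

namespace RR

open Module

variable {K : Type} [Field K] [CharZero K] {s : ℕ} {v : Fin s → ℕ} {I : Set (MvPolynomial (Fin s) K)} {d g : ℕ} [hI : (Ideal.span I).IsPrime]

private theorem io_ne {a : HR I} (ha : a ≠ 0) : (io a : QF I) ≠ 0 := by
  intro h0
  have hinj : Function.Injective (io : HR I →+* QF I) := IsFractionRing.injective (HR I) (QF I)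
  exact ha (hinj (by rw [h0, map_zero]))

private theorem o_one {β : BPt I} {o : QF I → ℤ} (O : IsOrd v I β o) : o 1 = 0 := by
  have h := O.mul 1 1 one_ne_zero one_ne_zero
  rw [mul_one] at h
  omega

private theorem o_neg {β : BPt I} {o : QF I → ℤ} (O : IsOrd v I β o) {x : QF I} (hx : x ≠ 0) : o (-x) = o x := by
  have h1 := O.mul (-1) (-1) (neg_ne_zero.2 one_ne_zero) (neg_ne_zero.2 one_ne_zero)
  rw [neg_mul_neg, one_mul, o_one O] at h1
  have h2 := O.mul (-1) x (neg_ne_zero.2 one_ne_zero) hx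
  rw [neg_one_mul] at h2
  omega

private theorem o_pow {β : BPt I} {o : QF I → ℤ} (O : IsOrd v I β o) {x : QF I} (hx : x ≠ 0) (n : ℕ) : o (x ^ n) = n * o x := by
  induction n with
  | zero => rw [pow_zero, o_one O]; simp
  | succ n ih => rw [pow_succ, O.mul _ _ (pow_ne_zero n hx) hx, ih]; push_cast; ring

private theorem o_unit {β : BPt I} {o : QF I → ℤ} (O : IsOrd v I β o) {m : ℕ} {f : HR I} (hf : f ∈ frm v I m)
    (h0 : evq β f ≠ 0) : o (io f) = 0 := by
  have hf0 : f ≠ 0 := by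
    rintro rfl
    exact h0 (map_zero _)
  exact (O.zero f hf0).2 fun h1 => h0 ((mi_form hf).1 h1)

private theorem ne_of_ev {β : BPt I} {f : HR I} (h0 : evq β f ≠ 0) : f ≠ 0 := by
  rintro rfl
  exact h0 (map_zero _)

private theorem o_sum {β : BPt I} {o : QF I → ℤ} (O : IsOrd v I β o) {ι : Type} (S : Finset ι) (x : ι → QF I) (n : ℤ)
    (hx : ∀ i ∈ S, x i = 0 ∨ n ≤ o (x i)) : ∑ i ∈ S, x i = 0 ∨ n ≤ o (∑ i ∈ S, x i) := by
  classical
  induction S using Finset.induction_on with
  | empty => left; simp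
  | insert i S hi ih =>
    rw [Finset.sum_insert hi]
    have h1 := hx i (Finset.mem_insert_self i S)
    have h2 := ih fun j hj => hx j (Finset.mem_insert_of_mem hj)
    by_cases ha : x i = 0
    · rw [ha, zero_add]
      exact h2
    by_cases hb : ∑ j ∈ S, x j = 0
    · rw [hb, add_zero]
      exact h1
    by_cases hab : x i + ∑ j ∈ S, x j = 0
    · exact Or.inl hab
    · exact Or.inr (le_trans (le_min (h1.resolve_left ha) (h2.resolve_left hb)) (O.add _ _ ha hb hab))

theorem exists_mu (h : SmC v I d g) (S : Finset (CPt v I)) (p : CPt v I) (N : ℕ) : ∃ m, ∃ f ∈ frm v I m, evq p.rep f ≠ 0 ∧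
    ∀ p' ∈ S, p' ≠ p → (N : ℤ) ≤ ordL h p'.rep (io f) := by
  classical
  induction S using Finset.induction_on with
  | empty =>
    refine ⟨0, 1, frm_one, ?_, fun p' hp' => absurd hp' (Finset.notMem_empty p')⟩
    rw [map_one]
    exact one_ne_zero
  | insert q S hq ih =>
    obtain ⟨m, f, hf, hf1, hf2⟩ := ih
    by_cases hqp : q = p
    · refine ⟨m, f, hf, hf1, fun p' hp' hne => ?_⟩
      rcases Finset.mem_insert.1 hp' with h1 | h1
      · exact absurd (h1.trans hqp) hne
      · exact hf2 p' h1 hne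
    · have hMi : Mi v I q.rep ≠ Mi v I p.rep := by
        intro h1
        rw [← q.rep_eq, ← p.rep_eq] at h1
        exact hqp (Subtype.ext h1)
      obtain ⟨m', f', hf', hz, hnz⟩ := mi_sep h hMi
      have hf0 : f ≠ 0 := ne_of_ev hf1
      have hf0' : f' ≠ 0 := ne_of_ev hnz
      refine ⟨m + N * m', f * f' ^ N, frm_mul hf (frm_pow hf' N), ?_, fun p' hp' hne => ?_⟩
      · rw [map_mul, map_pow]
        exact mul_ne_zero hf1 (pow_ne_zero N hnz)
      · have O := isOrd h p'.rep
        rw [map_mul, map_pow, O.mul _ _ (io_ne hf0) (pow_ne_zero N (io_ne hf0')), o_pow O (io_ne hf0')]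
        rcases Finset.mem_insert.1 hp' with h1 | h1
        · have h2 : (0 : ℤ) ≤ ordL h p'.rep (io f) := O.nonneg f hf0
          have h3 : (0 : ℤ) ≤ ordL h p'.rep (io f') := O.nonneg f' hf0'
          have h4 : ordL h p'.rep (io f') ≠ 0 := by
            intro h5
            have h6 := (O.zero f' hf0').1 h5
            rw [h1] at h6
            exact h6 ((mi_form hf').2 hz)
          have h5 : (N : ℤ) * 1 ≤ (N : ℤ) * ordL h p'.rep (io f') :=
            mul_le_mul_of_nonneg_left (by omega) (by omega)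
          omega
        · have h2 := hf2 p' h1 hne
          have h3 : (0 : ℤ) ≤ ordL h p'.rep (io f') := O.nonneg f' hf0'
          have h5 : (0 : ℤ) ≤ (N : ℤ) * ordL h p'.rep (io f') := mul_nonneg (by omega) h3
          omega

private theorem jet1 (h : SmC v I d g) (S : Finset (CPt v I)) (p : CPt v I) (n N : ℕ) : ∃ m0, ∀ m, m0 ≤ m → ∃ a ∈ frm v I m, a ≠ 0 ∧
    ordL h p.rep (io a) = n ∧ ∀ p' ∈ S, p' ≠ p → (N : ℤ) ≤ ordL h p'.rep (io a) := by
  have O := isOrd h p.rep
  obtain ⟨m1, f1, hf1, hf10, hf11⟩ := O.f1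
  obtain ⟨m2, μ, hμ, hμ0, hμ1⟩ := exists_mu h S p N
  obtain ⟨m3, hm3⟩ := big_form h p.rep
  refine ⟨n * m1 + m2 + m3, fun m hm => ?_⟩
  obtain ⟨k, hk, hk1⟩ := hm3 (m - (n * m1 + m2)) (by omega)
  have hk0 : evq p.rep k ≠ 0 := by
    rw [hk1]
    exact one_ne_zero
  have hkn : k ≠ 0 := ne_of_ev hk0
  have hμn : μ ≠ 0 := ne_of_ev hμ0
  have hfr : f1 ^ n * μ * k ∈ frm v I m := by
    have h1 := frm_mul (frm_mul (frm_pow hf1 n) hμ) hk
    have h2 : n * m1 + m2 + (m - (n * m1 + m2)) = m := by omega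
    rw [h2] at h1
    exact h1
  have hne : f1 ^ n * μ * k ≠ 0 := mul_ne_zero (mul_ne_zero (pow_ne_zero n hf10) hμn) hkn
  have hord : ∀ q : CPt v I, ordL h q.rep (io (f1 ^ n * μ * k)) =
      n * ordL h q.rep (io f1) + ordL h q.rep (io μ) + ordL h q.rep (io k) := by
    intro q
    have Oq := isOrd h q.rep
    rw [map_mul, map_mul, map_pow, Oq.mul _ _ (mul_ne_zero (pow_ne_zero n (io_ne hf10)) (io_ne hμn)) (io_ne hkn),
      Oq.mul _ _ (pow_ne_zero n (io_ne hf10)) (io_ne hμn), o_pow Oq (io_ne hf10)]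
  refine ⟨f1 ^ n * μ * k, hfr, hne, ?_, fun p' hp' hpp => ?_⟩
  · rw [hord p, hf11, o_unit O hμ hμ0, o_unit O hk hk0]
    ring
  · have O' := isOrd h p'.rep
    have h1 := hμ1 p' hp' hpp
    have h2 : (0 : ℤ) ≤ ordL h p'.rep (io f1) := O'.nonneg f1 hf10
    have h3 : (0 : ℤ) ≤ ordL h p'.rep (io k) := O'.nonneg k hkn
    have h4 : (0 : ℤ) ≤ (n : ℤ) * ordL h p'.rep (io f1) := mul_nonneg (by omega) h2
    rw [hord p']
    omega

theorem jet (h : SmC v I d g) (S : Finset (CPt v I)) (D : CPt v I → ℕ) : ∃ m0, ∀ m, m0 ≤ m → ∃ a ∈ frm v I m, a ≠ 0 ∧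
    ∀ p ∈ S, ordL h p.rep (io a) = D p := by
  classical
  rcases S.eq_empty_or_nonempty with hS | hS
  · obtain ⟨N, hN⟩ := h.hilb
    refine ⟨max N g, fun m hm => ?_⟩
    have h1 := hN m (le_trans (le_max_left _ _) hm)
    have h2 : g ≤ m := le_trans (le_max_right _ _) hm
    have h3 : m * 1 ≤ m * d := Nat.mul_le_mul_left m h.dpos
    have h4 : frm v I m ≠ ⊥ := by
      intro h5
      rw [h5, finrank_bot] at h1
      omega
    obtain ⟨a, ha, ha0⟩ := Submodule.exists_mem_ne_zero_of_ne_bot h4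
    refine ⟨a, ha, ha0, fun p hp => ?_⟩
    rw [hS] at hp
    exact absurd hp (Finset.notMem_empty p)
  · let N : ℕ := 1 + ∑ q ∈ S, D q
    have hDN : ∀ p ∈ S, D p < N := by
      intro p hp
      have h1 : D p ≤ ∑ q ∈ S, D q := Finset.single_le_sum (f := D) (fun _ _ => Nat.zero_le _) hp
      omega
    choose m0 hm0 using fun p : CPt v I => jet1 h S p (D p) N
    refine ⟨S.sup m0, fun m hm => ?_⟩
    have hm' : ∀ p : CPt v I, p ∈ S → m0 p ≤ m := fun p hp => (Finset.le_sup hp).trans hm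
    have hex : ∀ p : CPt v I, ∃ a : HR I, p ∈ S → a ∈ frm v I m ∧ a ≠ 0 ∧ ordL h p.rep (io a) = (D p : ℕ) ∧
        ∀ p' ∈ S, p' ≠ p → (N : ℤ) ≤ ordL h p'.rep (io a) := by
      intro p
      by_cases hp : p ∈ S
      · obtain ⟨a, ha⟩ := hm0 p m (hm' p hp)
        exact ⟨a, fun _ => ha⟩
      · exact ⟨0, fun h1 => absurd h1 hp⟩
    choose a ha using hex
    have key : ∀ p ∈ S, ∑ q ∈ S, a q ≠ 0 ∧ ordL h p.rep (io (∑ q ∈ S, a q)) = D p := by
      intro p hp
      have O := isOrd h p.rep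
      obtain ⟨h1, h2, h3, h4⟩ := ha p hp
      have h5 : ∑ q ∈ S, a q = a p + ∑ q ∈ S.erase p, a q := (Finset.add_sum_erase S a hp).symm
      have h6 : (io (∑ q ∈ S.erase p, a q) : QF I) = ∑ q ∈ S.erase p, io (a q) := map_sum _ _ _
      have h7 := o_sum O (S.erase p) (fun q => (io (a q) : QF I)) N (by
        intro q hq
        obtain ⟨hqp, hqS⟩ := Finset.mem_erase.1 hq
        exact Or.inr ((ha q hqS).2.2.2 p hp (Ne.symm hqp)))
      have h8 := hDN p hp
      rw [← h6] at h7
      have h9 : (io (a p) : QF I) ≠ 0 := io_ne h2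
      by_cases hr : (io (∑ q ∈ S.erase p, a q) : QF I) = 0
      · have h10 : ∑ q ∈ S.erase p, a q = 0 := by
          by_contra h11
          exact io_ne h11 hr
        rw [h5, h10, add_zero]
        exact ⟨h2, h3⟩
      · have h10 := h7.resolve_left hr
        have h11 : (io (∑ q ∈ S, a q) : QF I) = io (a p) + io (∑ q ∈ S.erase p, a q) := by
          rw [h5, map_add]
        have h12 : (io (∑ q ∈ S, a q) : QF I) ≠ 0 := by
          intro h13
          rw [h11] at h13
          have h14 : (io (∑ q ∈ S.erase p, a q) : QF I) = -io (a p) := (neg_eq_of_add_eq_zero_right h13).symm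
          rw [h14, o_neg O h9, h3] at h10
          omega
        have h13 : ∑ q ∈ S, a q ≠ 0 := by
          intro h14
          exact h12 (by rw [h14, map_zero])
        refine ⟨h13, ?_⟩
        have h14 := O.add (io (a p)) (io (∑ q ∈ S.erase p, a q)) h9 hr (by rw [← h11]; exact h12)
        rw [← h11] at h14
        have h15 : (io (a p) : QF I) = io (∑ q ∈ S, a q) + -io (∑ q ∈ S.erase p, a q) := by
          rw [h11]
          ring
        have h16 := O.add (io (∑ q ∈ S, a q)) (-io (∑ q ∈ S.erase p, a q)) h12 (neg_ne_zero.2 hr) (by rw [← h15]; exact h9)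
        rw [← h15, o_neg O hr, h3] at h16
        rw [h3] at h14
        omega
    obtain ⟨p0, hp0⟩ := hS
    exact ⟨∑ q ∈ S, a q, Submodule.sum_mem _ (fun q hq => (ha q hq).1), (key p0 hp0).1, fun p hp => (key p hp).2⟩

end RR
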