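import Pool.Agent.H99.RR.YGr

/-! # RR.YMpt : the ideals of the points (120 lines)

`mi_form`: all generators of `Mi` vanish at `β`.  `mi_prime`: `Mi v I β` is the kernel of the homomorphism `linq : HR I → K[X]`, `z_i ↦ β_i X^(v i)` (a form `f` of degree `m` goes to `f(β) X^m`; so `I` is killed): with `frm_comp`, `linq a = Σ (c m a)(β) X^m`, and if this is `0` then all
`c m a` are in `Mi`.  `K[X]` is a domain; `linq 1 = 1`.  `mi_lin` is the statement that such a homomorphism exists. -/

namespace RR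

open Module

variable {K : Type} [Field K] {s : ℕ} {v : Fin s → ℕ} {I : Set (MvPolynomial (Fin s) K)}

theorem mi_form {β : BPt I} {m : ℕ} {f : HR I} (hf : f ∈ frm v I m) : f ∈ Mi v I β ↔ evq β f = 0 := by
  refine ⟨fun h => ?_, fun h => Ideal.subset_span ⟨m, hf, h⟩⟩
  have h1 : Mi v I β ≤ RingHom.ker (evq β) := by
    refine Ideal.span_le.2 ?_
    rintro a ⟨k, _, ha⟩
    exact ha
  exact h1 h

/-- the value of a weighted homogeneous polynomial on the line through the point -/
theorem mi_wh {m : ℕ} {p : MvPolynomial (Fin s) K} (hp : MvPolynomial.IsWeightedHomogeneous v p m) (β : Fin s → K) :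
    MvPolynomial.aeval (fun i => Polynomial.C (β i) * Polynomial.X ^ (v i)) p =
      Polynomial.C (MvPolynomial.aeval β p) * (Polynomial.X : Polynomial K) ^ m := by
  rw [MvPolynomial.aeval_def, MvPolynomial.aeval_def, MvPolynomial.eval₂_eq', MvPolynomial.eval₂_eq', map_sum, Finset.sum_mul]
  refine Finset.sum_congr rfl fun d hd => ?_
  have h1 : Finsupp.weight v d = m := hp (MvPolynomial.mem_support_iff.1 hd)
  have h2 : ∏ i, (Polynomial.C (β i) * Polynomial.X ^ (v i)) ^ (d i) =
      Polynomial.C (∏ i, β i ^ d i) * (Polynomial.X : Polynomial K) ^ m := by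
    rw [map_prod, ← h1, Finsupp.weight_apply, Finsupp.sum_fintype _ _ (fun i => by simp), ← Finset.prod_pow_eq_pow_sum,
      ← Finset.prod_mul_distrib]
    refine Finset.prod_congr rfl fun i _ => ?_
    rw [mul_pow, ← pow_mul, map_pow, smul_eq_mul, mul_comm (v i)]
  rw [h2, map_mul, mul_assoc]
  rfl

theorem mi_lin (hom : ∀ f ∈ I, ∃ m, 0 < m ∧ MvPolynomial.IsWeightedHomogeneous v f m) (β : BPt I) :
    ∃ l : HR I →ₐ[K] Polynomial K, (∀ a, l a = 0 ↔ a ∈ Mi v I β) ∧
      ∀ m, ∀ f ∈ frm v I m, l f = Polynomial.C (evq β f) * Polynomial.X ^ m := by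
  obtain ⟨c, hc1, hc2, -, -, -⟩ := frm_comp (v := v) (I := I) hom
  have h0 : ∀ a ∈ Ideal.span I, (MvPolynomial.aeval (fun i => Polynomial.C (β.1 i) * Polynomial.X ^ (v i)) :
      MvPolynomial (Fin s) K →ₐ[K] Polynomial K) a = 0 := by
    intro a ha
    have h1 : Ideal.span I ≤ RingHom.ker (MvPolynomial.aeval (fun i => Polynomial.C (β.1 i) * Polynomial.X ^ (v i)) :
      MvPolynomial (Fin s) K →ₐ[K] Polynomial K) := by
      refine Ideal.span_le.2 fun f hf => ?_
      obtain ⟨m, _, hm⟩ := hom f hf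
      have h2 := β.2.2 f hf
      rw [← MvPolynomial.coe_aeval_eq_eval] at h2
      have h3 : MvPolynomial.aeval β.1 f = 0 := h2
      have h4 := mi_wh hm β.1
      rw [h3, map_zero, zero_mul] at h4
      exact h4
    exact h1 ha
  refine ⟨Ideal.Quotient.liftₐ (Ideal.span I) _ h0, ?_, ?_⟩
  rotate_left
  · intro m f hf
    obtain ⟨p, hp, rfl⟩ := hf
    exact mi_wh hp β.1
  · have hl : ∀ m, ∀ f ∈ frm v I m, Ideal.Quotient.liftₐ (Ideal.span I) _ h0 f = Polynomial.C (evq β f) * Polynomial.X ^ m := by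
      intro m f hf
      obtain ⟨p, hp, rfl⟩ := hf
      exact mi_wh hp β.1
    intro a
    constructor
    · intro ha
      obtain ⟨N, _, hN⟩ := hc2 a
      have h1 : ∑ m ∈ Finset.range N, Polynomial.C (evq β (c m a)) * (Polynomial.X : Polynomial K) ^ m = 0 := by
        rw [← ha]
        conv_rhs => rw [hN]
        rw [map_sum]
        exact Finset.sum_congr rfl fun m _ => (hl m _ (hc1 m a)).symm
      rw [hN]
      refine Ideal.sum_mem _ fun m hm => ?_
      refine (mi_form (hc1 m a)).2 ?_
      have h2 := congrArg (fun q => Polynomial.coeff q m) h1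
      simp only [Polynomial.finsetSum_coeff, Polynomial.coeff_C_mul_X_pow, Polynomial.coeff_zero] at h2
      rw [Finset.sum_ite_eq, if_pos hm] at h2
      exact h2
    · intro ha
      have h1 : Mi v I β ≤ RingHom.ker (Ideal.Quotient.liftₐ (Ideal.span I) _ h0) := by
        refine Ideal.span_le.2 ?_
        rintro b ⟨k, hk, hb⟩
        have h2 := hl k b hk
        rw [hb, map_zero, zero_mul] at h2
        exact h2
      exact h1 ha

theorem mi_prime (hom : ∀ f ∈ I, ∃ m, 0 < m ∧ MvPolynomial.IsWeightedHomogeneous v f m) (β : BPt I) : (Mi v I β).IsPrime := by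
  obtain ⟨l, hl, -⟩ := mi_lin hom β
  have h1 : Mi v I β = RingHom.ker l := by
    ext a
    exact (hl a).symm
  rw [h1]
  exact RingHom.ker_isPrime l

end RR
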