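import Pool.Agent.H99.RR.YGr

/-! # RR.YNS : Nullstellensatz (100 lines)

`J' = J.comap mk ≤ K[z]`.  A common zero `β` of `J'` is zero: `I ⊆ J'` (`mk f = 0` for `f ∈ I`), so if `β ≠ 0` then `β ∈ BPt I`, but there is `f ∈ J` with `evq β f ≠ 0`.  `MvPolynomial.vanishingIdeal_zeroLocus_eq_radical`: all `X i` are in the radical of `J'`: `X i ^ N ∈ J'` for a common `N ≥ 1`.
A monomial of weighted degree `m > N Σ v i` has an exponent `≥ N`, so it is in `J'`; a weighted homogeneous polynomial is a sum of such monomials. -/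

namespace RR

open Module

variable {K : Type} [Field K] [IsAlgClosed K] {s : ℕ} {v : Fin s → ℕ} {I : Set (MvPolynomial (Fin s) K)}

/-- all variables are in the radical of the preimage -/
private theorem ns_rad (J : Ideal (HR I)) (hJ : ∀ β : BPt I, ∃ f ∈ J, evq β f ≠ 0) (i : Fin s) :
    ∃ n : ℕ, (MvPolynomial.X i : MvPolynomial (Fin s) K) ^ n ∈ J.comap (Ideal.Quotient.mk (Ideal.span I)) := by
  have h1 : (MvPolynomial.X i : MvPolynomial (Fin s) K) ∈ (J.comap (Ideal.Quotient.mk (Ideal.span I))).radical := by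
    rw [← MvPolynomial.vanishingIdeal_zeroLocus_eq_radical (K := K), MvPolynomial.mem_vanishingIdeal_iff]
    intro x hx
    rw [MvPolynomial.mem_zeroLocus_iff] at hx
    rw [MvPolynomial.aeval_X]
    by_contra hxi
    have hx0 : x ≠ 0 := fun h => hxi (by rw [h]; rfl)
    have hI : ∀ f ∈ I, MvPolynomial.eval x f = 0 := by
      intro f hf
      have h2 : f ∈ J.comap (Ideal.Quotient.mk (Ideal.span I)) := by
        rw [Ideal.mem_comap, Ideal.Quotient.eq_zero_iff_mem.2 (Ideal.subset_span hf)]
        exact J.zero_mem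
      have h3 := hx f h2
      rwa [MvPolynomial.aeval_eq_eval] at h3
    obtain ⟨f, hf, hf0⟩ := hJ ⟨x, hx0, hI⟩
    obtain ⟨p, rfl⟩ := Ideal.Quotient.mk_surjective f
    exact hf0 (hx p hf)
  exact h1

theorem ns (hv : ∀ i, 0 < v i) (J : Ideal (HR I)) (hJ : ∀ β : BPt I, ∃ f ∈ J, evq β f ≠ 0) : ∃ m0, ∀ m, m0 ≤ m → ∀ f ∈ frm v I m, f ∈ J := by
  classical
  choose n hn using ns_rad J hJ
  set N := ∑ i, n i with hN
  refine ⟨N * ∑ i, v i + 1, fun m hm f hf => ?_⟩
  obtain ⟨p, hp, rfl⟩ := hf
  have hp' : MvPolynomial.IsWeightedHomogeneous v p m := hp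
  have key : p ∈ J.comap (Ideal.Quotient.mk (Ideal.span I)) := by
    rw [p.as_sum]
    refine Ideal.sum_mem _ fun d hd => ?_
    have hw : Finsupp.weight v d = m := hp' (MvPolynomial.mem_support_iff.1 hd)
    have h0 : d.sum (fun i c => c • v i) = ∑ i, d i • v i :=
      Finsupp.sum_fintype d (fun i c => c • v i) fun i => zero_smul ℕ (v i)
    rw [Finsupp.weight_apply, h0] at hw
    have hex : ∃ i, N ≤ d i := by
      by_contra hc
      push Not at hc
      have h1 : ∑ i, d i • v i ≤ ∑ i, N * v i := Finset.sum_le_sum fun i _ => by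
        rw [smul_eq_mul]
        exact Nat.mul_le_mul_right _ (hc i).le
      rw [← Finset.mul_sum, hw] at h1
      omega
    obtain ⟨i, hi⟩ := hex
    have hni : n i ≤ d i := (Finset.single_le_sum (fun _ _ => Nat.zero_le _) (Finset.mem_univ i)).trans hi
    have h2 : MvPolynomial.monomial d (p.coeff d) =
        MvPolynomial.X i ^ n i * MvPolynomial.monomial (d - Finsupp.single i (n i)) (p.coeff d) := by
      have h3 : d = Finsupp.single i (n i) + (d - Finsupp.single i (n i)) := by
        ext j
        rw [Finsupp.add_apply, Finsupp.tsub_apply]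
        by_cases hj : j = i
        · subst hj
          rw [Finsupp.single_eq_same]
          omega
        · rw [Finsupp.single_eq_of_ne hj]
          omega
      rw [MvPolynomial.X_pow_eq_monomial, MvPolynomial.monomial_mul, one_mul]
      exact congrArg (fun e => MvPolynomial.monomial e (p.coeff d)) h3
    rw [h2]
    exact Ideal.mul_mem_right _ _ (hn i)
  exact key

end RR
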