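import Pool.Agent.H99.RR.YTan3
import Pool.Agent.H99.RR.YDv
import Pool.Agent.H99.RR.YFld

/-! # RR.YOrd : the order at a point of the curve (120 lines)

`M = Mi v I β` is prime (`mi_prime`); `D = Localization.AtPrime M` is a Noetherian local domain (`HR I` is Noetherian), its maximal ideal is generated by the image of `f1` (`exists_f1`: `b` becomes a unit) and is not zero, so `D` is a discrete valuation ring
(`IsDiscreteValuationRing.TFAE` or `IsDiscreteValuationRing.of...`: Noetherian local domain with principal maximal ideal, not a field) and `f1` is irreducible in it.  `QF I` is the field of fractions of `D` (`IsLocalization.localizationAlgebraOfSubmonoidLe`,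
`IsFractionRing.isFractionRing_of_isDomain_of_isLocalization`, scalar tower `HR I → D → QF I`).  `exists_ord`.  An element `a ∈ HR I` is a unit of `D` iff `a ∉ M` (`IsLocalization.AtPrime.isUnit_to_map_iff`). -/

namespace RR

open Module

variable {K : Type} [Field K] [CharZero K] {s : ℕ} {v : Fin s → ℕ} {I : Set (MvPolynomial (Fin s) K)} {d g : ℕ} [hI : (Ideal.span I).IsPrime]

/-- properties of the order function -/
structure IsOrd (v : Fin s → ℕ) (I : Set (MvPolynomial (Fin s) K)) [(Ideal.span I).IsPrime] (β : BPt I) (ord : QF I → ℤ) : Prop where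
  mul : ∀ x y, x ≠ 0 → y ≠ 0 → ord (x * y) = ord x + ord y
  add : ∀ x y, x ≠ 0 → y ≠ 0 → x + y ≠ 0 → min (ord x) (ord y) ≤ ord (x + y)
  nonneg : ∀ a : HR I, a ≠ 0 → 0 ≤ ord (io a)
  zero : ∀ a : HR I, a ≠ 0 → (ord (io a) = 0 ↔ a ∉ Mi v I β)
  f1 : ∃ m, ∃ f ∈ frm v I m, f ≠ 0 ∧ ord (io f) = 1
  rep : ∀ x, x ≠ 0 → 0 ≤ ord x → ∃ a b, b ∉ Mi v I β ∧ x = io a / io b

theorem exists_isOrd (h : SmC v I d g) (β : BPt I) : ∃ ord : QF I → ℤ, IsOrd v I β ord := by
  have hp : (Mi v I β).IsPrime := mi_prime h.hom β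
  set P : Ideal (HR I) := Mi v I β with hP
  let D := Localization.AtPrime P
  have hdom : IsDomain D := IsLocalization.isDomain_localization P.primeCompl_le_nonZeroDivisors
  have hnoe : IsNoetherianRing D := IsLocalization.isNoetherianRing P.primeCompl D inferInstance
  have hinj : Function.Injective (algebraMap (HR I) D) :=
    IsLocalization.injective D P.primeCompl_le_nonZeroDivisors
  obtain ⟨m, f1, hf1, hf0, hf1v, b, hb, hbM⟩ := exists_f1 h β
  have hfP : f1 ∈ P := (mi_form hf1).2 hf1v
  have hmax : IsLocalRing.maximalIdeal D = Ideal.span {algebraMap (HR I) D f1} := by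
    have h1 : Ideal.map (algebraMap (HR I) D) P = IsLocalRing.maximalIdeal D :=
      Localization.AtPrime.map_eq_maximalIdeal
    rw [← h1]
    apply le_antisymm
    · rw [Ideal.map_le_iff_le_comap]
      intro a ha
      rw [Ideal.mem_comap, Ideal.mem_span_singleton]
      obtain ⟨c, hc⟩ := hbM a ha
      have hu : IsUnit (algebraMap (HR I) D b) :=
        (IsLocalization.AtPrime.isUnit_to_map_iff D P b).2 hb
      have h2 : algebraMap (HR I) D b * algebraMap (HR I) D a =
          algebraMap (HR I) D f1 * algebraMap (HR I) D c := by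
        rw [← map_mul, ← map_mul, hc]
      have h3 : algebraMap (HR I) D f1 ∣ algebraMap (HR I) D b * algebraMap (HR I) D a :=
        ⟨_, h2⟩
      exact (hu.dvd_mul_left).1 h3
    · rw [Ideal.span_singleton_le_iff_mem]
      exact Ideal.mem_map_of_mem _ hfP
  have hf1D : algebraMap (HR I) D f1 ≠ 0 := by
    intro h0
    exact hf0 (hinj (by rw [h0, map_zero]))
  have hnf : ¬ IsField D := by
    rw [IsLocalRing.isField_iff_maximalIdeal_eq, hmax]
    intro h0
    rw [Ideal.span_singleton_eq_bot] at h0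
    exact hf1D h0
  have hdvr : IsDiscreteValuationRing D := by
    have h1 := (IsDiscreteValuationRing.TFAE D hnf).out 4 0
    exact h1.1 ⟨⟨_, hmax⟩⟩
  have hirr := (IsDiscreteValuationRing.irreducible_iff_uniformizer (algebraMap (HR I) D f1)).2 hmax
  have hio : ∀ a : HR I, (io a : QF I) = algebraMap D (QF I) (algebraMap (HR I) D a) := fun a =>
    IsScalarTower.algebraMap_apply (HR I) D (QF I) a
  obtain ⟨ord, hmul, hadd, hnn, hun, hϖ⟩ := exists_ord D (QF I)
  have hne : ∀ a : HR I, a ≠ 0 → (io a : QF I) ≠ 0 := by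
    intro a ha h0
    exact ha ((map_eq_zero_iff _ (IsFractionRing.injective (HR I) (QF I))).1 h0)
  have hneD : ∀ a : HR I, a ≠ 0 → algebraMap (HR I) D a ≠ 0 := by
    intro a ha h0
    exact ha (hinj (by rw [h0, map_zero]))
  refine ⟨ord, ⟨hmul, hadd, ?_, ?_, ?_, ?_⟩⟩
  · intro a ha
    exact (hnn _ (hne a ha)).2 ⟨_, hio a⟩
  · intro a ha
    rw [hio a, hun _ (hneD a ha), IsLocalization.AtPrime.isUnit_to_map_iff D P a]
    rfl
  · refine ⟨m, f1, hf1, hf0, ?_⟩
    rw [hio f1]
    exact hϖ _ hirr
  · intro x hx hx0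
    obtain ⟨y, hy⟩ := (hnn x hx).1 hx0
    obtain ⟨a, s', hs⟩ := IsLocalization.exists_mk'_eq P.primeCompl y
    refine ⟨a, s'.1, s'.2, ?_⟩
    have hs0 : (s'.1 : HR I) ≠ 0 := by
      intro h0
      have := s'.2
      rw [h0] at this
      exact this P.zero_mem
    rw [eq_div_iff (hne _ hs0), hy, hio a, hio s'.1, ← map_mul, ← hs]
    congr 1
    exact IsLocalization.mk'_spec D a s'

/-- the order at `β` -/
noncomputable def ordL (h : SmC v I d g) (β : BPt I) : QF I → ℤ := (exists_isOrd h β).choose

theorem isOrd (h : SmC v I d g) (β : BPt I) : IsOrd v I β (ordL h β) := (exists_isOrd h β).choose_spec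

end RR
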