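import Pool.Agent.H99.RR.YRep
import Pool.Agent.H99.RR.Def

/-! # RR.YPt : the place given by a point of the curve (150 lines)

`ord x = ordL h β x`.  `res x`: for `x = 0` or `0 ≤ ord x` write `x = f / e` (`ff_rep`) and take `evq β f / evq β e` (otherwise `0`); it is independent of the choice: `f / e = f' / e'` gives `f e' = f' e` (`io` is injective), so
`f(β) e'(β) = f'(β) e(β)`; in the second claim `x = f / e` with `evq β e ≠ 0` has `x = 0` or `0 ≤ ord x`: `e ∉ Mi` (`mi_form`), `ord (io e) = 0` (`zero`), `ord (io f) ≥ 0`.  `res_add`, `res_mul`: fractions.  `res_pos`: `x = f / e ≠ 0`: `ord x = ord f`, and `f(β) = 0` iff `f ∈ Mi` iff `ord f ≠ 0`.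
`tau`: `f` of degree `m` with `ord (io f) = 1` (`f1`); `big_form`: forms `h1` of degree `j` and `h2` of degree `m + j` with value `1` at `β` (`j` large); `tau = f h1 / h2`.  `ord_const`: constants are units of `HR I`, so not in the prime ideal `Mi` (`mi_prime`). -/

namespace RR

open Module

variable {K : Type} [Field K] [CharZero K] {s : ℕ} {v : Fin s → ℕ} {I : Set (MvPolynomial (Fin s) K)} {d g : ℕ} [hI : (Ideal.span I).IsPrime]

omit [CharZero K] hI in
private theorem io_inj : Function.Injective (io : HR I →+* QF I) := IsFractionRing.injective (HR I) (QF I)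

omit [CharZero K] hI in
private theorem ne_of_evq {β : BPt I} {e : HR I} (he : evq β e ≠ 0) : e ≠ 0 := by
  intro h0
  rw [h0, map_zero] at he
  exact he rfl

omit [CharZero K] in
private theorem io_ne {e : HR I} (he : e ≠ 0) : (io e : QF I) ≠ 0 := fun h => he (io_inj (by rw [h, map_zero]))

private theorem ord_unit (h : SmC v I d g) (β : BPt I) {m : ℕ} {e : HR I} (he : e ∈ frm v I m) (h0 : evq β e ≠ 0) :
    ordL h β (io e) = 0 := by
  rw [(isOrd h β).zero e (ne_of_evq h0), mi_form he]
  exact h0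

private theorem ord_frac (h : SmC v I d g) (β : BPt I) {m : ℕ} {f e : HR I} (he : e ∈ frm v I m)
    (h0 : evq β e ≠ 0) (hf0 : f ≠ 0) : ordL h β (io f / io e) = ordL h β (io f) := by
  have hei : (io e : QF I) ≠ 0 := io_ne (ne_of_evq h0)
  have hfi : (io f : QF I) ≠ 0 := io_ne hf0
  have h1 := (isOrd h β).mul (io f / io e) (io e) (div_ne_zero hfi hei) hei
  rw [div_mul_cancel₀ _ hei, ord_unit h β he h0, add_zero] at h1
  exact h1.symm

private theorem reg_of (h : SmC v I d g) (β : BPt I) {m : ℕ} {f e : HR I} (he : e ∈ frm v I m)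
    (h0 : evq β e ≠ 0) {x : QF I} (hx : x = io f / io e) : x = 0 ∨ 0 ≤ ordL h β x := by
  by_cases hf0 : f = 0
  · left
    rw [hx, hf0, map_zero, zero_div]
  · right
    rw [hx, ord_frac h β he h0 hf0]
    exact (isOrd h β).nonneg f hf0

open Classical in
/-- the residue -/
private noncomputable def resq (v : Fin s → ℕ) (β : BPt I) (x : QF I) : K :=
  if hx : ∃ r : K, ∃ m, ∃ f ∈ frm v I m, ∃ e ∈ frm v I m, evq β e ≠ 0 ∧ x = io f / io e ∧ r = evq β f / evq β e then
    hx.choose else 0

omit [CharZero K] in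
private theorem resq_eq (β : BPt I) {m : ℕ} {f e : HR I} (hf : f ∈ frm v I m) (he : e ∈ frm v I m)
    (h0 : evq β e ≠ 0) {x : QF I} (hx : x = io f / io e) : resq v β x = evq β f / evq β e := by
  have hex : ∃ r : K, ∃ m, ∃ f ∈ frm v I m, ∃ e ∈ frm v I m, evq β e ≠ 0 ∧ x = io f / io e ∧ r = evq β f / evq β e :=
    ⟨_, m, f, hf, e, he, h0, hx, rfl⟩
  unfold resq
  rw [dif_pos hex]
  obtain ⟨m', f', _, e', _, h0', hx', hr⟩ := hex.choose_spec
  rw [hr, div_eq_div_iff h0' h0, ← map_mul, ← map_mul]
  congr 1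
  apply io_inj
  rw [map_mul, map_mul, ← div_eq_div_iff (io_ne (ne_of_evq h0')) (io_ne (ne_of_evq h0)), ← hx', ← hx]

theorem exists_pl (h : SmC v I d g) (β : BPt I) : ∃ P : Pl K (FF v I), (∀ x : FF v I, P.ord x = ordL h β (x : QF I)) ∧
    ∀ m, ∀ f ∈ frm v I m, ∀ e ∈ frm v I m, evq β e ≠ 0 → ∀ x : FF v I, (x : QF I) = io f / io e → P.res x = evq β f / evq β e := by
  have H := isOrd h β
  have hne : ∀ {x : FF v I}, x ≠ 0 → (x : QF I) ≠ 0 := fun {x} hx h0 => hx (Subtype.ext h0)
  have hrep : ∀ {x : FF v I}, (x = 0 ∨ 0 ≤ ordL h β (x : QF I)) →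
      ∃ m, ∃ f ∈ frm v I m, ∃ e ∈ frm v I m, evq β e ≠ 0 ∧ (x : QF I) = io f / io e := by
    intro x hx
    apply ff_rep h β x.2
    rcases hx with hx | hx
    · left
      rw [hx]
      rfl
    · exact Or.inr hx
  have hconst : ∀ c : K, (algebraMap K (HR I) c) ∈ frm v I 0 := by
    intro c
    rw [Algebra.algebraMap_eq_smul_one]
    exact (frm v I 0).smul_mem c frm_one
  have hcoe : ∀ c : K, ((algebraMap K (FF v I) c : FF v I) : QF I) = io (algebraMap K (HR I) c) := by
    intro c
    change algebraMap K (QF I) c = _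
    exact IsScalarTower.algebraMap_apply K (HR I) (QF I) c
  have hevc : ∀ c : K, evq β (algebraMap K (HR I) c) = c := fun c => AlgHom.commutes (evq β) c
  have hev1 : evq β (1 : HR I) ≠ 0 := by
    rw [map_one]
    exact one_ne_zero
  obtain ⟨τ, hτ0, hτ1⟩ : ∃ τ : FF v I, τ ≠ 0 ∧ ordL h β (τ : QF I) = 1 := by
    obtain ⟨m, f, hf, hf0, hf1⟩ := H.f1
    obtain ⟨m0, hm0⟩ := big_form h β
    obtain ⟨h1, hh1, he1⟩ := hm0 m0 le_rfl
    obtain ⟨h2, hh2, he2⟩ := hm0 (m + m0) (Nat.le_add_left _ _)
    have he1' : evq β h1 ≠ 0 := by rw [he1]; exact one_ne_zero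
    have he2' : evq β h2 ≠ 0 := by rw [he2]; exact one_ne_zero
    have h10 : h1 ≠ 0 := ne_of_evq he1'
    have h20 : h2 ≠ 0 := ne_of_evq he2'
    have hmem : (io (f * h1) / io h2 : QF I) ∈ FF v I := mem_FF.2 ⟨m + m0, f * h1, frm_mul hf hh1, h2, hh2, h20, rfl⟩
    refine ⟨⟨_, hmem⟩, ?_, ?_⟩
    · intro h0
      have h3 : (io (f * h1) / io h2 : QF I) = 0 := congrArg Subtype.val h0
      exact div_ne_zero (io_ne (mul_ne_zero hf0 h10)) (io_ne h20) h3
    · change ordL h β (io (f * h1) / io h2) = 1
      rw [ord_frac h β hh2 he2' (mul_ne_zero hf0 h10), map_mul, H.mul _ _ (io_ne hf0) (io_ne h10), hf1,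
        ord_unit h β hh1 he1', add_zero]
  refine ⟨{ ord := fun x => ordL h β (x : QF I)
            res := fun x => resq v β (x : QF I)
            tau := τ
            ord_mul := fun {x y} hx hy => H.mul _ _ (hne hx) (hne hy)
            ord_add := fun {x y} hx hy hxy => H.add _ _ (hne hx) (hne hy) (hne hxy)
            ord_const := fun {c} hc => ?_
            tau_ne := hτ0
            ord_tau := hτ1
            res_const := fun c => ?_
            res_add := fun {x y} hx hy => ?_
            res_mul := fun {x y} hx hy => ?_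
            res_pos := fun {x} hx => ?_ }, fun x => rfl, fun m f hf e he h0 x hx => resq_eq β hf he h0 hx⟩
  · rw [hcoe]
    apply ord_unit h β (hconst c)
    rw [hevc]
    exact hc
  · rw [resq_eq β (hconst c) frm_one hev1 (by rw [hcoe, map_one, div_one]), hevc, map_one, div_one]
  · obtain ⟨m, f, hf, e, he, h0, hxe⟩ := hrep hx
    obtain ⟨m', f', hf', e', he', h0', hye⟩ := hrep hy
    have hee : evq β (e * e') ≠ 0 := by
      rw [map_mul]
      exact mul_ne_zero h0 h0'
    have h3 : ((x + y : FF v I) : QF I) = io (f * e' + e * f') / io (e * e') := by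
      change (x : QF I) + (y : QF I) = _
      rw [hxe, hye, div_add_div _ _ (io_ne (ne_of_evq h0)) (io_ne (ne_of_evq h0')), map_add, map_mul, map_mul, map_mul]
    rw [resq_eq β (Submodule.add_mem _ (frm_mul hf he') (frm_mul he hf')) (frm_mul he he') hee h3,
      resq_eq β hf he h0 hxe, resq_eq β hf' he' h0' hye, div_add_div _ _ h0 h0', map_add, map_mul, map_mul, map_mul]
  · obtain ⟨m, f, hf, e, he, h0, hxe⟩ := hrep hx
    obtain ⟨m', f', hf', e', he', h0', hye⟩ := hrep hy
    have hee : evq β (e * e') ≠ 0 := by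
      rw [map_mul]
      exact mul_ne_zero h0 h0'
    have h3 : ((x * y : FF v I) : QF I) = io (f * f') / io (e * e') := by
      change (x : QF I) * (y : QF I) = _
      rw [hxe, hye, div_mul_div_comm, map_mul, map_mul]
    rw [resq_eq β (frm_mul hf hf') (frm_mul he he') hee h3,
      resq_eq β hf he h0 hxe, resq_eq β hf' he' h0' hye, div_mul_div_comm, map_mul, map_mul]
  · obtain ⟨m, f, hf, e, he, h0, hxe⟩ := hrep hx
    rw [resq_eq β hf he h0 hxe, div_eq_zero_iff]
    by_cases hf0 : f = 0
    · have hx0 : x = 0 := by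
        apply Subtype.ext
        rw [hxe, hf0, map_zero, zero_div]
        rfl
      rw [hf0, map_zero]
      exact ⟨fun _ => Or.inl hx0, fun _ => Or.inl rfl⟩
    · have hx0 : x ≠ 0 := by
        intro hx0
        have h3 : (io f / io e : QF I) = 0 := by
          rw [← hxe, hx0]
          rfl
        exact div_ne_zero (io_ne hf0) (io_ne (ne_of_evq h0)) h3
      have h4 : ordL h β (x : QF I) = ordL h β (io f) := by
        rw [hxe, ord_frac h β he h0 hf0]
      rw [h4]
      have h5 := H.zero f hf0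
      rw [mi_form hf] at h5
      have h6 := H.nonneg f hf0
      constructor
      · intro h7
        right
        have h8 := h7.resolve_right h0
        have h9 : ¬ ordL h β (io f) = 0 := fun h10 => h5.1 h10 h8
        omega
      · intro h7
        left
        have h8 := h7.resolve_left hx0
        by_contra h9
        have h10 := h5.2 h9
        omega

/-- the place -/
noncomputable def plq (h : SmC v I d g) (β : BPt I) : Pl K (FF v I) := (exists_pl h β).choose

theorem plq_ord (h : SmC v I d g) (β : BPt I) (x : FF v I) : (plq h β).ord x = ordL h β (x : QF I) := (exists_pl h β).choose_spec.1 x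

theorem plq_res (h : SmC v I d g) (β : BPt I) {m : ℕ} {f e : HR I} (hf : f ∈ frm v I m) (he : e ∈ frm v I m) (h0 : evq β e ≠ 0) {x : FF v I}
    (hx : (x : QF I) = io f / io e) : (plq h β).res x = evq β f / evq β e := (exists_pl h β).choose_spec.2 m f hf e he h0 x hx

end RR
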