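import Pool.Agent.H99.RR.YCv
import Pool.Agent.H99.RR.YAs
import Pool.Agent.H99.RR.YFd

/-! # RR.YRIn : the inequality of Riemann (150 lines)

`const`: `reg_const` (an element of `L 0` is `0` or has `ord_p ≥ 0` for all `p`; `plq_ord`); compare `algebraMap K (FF v I) c` with `algebraMap K (QF I) c`.
`ri`: `D ≥ 0`; let `D' : CPt v I →₀ ℕ` with the same values (`D'.degree = D.degree`).  `exists_ab` for `D'`.  `U1 = a * frm m`, `U2 = b * frm m'` (images under injective linear maps, same dimensions as `frm m`, `frm m'`) are contained in `Jd h D' (m + m')` (`frm_mul`, `IsOrd.mul`), so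
`dim (U1 ⊓ U2) ≥ dim U1 + dim U2 - dim Jd ≥ (m d + 1 - g) + (m' d + 1 - g) - ((m + m') d + 1 - g - deg D) = deg D + 1 - g` (`Submodule.finrank_sup_add_finrank_inf_eq`, `U1 ⊔ U2 ≤ Jd`; finite-dimensional: `frm_fd`).
For `y ∈ U1 ⊓ U2`, `y = a u = b w`: `y / (a b) = u / b = w / a` is in `FF` (degree `0`) and in `L D`: if `ord_p a = D p`: `ord (w / a) ≥ - D p`; if `ord_p b = 0`: `ord (u / b) ≥ 0`.  The linear map `U1 ⊓ U2 → L D`, `y ↦ y / (a b)` is injective, and `L D` is finite-dimensional (`L_fd0`). -/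

namespace RR

open Module

variable {K : Type} [Field K] [CharZero K] [IsAlgClosed K] {s : ℕ} {v : Fin s → ℕ} {I : Set (MvPolynomial (Fin s) K)} {d g : ℕ} [hI : (Ideal.span I).IsPrime]

omit [CharZero K] [IsAlgClosed K] hI in
private theorem ri_ne {a : HR I} (ha : a ≠ 0) : (io a : QF I) ≠ 0 := fun hh =>
  ha (IsFractionRing.injective (HR I) (QF I) (by rw [hh, map_zero]))

omit [IsAlgClosed K] in
private theorem ri_mulJd (h : SmC v I d g) {D : CPt v I →₀ ℕ} {m m' : ℕ} {a u : HR I} (ha : a ∈ frm v I m') (hu : u ∈ frm v I m) (ha0 : a ≠ 0)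
    (hD : ∀ p : CPt v I, (D p : ℤ) ≤ ordL h p.rep (io a)) : a * u ∈ Jd h D (m' + m) := by
  refine mem_Jd.2 ⟨frm_mul ha hu, ?_⟩
  by_cases hu0 : u = 0
  · exact Or.inl (by rw [hu0, mul_zero])
  · refine Or.inr fun p => ?_
    rw [map_mul, (isOrd h p.rep).mul _ _ (ri_ne ha0) (ri_ne hu0)]
    have h1 := (isOrd h p.rep).nonneg u hu0
    have h2 := hD p
    omega

private theorem ri_const (h : SmC v I d g) (x : FF v I) (hx : x ∈ (crvA h).L 0) : ∃ c : K, x = algebraMap K (FF v I) c := by
  have h0 : ((x : QF I) = 0 ∨ ∀ p : CPt v I, 0 ≤ ordL h p.rep (x : QF I)) := by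
    by_cases hx0 : (x : QF I) = 0
    · exact Or.inl hx0
    · refine Or.inr fun p => ?_
      have h1 := hx p
      rcases h1 with h1 | h1
      · exact absurd (by rw [h1]; rfl) hx0
      · have h2 : (0 : ℤ) ≤ (plq h p.rep).ord x := by
          have h3 : (-(((0 : (crvA h).Pt →₀ ℤ)) p) : ℤ) = 0 := by rw [Finsupp.zero_apply, neg_zero]
          rw [h3] at h1
          exact h1
        rwa [plq_ord] at h2
  obtain ⟨c, hc⟩ := reg_const h x.2 h0
  exact ⟨c, Subtype.ext hc⟩

omit [IsAlgClosed K] in
private theorem ri_main (h : SmC v I d g) (D : CPt v I →₀ ℕ) (L : Submodule K (FF v I)) (hfd : FiniteDimensional K L)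
    (hL : ∀ x : FF v I, (∀ p : CPt v I, x = 0 ∨ -(D p : ℤ) ≤ ordL h p.rep (x : QF I)) → x ∈ L) :
    D.degree + 1 ≤ finrank K L + g := by
  obtain ⟨m, m', a, ha, b, hb, ha0, hb0, h1, h2, h3, hm, hm', hJ⟩ := exists_ab h D
  have hfa : ∀ n, FiniteDimensional K (frm v I n) := fun n => frm_fd h.vpos n
  let la : HR I →ₗ[K] HR I := LinearMap.mulLeft K a
  let lb : HR I →ₗ[K] HR I := LinearMap.mulLeft K b
  have hla : Function.Injective la := fun x y hxy => mul_left_cancel₀ ha0 hxy
  have hlb : Function.Injective lb := fun x y hxy => mul_left_cancel₀ hb0 hxy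
  let U1 : Submodule K (HR I) := (frm v I m).map la
  let U2 : Submodule K (HR I) := (frm v I m').map lb
  have hfd1 : FiniteDimensional K U1 := by
    have := hfa m
    exact inferInstanceAs (FiniteDimensional K ((frm v I m).map la))
  have hfd2 : FiniteDimensional K U2 := by
    have := hfa m'
    exact inferInstanceAs (FiniteDimensional K ((frm v I m').map lb))
  have hr1 : finrank K U1 = finrank K (frm v I m) :=
    ((Submodule.equivMapOfInjective la hla (frm v I m)).finrank_eq).symm
  have hr2 : finrank K U2 = finrank K (frm v I m') :=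
    ((Submodule.equivMapOfInjective lb hlb (frm v I m')).finrank_eq).symm
  have hJ1 : U1 ≤ Jd h D (m + m') := by
    rintro _ ⟨u, hu, rfl⟩
    rw [add_comm]
    exact ri_mulJd h ha hu ha0 h1
  have hJ2 : U2 ≤ Jd h D (m + m') := by
    rintro _ ⟨w, hw, rfl⟩
    exact ri_mulJd h hb hw hb0 h2
  have hfJ : FiniteDimensional K (Jd h D (m + m')) := by
    have := hfa (m + m')
    exact Submodule.finiteDimensional_of_le (fun x hx => (mem_Jd.1 hx).1 : Jd h D (m + m') ≤ frm v I (m + m'))
  have hsup : finrank K (U1 ⊔ U2 : Submodule K (HR I)) ≤ finrank K (Jd h D (m + m')) :=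
    Submodule.finrank_mono (sup_le hJ1 hJ2)
  have hsi := Submodule.finrank_sup_add_finrank_inf_eq U1 U2
  -- the map to `L`
  have hab : (io a * io b : QF I) ≠ 0 := mul_ne_zero (ri_ne ha0) (ri_ne hb0)
  have hmem : ∀ y ∈ U1 ⊓ U2, io y * (io a * io b : QF I)⁻¹ ∈ FF v I := by
    rintro y ⟨⟨u, hu, rfl⟩, -⟩
    refine mem_FF.2 ⟨m, u, hu, b, hb, hb0, ?_⟩
    have e1 : la u = a * u := rfl
    rw [e1, map_mul]
    have := ri_ne ha0
    have := ri_ne hb0
    field_simp
  let φ : (U1 ⊓ U2 : Submodule K (HR I)) →ₗ[K] FF v I :=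
    { toFun := fun y => ⟨io y.1 * (io a * io b : QF I)⁻¹, hmem y.1 y.2⟩
      map_add' := fun x y => Subtype.ext (by
        show io (x.1 + y.1) * (io a * io b : QF I)⁻¹ = io x.1 * (io a * io b : QF I)⁻¹ + io y.1 * (io a * io b : QF I)⁻¹
        rw [map_add, add_mul])
      map_smul' := fun c x => Subtype.ext (by
        show io (c • x.1) * (io a * io b : QF I)⁻¹ = c • (io x.1 * (io a * io b : QF I)⁻¹)
        rw [← smul_mul_assoc]
        congr 1
        exact (IsScalarTower.toAlgHom K (HR I) (QF I)).toLinearMap.map_smul c x.1) }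
  have hφ : ∀ y : (U1 ⊓ U2 : Submodule K (HR I)), ((φ y : FF v I) : QF I) = io y.1 * (io a * io b : QF I)⁻¹ := fun y => rfl
  have hφL : ∀ y, φ y ∈ L := by
    intro y
    apply hL
    intro p
    by_cases hy : y.1 = 0
    · left
      apply Subtype.ext
      rw [hφ, hy, map_zero, zero_mul]
      rfl
    · right
      rw [hφ]
      obtain ⟨⟨u, hu, hu1⟩, ⟨w, hw, hw1⟩⟩ := y.2
      have e1 : y.1 = a * u := hu1.symm
      have e2 : y.1 = b * w := hw1.symm
      have hu0 : u ≠ 0 := by
        rintro rfl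
        exact hy (by rw [e1, mul_zero])
      have hw0 : w ≠ 0 := by
        rintro rfl
        exact hy (by rw [e2, mul_zero])
      have hx0 : io y.1 * (io a * io b : QF I)⁻¹ ≠ 0 := mul_ne_zero (ri_ne hy) (inv_ne_zero hab)
      have O := isOrd h p.rep
      rcases h3 p with h4 | h4
      · have e3 : io y.1 * (io a * io b : QF I)⁻¹ * io a = io w := by
          rw [e2, map_mul]
          have := ri_ne ha0
          have := ri_ne hb0
          field_simp
        have e4 := O.mul _ _ hx0 (ri_ne ha0)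
        rw [e3, h4] at e4
        have e5 := O.nonneg w hw0
        omega
      · have e3 : io y.1 * (io a * io b : QF I)⁻¹ * io b = io u := by
          rw [e1, map_mul]
          have := ri_ne ha0
          have := ri_ne hb0
          field_simp
        have e4 := O.mul _ _ hx0 (ri_ne hb0)
        rw [e3, h4] at e4
        have e5 := O.nonneg u hu0
        omega
  let ψ : (U1 ⊓ U2 : Submodule K (HR I)) →ₗ[K] L := φ.codRestrict L hφL
  have hψ : Function.Injective ψ := by
    intro x y hxy
    have e1 : ((φ x : FF v I) : QF I) = ((φ y : FF v I) : QF I) := by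
      have e0 : (ψ x : FF v I) = ψ y := by rw [hxy]
      exact congrArg Subtype.val e0
    rw [hφ, hφ] at e1
    have e2 := mul_right_cancel₀ (inv_ne_zero hab) e1
    exact Subtype.ext (IsFractionRing.injective (HR I) (QF I) e2)
  have hle : finrank K (U1 ⊓ U2 : Submodule K (HR I)) ≤ finrank K L := LinearMap.finrank_le_finrank_of_injective hψ
  rw [hr1, hr2] at hsi
  have e6 : (m + m') * d = m * d + m' * d := add_mul _ _ _
  omega

theorem ri_A (h : SmC v I d g) : (crvA h).RI g := by
  classical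
  refine ⟨fun x hx => ri_const h x hx, fun D hD => ?_⟩
  let D' : CPt v I →₀ ℕ := Finsupp.mapRange Int.toNat rfl (D : CPt v I →₀ ℤ)
  have hval : ∀ p : CPt v I, (D' p : ℤ) = D p := fun p => by
    rw [Finsupp.mapRange_apply]
    exact Int.toNat_of_nonneg (hD p)
  have hdeg : ((D'.degree : ℕ) : ℤ) = D.degree := by
    rw [Finsupp.degree_apply, Finsupp.degree_apply, Nat.cast_sum]
    have hs : D'.support ⊆ D.support := Finsupp.support_mapRange
    rw [← Finset.sum_subset hs (fun p _ hp => by
      have h1 : D' p = 0 := Finsupp.notMem_support_iff.1 hp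
      have h2 := hval p
      rw [h1] at h2
      exact h2.symm)]
    exact Finset.sum_congr rfl fun p _ => hval p
  have hfd : FiniteDimensional K ((crvA h).L D) := L_fd0 (crvA h) (fun x hx => ri_const h x hx) hD
  have key := ri_main h D' ((crvA h).L D) hfd (fun x hx p => by
    rcases hx p with h1 | h1
    · exact Or.inl h1
    · refine Or.inr ?_
      have h2 : ((crvA h).pl p).ord x = ordL h p.rep (x : QF I) := plq_ord h p.rep x
      rw [h2, ← hval p]
      exact h1)
  rw [← hdeg]
  exact_mod_cast key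

end RR
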