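import Pool.Agent.H99.RR.YRep

/-! # RR.YRho : a homogeneous fraction of degree `-1` and local frames (70 lines)

`ρ = f0 / h0`, `f0 ≠ 0` of degree `m`, `h0 ≠ 0` of degree `m + 1` (`hilb`: there are nonzero forms of all large degrees).  `io f * ρ ^ m` is a fraction of forms of the same degree.
For `β`: forms `h2`, `h1` of degrees `j`, `j + 1` with value `1` at `β` (`big_form`); `w = (h2 / h1) / ρ`, its degree is `0`; `h1`, `h2` have order `0` at `β` (`zero`, `mi_form`).  `w^m (f ρ^m) = f h2^m / h1^m`. -/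

namespace RR

open Module

variable {K : Type} [Field K] [CharZero K] {s : ℕ} {v : Fin s → ℕ} {I : Set (MvPolynomial (Fin s) K)} {d g : ℕ} [hI : (Ideal.span I).IsPrime]

omit [CharZero K] hI in
private theorem nz_form (h : SmC v I d g) : ∃ M, ∀ m, M ≤ m → ∃ f ∈ frm v I m, f ≠ 0 := by
  obtain ⟨N, hN⟩ := h.hilb
  refine ⟨max N g, fun m hm => ?_⟩
  have hm2 : N ≤ m := (le_max_left _ _).trans hm
  have hm3 : g ≤ m := (le_max_right _ _).trans hm
  have hfr : 0 < finrank K (frm v I m) := by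
    have h1 := hN m hm2
    have h2 : m ≤ m * d := Nat.le_mul_of_pos_right m h.dpos
    omega
  have h1 : Nontrivial (frm v I m) := Module.nontrivial_of_finrank_pos hfr
  obtain ⟨b, hb⟩ := exists_ne (0 : frm v I m)
  exact ⟨b.1, b.2, fun h2 => hb (Subtype.ext h2)⟩

theorem exists_rho (h : SmC v I d g) : ∃ ρ : QF I, ρ ≠ 0 ∧ (∀ m, ∀ f ∈ frm v I m, io f * ρ ^ m ∈ FF v I) ∧
    ∀ β : BPt I, ∃ w : FF v I, w ≠ 0 ∧ ordL h β (w : QF I) = - ordL h β ρ ∧
      ∀ m, ∀ f ∈ frm v I m, ∃ N, ∃ f' ∈ frm v I N, ∃ e' ∈ frm v I N, evq β e' = 1 ∧ evq β f' = evq β f ∧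
        (w : QF I) ^ m * (io f * ρ ^ m) = io f' / io e' := by
  have hinj : Function.Injective (io : HR I →+* QF I) := IsFractionRing.injective (HR I) (QF I)
  have hne : ∀ e : HR I, e ≠ 0 → (io e : QF I) ≠ 0 := fun e he hh => he (hinj (by rw [hh, map_zero]))
  obtain ⟨M, hM⟩ := nz_form h
  obtain ⟨f0, hf0, hf00⟩ := hM M le_rfl
  obtain ⟨h0, hh0, hh00⟩ := hM (M + 1) (Nat.le_succ M)
  have e1 := hne f0 hf00
  have e2 := hne h0 hh00
  refine ⟨io f0 / io h0, div_ne_zero e1 e2, ?_, ?_⟩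
  · intro m f hf
    refine mem_FF.2 ⟨m * (M + 1), f * f0 ^ m, ?_, h0 ^ m, frm_pow hh0 m, pow_ne_zero m hh00, ?_⟩
    · have h1 := frm_mul hf (frm_pow hf0 m)
      have h2 : m + m * M = m * (M + 1) := by ring
      rwa [h2] at h1
    · rw [map_mul, map_pow, map_pow, div_pow, mul_div_assoc]
  · intro β
    obtain ⟨j, hj⟩ := big_form h β
    obtain ⟨h2, hh2, hv2⟩ := hj j le_rfl
    obtain ⟨h1, hh1, hv1⟩ := hj (j + 1) (Nat.le_succ j)
    have n1 : h1 ≠ 0 := by
      rintro rfl
      rw [map_zero] at hv1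
      exact zero_ne_one hv1
    have n2 : h2 ≠ 0 := by
      rintro rfl
      rw [map_zero] at hv2
      exact zero_ne_one hv2
    have i1 := hne h1 n1
    have i2 := hne h2 n2
    have o1 : ordL h β (io h1) = 0 := ((isOrd h β).zero h1 n1).2 fun hh => by
      have := (mi_form hh1).1 hh
      rw [hv1] at this
      exact one_ne_zero this
    have o2 : ordL h β (io h2) = 0 := ((isOrd h β).zero h2 n2).2 fun hh => by
      have := (mi_form hh2).1 hh
      rw [hv2] at this
      exact one_ne_zero this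
    have hw : (io (h2 * h0) : QF I) / io (h1 * f0) ∈ FF v I := by
      refine mem_FF.2 ⟨j + (M + 1), h2 * h0, frm_mul hh2 hh0, h1 * f0, ?_, mul_ne_zero n1 hf00, rfl⟩
      have h3 := frm_mul hh1 hf0
      have h4 : j + 1 + M = j + (M + 1) := by ring
      rwa [h4] at h3
    have hwρ : (io (h2 * h0) : QF I) / io (h1 * f0) * (io f0 / io h0) = io h2 / io h1 := by
      rw [map_mul, map_mul]
      field_simp
    have hw0 : (io (h2 * h0) : QF I) / io (h1 * f0) ≠ 0 := by
      rw [map_mul, map_mul]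
      exact div_ne_zero (mul_ne_zero i2 e2) (mul_ne_zero i1 e1)
    refine ⟨⟨_, hw⟩, fun hh => hw0 (congrArg Subtype.val hh), ?_, ?_⟩
    · have a1 := (isOrd h β).mul _ _ hw0 (div_ne_zero e1 e2)
      have a2 := (isOrd h β).mul (io h2 / io h1) (io h1) (div_ne_zero i2 i1) i1
      rw [hwρ] at a1
      rw [div_mul_cancel₀ _ i1, o1, o2] at a2
      show ordL h β ((io (h2 * h0) : QF I) / io (h1 * f0)) = _
      omega
    · intro m f hf
      refine ⟨m * (j + 1), f * h2 ^ m, ?_, h1 ^ m, frm_pow hh1 m, ?_, ?_, ?_⟩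
      · have h3 := frm_mul hf (frm_pow hh2 m)
        have h4 : m + m * j = m * (j + 1) := by ring
        rwa [h4] at h3
      · rw [map_pow, hv1, one_pow]
      · rw [map_mul, map_pow, hv2, one_pow, mul_one]
      · show ((io (h2 * h0) : QF I) / io (h1 * f0)) ^ m * (io f * (io f0 / io h0) ^ m) = _
        have h3 : ((io (h2 * h0) : QF I) / io (h1 * f0)) ^ m * (io f * (io f0 / io h0) ^ m) =
            io f * ((io (h2 * h0) : QF I) / io (h1 * f0) * (io f0 / io h0)) ^ m := by
          rw [mul_pow]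
          ring
        rw [h3, hwρ, map_mul, map_pow, map_pow, div_pow, mul_div_assoc]

end RR
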