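import Pool.Agent.H99.RR.YDef

/-! # RR.YSq : elements with value and derivatives zero are in the square of the maximal ideal (130 lines)

The gradient of `p` at `β` vanishes on `tan I β` = the common kernel of the gradients of the `f ∈ I`, so it is a linear combination of finitely many of them (double annihilator in the finite-dimensional space `Fin s → K`: `Submodule.dualAnnihilator`, `Submodule.dualCoannihilator`,
`Subspace.dualCoannihilator_dualAnnihilator_eq`-like lemmas; the span of the gradients `{grad f | f ∈ I}` in `Fin s → K` or in the dual space; `Submodule.mem_span_set'` gives a finite combination); so `p - Σ c_j f_j` has value and gradient zero at `β`, hence it is in the square of the ideal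
of `β` in `K[z]`: after the translation `z ↦ z + β` (`aeval`) a polynomial with zero constant and linear coefficients is a sum of multiples of `X_i X_j` (its monomials have degree `≥ 2`), translate back: a sum of multiples of `(z_i - β_i)(z_j - β_j)`; or by induction on `p`
(`MvPolynomial.induction_on`) prove: `p - C (p(β)) - Σ C (∂_i p (β)) (z_i - β_i)` is in the square of the ideal of `β`.  Map to `HR I`: `f_j ↦ 0`, and the ideal of `β` goes into `ker (evq β)` (`Ideal.map_pow`, `Ideal.pow_right_mono`). -/

namespace RR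

open Module

variable {K : Type} [Field K] {s : ℕ} {I : Set (MvPolynomial (Fin s) K)}

private theorem sq_lin (β : Fin s → K) (p : MvPolynomial (Fin s) K) :
    p - (MvPolynomial.C (MvPolynomial.eval β p) +
      ∑ i, MvPolynomial.C (MvPolynomial.eval β (MvPolynomial.pderiv i p)) *
        (MvPolynomial.X i - MvPolynomial.C (β i))) ∈
      (RingHom.ker (MvPolynomial.eval β : MvPolynomial (Fin s) K →+* K)) ^ 2 := by
  classical
  have hX : ∀ j, (MvPolynomial.X j - MvPolynomial.C (β j) : MvPolynomial (Fin s) K) ∈
      RingHom.ker (MvPolynomial.eval β : MvPolynomial (Fin s) K →+* K) := fun j => by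
    simp [RingHom.mem_ker]
  induction p using MvPolynomial.induction_on with
  | C a => simp
  | add p q hp hq =>
    have h := Ideal.add_mem _ hp hq
    have e : p + q - (MvPolynomial.C (MvPolynomial.eval β (p + q)) +
      ∑ i, MvPolynomial.C (MvPolynomial.eval β (MvPolynomial.pderiv i (p + q))) *
        (MvPolynomial.X i - MvPolynomial.C (β i))) =
      (p - (MvPolynomial.C (MvPolynomial.eval β p) +
      ∑ i, MvPolynomial.C (MvPolynomial.eval β (MvPolynomial.pderiv i p)) *
        (MvPolynomial.X i - MvPolynomial.C (β i)))) +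
      (q - (MvPolynomial.C (MvPolynomial.eval β q) +
      ∑ i, MvPolynomial.C (MvPolynomial.eval β (MvPolynomial.pderiv i q)) *
        (MvPolynomial.X i - MvPolynomial.C (β i)))) := by
      simp only [map_add, add_mul, Finset.sum_add_distrib]
      ring
    rw [e]
    exact h
  | mul_X p j hp =>
    set S : MvPolynomial (Fin s) K :=
      ∑ i, MvPolynomial.C (MvPolynomial.eval β (MvPolynomial.pderiv i p)) *
        (MvPolynomial.X i - MvPolynomial.C (β i)) with hS
    have hSJ : S ∈ RingHom.ker (MvPolynomial.eval β : MvPolynomial (Fin s) K →+* K) := by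
      rw [hS]
      exact Ideal.sum_mem _ fun i _ => Ideal.mul_mem_left _ _ (hX i)
    have h1 := Ideal.mul_mem_right (MvPolynomial.X j) _ hp
    have h2 : S * (MvPolynomial.X j - MvPolynomial.C (β j)) ∈
        (RingHom.ker (MvPolynomial.eval β : MvPolynomial (Fin s) K →+* K)) ^ 2 := by
      rw [pow_two]
      exact Ideal.mul_mem_mul hSJ (hX j)
    have e : p * MvPolynomial.X j - (MvPolynomial.C (MvPolynomial.eval β (p * MvPolynomial.X j)) +
      ∑ i, MvPolynomial.C (MvPolynomial.eval β (MvPolynomial.pderiv i (p * MvPolynomial.X j))) *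
        (MvPolynomial.X i - MvPolynomial.C (β i))) =
      (p - (MvPolynomial.C (MvPolynomial.eval β p) + S)) * MvPolynomial.X j +
        S * (MvPolynomial.X j - MvPolynomial.C (β j)) := by
      have e1 : ∑ i, MvPolynomial.C (MvPolynomial.eval β
          (MvPolynomial.pderiv i (p * MvPolynomial.X j))) *
          (MvPolynomial.X i - MvPolynomial.C (β i)) =
          S * MvPolynomial.C (β j) + MvPolynomial.C (MvPolynomial.eval β p) *
          (MvPolynomial.X j - MvPolynomial.C (β j)) := by
        rw [hS, Finset.sum_mul]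
        have e2 : ∀ i, MvPolynomial.C (MvPolynomial.eval β
          (MvPolynomial.pderiv i (p * MvPolynomial.X j))) *
          (MvPolynomial.X i - MvPolynomial.C (β i) : MvPolynomial (Fin s) K) =
          MvPolynomial.C (MvPolynomial.eval β (MvPolynomial.pderiv i p)) *
          (MvPolynomial.X i - MvPolynomial.C (β i)) * MvPolynomial.C (β j) +
          (if i = j then MvPolynomial.C (MvPolynomial.eval β p) *
          (MvPolynomial.X j - MvPolynomial.C (β j)) else 0) := fun i => by
          rw [MvPolynomial.pderiv_mul, MvPolynomial.pderiv_X]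
          by_cases h : i = j
          · subst h
            simp
            ring
          · rw [Pi.single_apply, if_neg (fun hh => h hh.symm), if_neg h]
            simp
            ring
        rw [Finset.sum_congr rfl fun i _ => e2 i, Finset.sum_add_distrib]
        simp
      rw [e1]
      simp only [map_mul, MvPolynomial.eval_X]
      ring
    rw [e]
    exact Ideal.add_mem _ h1 h2

private theorem sq_grad (β : BPt I) {g : Fin s → K}
    (hg : g ∈ Submodule.span K {g : Fin s → K | ∃ f ∈ I, g = fun i =>
      MvPolynomial.eval β.1 (MvPolynomial.pderiv i f)}) :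
    ∃ q ∈ Ideal.span I, MvPolynomial.eval β.1 q = 0 ∧
      ∀ i, MvPolynomial.eval β.1 (MvPolynomial.pderiv i q) = g i := by
  induction hg using Submodule.span_induction with
  | mem x hx =>
    obtain ⟨f, hf, rfl⟩ := hx
    exact ⟨f, Ideal.subset_span hf, β.2.2 f hf, fun i => rfl⟩
  | zero => exact ⟨0, Ideal.zero_mem _, by simp, fun i => by simp⟩
  | add x y _ _ hx hy =>
    obtain ⟨a, ha, ha0, ha1⟩ := hx
    obtain ⟨b, hb, hb0, hb1⟩ := hy
    exact ⟨a + b, Ideal.add_mem _ ha hb, by simp [ha0, hb0], fun i => by simp [ha1, hb1]⟩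
  | smul c x _ hx =>
    obtain ⟨a, ha, ha0, ha1⟩ := hx
    refine ⟨MvPolynomial.C c * a, Ideal.mul_mem_left _ _ ha, by simp [ha0], fun i => ?_⟩
    rw [MvPolynomial.pderiv_C_mul]
    simp [ha1]

theorem D_sq (β : BPt I) {p : MvPolynomial (Fin s) K} (h0 : MvPolynomial.eval β.1 p = 0)
    (h1 : ∀ w ∈ tan I β.1, ∑ i, w i * MvPolynomial.eval β.1 (MvPolynomial.pderiv i p) = 0) :
    (Ideal.Quotient.mk (Ideal.span I) p : HR I) ∈ (RingHom.ker (evq β : HR I →ₐ[K] K)) ^ 2 := by
  classical
  have hmem : (fun i => MvPolynomial.eval β.1 (MvPolynomial.pderiv i p)) ∈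
      Submodule.span K {g : Fin s → K | ∃ f ∈ I, g = fun i =>
      MvPolynomial.eval β.1 (MvPolynomial.pderiv i f)} := by
    by_contra hne
    obtain ⟨φ, hφ, hφ0⟩ := Submodule.exists_dual_map_eq_bot_of_notMem hne inferInstance
    have key : ∀ g : Fin s → K, φ g = ∑ i, φ (Pi.single i 1) * g i := fun g => by
      conv_lhs => rw [pi_eq_sum_univ' g]
      simp [mul_comm]
    refine hφ ?_
    rw [key]
    refine h1 (fun i => φ (Pi.single i 1)) fun f hf => ?_
    rw [← key (fun i => MvPolynomial.eval β.1 (MvPolynomial.pderiv i f))]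
    have h2 : φ (fun i => MvPolynomial.eval β.1 (MvPolynomial.pderiv i f)) ∈
        (Submodule.span K {g : Fin s → K | ∃ f ∈ I, g = fun i =>
      MvPolynomial.eval β.1 (MvPolynomial.pderiv i f)}).map φ :=
      Submodule.mem_map_of_mem (Submodule.subset_span ⟨f, hf, rfl⟩)
    rw [hφ0] at h2
    exact (Submodule.mem_bot K).1 h2
  obtain ⟨q, hq, hq0, hq1⟩ := sq_grad β hmem
  have h2 := sq_lin β.1 (p - q)
  have e : p - q - (MvPolynomial.C (MvPolynomial.eval β.1 (p - q)) +
      ∑ i, MvPolynomial.C (MvPolynomial.eval β.1 (MvPolynomial.pderiv i (p - q))) *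
        (MvPolynomial.X i - MvPolynomial.C (β.1 i))) = p - q := by
    simp only [map_sub, h0, hq0, hq1]
    simp
  rw [e] at h2
  have h3 : (Ideal.Quotient.mk (Ideal.span I) p : HR I) =
      Ideal.Quotient.mk (Ideal.span I) (p - q) := by
    rw [map_sub, Ideal.Quotient.eq_zero_iff_mem.2 hq, sub_zero]
  rw [h3]
  have h4 := Ideal.mem_map_of_mem (Ideal.Quotient.mk (Ideal.span I)) h2
  rw [Ideal.map_pow] at h4
  refine Ideal.pow_right_mono ?_ 2 h4
  refine Ideal.map_le_iff_le_comap.2 fun a ha => ?_
  rw [Ideal.mem_comap, RingHom.mem_ker]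
  have h5 : MvPolynomial.eval β.1 a = 0 := ha
  rw [← MvPolynomial.coe_aeval_eq_eval] at h5
  exact h5

end RR
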