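import Pool.Agent.H99.RR.YGr

/-! # RR.YTan1 : derivations at a point of the affine cone (90 lines)

For `w ∈ tan I β` the map `p ↦ Σ w_i (∂_i p)(β)` kills `Ideal.span I` (a product `q f`, `f ∈ I`: `q(β) D f + D q f(β) = 0`; `Submodule.span_induction`), so it descends to `HR I`: `D` (`Submodule.liftQ` of `(Ideal.span I).restrictScalars K`, or `Ideal.Quotient`-lift of an additive map).
Leibniz: `MvPolynomial.pderiv` is a derivation (`Derivation.leibniz`); every element of `HR I` is some `mk p` (`Ideal.Quotient.mk_surjective`); `evq β (mk p) = eval β p` (`rfl`/`aeval_eq_eval`).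
`euler`: Euler's identity for weighted homogeneous polynomials: check it on monomials, `Σ v_i X_i ∂_i p = m p` (`p` is the sum of its monomials; `Finsupp.weight`), then apply `eval β`; the first claim is the second one for `f ∈ I` and `f(β) = 0`. -/

namespace RR

open Module

variable {K : Type} [Field K] {s : ℕ} {v : Fin s → ℕ} {I : Set (MvPolynomial (Fin s) K)}

/-- the derivation of the polynomial ring -/
private noncomputable def dv (β w : Fin s → K) : MvPolynomial (Fin s) K →ₗ[K] K :=
  ∑ i, w i • (((MvPolynomial.aeval β : MvPolynomial (Fin s) K →ₐ[K] K).toLinearMap) ∘ₗ (MvPolynomial.pderiv i : Derivation K (MvPolynomial (Fin s) K) (MvPolynomial (Fin s) K)).toLinearMap)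

private theorem dv_apply (β w : Fin s → K) (p : MvPolynomial (Fin s) K) :
    dv β w p = ∑ i, w i * MvPolynomial.eval β (MvPolynomial.pderiv i p) := by
  unfold dv
  rw [LinearMap.sum_apply]
  refine Finset.sum_congr rfl fun i _ => ?_
  rfl

private theorem dv_mul (β w : Fin s → K) (p q : MvPolynomial (Fin s) K) :
    dv β w (p * q) = MvPolynomial.eval β p * dv β w q + dv β w p * MvPolynomial.eval β q := by
  simp only [dv_apply, Derivation.leibniz, smul_eq_mul, map_add, map_mul, mul_add, Finset.sum_add_distrib, Finset.mul_sum, Finset.sum_mul]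
  congr 1
  · exact Finset.sum_congr rfl fun i _ => by ring
  · exact Finset.sum_congr rfl fun i _ => by ring

theorem exists_D (β : BPt I) (w : Fin s → K) (hw : w ∈ tan I β.1) : ∃ D : HR I →ₗ[K] K,
    (∀ p : MvPolynomial (Fin s) K, D (Ideal.Quotient.mk (Ideal.span I) p) = ∑ i, w i * MvPolynomial.eval β.1 (MvPolynomial.pderiv i p)) ∧
    ∀ a b, D (a * b) = evq β a * D b + D a * evq β b := by
  have h0 : ∀ p ∈ Ideal.span I, MvPolynomial.eval β.1 p = 0 ∧ dv β.1 w p = 0 := by
    intro p hp
    induction hp using Submodule.span_induction with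
    | mem x hx =>
      refine ⟨β.2.2 x hx, ?_⟩
      rw [dv_apply]
      exact hw x hx
    | zero => exact ⟨map_zero _, map_zero _⟩
    | add x y _ _ hx hy => exact ⟨by rw [map_add, hx.1, hy.1, add_zero], by rw [map_add, hx.2, hy.2, add_zero]⟩
    | smul a x _ hx =>
      refine ⟨by rw [smul_eq_mul, map_mul, hx.1, mul_zero], ?_⟩
      rw [smul_eq_mul, dv_mul, hx.1, hx.2, mul_zero, mul_zero, add_zero]
  let D : HR I →ₗ[K] K := Submodule.liftQ ((Ideal.span I).restrictScalars K) (dv β.1 w) (fun p hp => (h0 p hp).2)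
  have hD : ∀ p : MvPolynomial (Fin s) K, D (Ideal.Quotient.mk (Ideal.span I) p) = dv β.1 w p := fun p => rfl
  refine ⟨D, fun p => by rw [hD, dv_apply], fun a b => ?_⟩
  obtain ⟨p, rfl⟩ := Ideal.Quotient.mk_surjective a
  obtain ⟨q, rfl⟩ := Ideal.Quotient.mk_surjective b
  rw [← map_mul, hD, hD, hD, dv_mul]
  rfl

theorem euler (hom : ∀ f ∈ I, ∃ m, 0 < m ∧ MvPolynomial.IsWeightedHomogeneous v f m) (β : BPt I) :
    (fun i => (v i : K) * β.1 i) ∈ tan I β.1 ∧ ∀ m, ∀ p : MvPolynomial (Fin s) K, MvPolynomial.IsWeightedHomogeneous v p m →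
      ∑ i, ((v i : K) * β.1 i) * MvPolynomial.eval β.1 (MvPolynomial.pderiv i p) = m * MvPolynomial.eval β.1 p := by
  have key : ∀ m, ∀ p : MvPolynomial (Fin s) K, MvPolynomial.IsWeightedHomogeneous v p m →
      ∑ i, ((v i : K) * β.1 i) * MvPolynomial.eval β.1 (MvPolynomial.pderiv i p) = m * MvPolynomial.eval β.1 p := by
    intro m p hp
    have h1 := congrArg (MvPolynomial.eval β.1) hp.sum_weight_X_mul_pderiv
    rw [map_sum] at h1
    simp only [map_mul, MvPolynomial.eval_X, nsmul_eq_mul, map_natCast] at h1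
    rw [← h1]
    exact Finset.sum_congr rfl fun i _ => by ring
  refine ⟨fun f hf => ?_, key⟩
  obtain ⟨m, -, hm⟩ := hom f hf
  have h1 := key m f hm
  rw [β.2.2 f hf, mul_zero] at h1
  exact h1

end RR
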