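import Pool.Agent.H99.RR.YMpt
import Pool.Agent.H99.RR.YBig

/-! # RR.YTan2 : the ideal `N = ker (evq β)` is generated by `M = Mi v I β` and one element, locally (120 lines)

`mi_lin`: `l : HR I → K[X]`, kernel `M`, a form `f` of degree `m` goes to `f(β) X^m`; so `evq β a = (l a)(1)` (check on forms, `frm_comp`).  `big_form`: `h_j`, form of degree `j` with value `1`, for all `j ≥ m0`; `l h_j = X^j`.  `y = h_(m0+1) - h_(m0)`: `l y = X^m0 (X - 1)`.
`a ∈ N`: `l a = (X - 1) Q`.  Let `b = h_(2 m0)`, and let `c` be the combination of the `h_j` with `l c = X^m0 Q` (`X^m0 Q = Σ q_i X^(m0 + i)`).  `l (b a) = X^(2 m0) (X - 1) Q = l (y c)`, so `b a - y c ∈ M`; `evq β b = 1`.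
`sq_mi`: `a ∈ M ⊓ N^2`: there is `b` with `evq β b ≠ 0`, `b a ∈ M * N`: write `a = Σ u_k w_k` with `u_k, w_k ∈ N` (`N^2 = N * N`, `Submodule.mul_induction_on`, generalised to: for `a ∈ N^2` there are `b` with `evq β b ≠ 0`, `m ∈ M * N` and `c` with `b a = m + c y^2`;
for a product `u w`: `b u = m1 + c1 y`, `b' w = m2 + c2 y`: `b b' u w = (m1 m2 + m1 c2 y + c1 m2 y) + c1 c2 y^2`, all in `M * N` except the last term, since `y ∈ N`, `M ≤ N`).  Then `c y^2 = b a - m ∈ M`, `y ∉ M` (`l y ≠ 0`), so `c ∈ M` (`mi_prime`), `c y^2 ∈ M * N`. -/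

namespace RR

open Module

variable {K : Type} [Field K] {s : ℕ} {v : Fin s → ℕ} {I : Set (MvPolynomial (Fin s) K)} {d g : ℕ}

/-- the square of `N` and the prime ideal `M`, in general -/
private theorem ytan2_gen {R κ : Type} [CommRing R] [Field κ] (ev : R →+* κ) {M N : Ideal R} (hMN : M ≤ N) (hP : M.IsPrime)
    {y : R} (hyN : y ∈ N) (hyM : y ∉ M) (hy : ∀ a ∈ N, ∃ b c, ev b = 1 ∧ b * a - c * y ∈ M) {a : R} (ha : a ∈ M)
    (ha2 : a ∈ N ^ 2) : ∃ b, ev b ≠ 0 ∧ b * a ∈ M * N := by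
  have h1 : ∃ b m c, ev b ≠ 0 ∧ m ∈ M * N ∧ b * a = m + c * y ^ 2 := by
    rw [sq] at ha2
    refine Submodule.mul_induction_on ha2 (fun u hu w hw => ?_) (fun a1 a2 h1 h2 => ?_)
    · obtain ⟨b, c1, hb, hm1⟩ := hy u hu
      obtain ⟨b', c2, hb', hm2⟩ := hy w hw
      refine ⟨b * b', (b * u - c1 * y) * (b' * w - c2 * y) + (b * u - c1 * y) * (c2 * y) +
        (b' * w - c2 * y) * (c1 * y), c1 * c2, ?_, ?_, ?_⟩
      · rw [map_mul, hb, hb', one_mul]
        exact one_ne_zero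
      · refine Ideal.add_mem _ (Ideal.add_mem _ (Ideal.mul_mem_mul hm1 (hMN hm2)) (Ideal.mul_mem_mul hm1 ?_))
          (Ideal.mul_mem_mul hm2 ?_)
        · exact Ideal.mul_mem_left _ _ hyN
        · exact Ideal.mul_mem_left _ _ hyN
      · ring
    · obtain ⟨b1, m1, c1, hb1, hm1, e1⟩ := h1
      obtain ⟨b2, m2, c2, hb2, hm2, e2⟩ := h2
      refine ⟨b1 * b2, b2 * m1 + b1 * m2, b2 * c1 + b1 * c2, ?_, ?_, ?_⟩
      · rw [map_mul]
        exact mul_ne_zero hb1 hb2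
      · exact Ideal.add_mem _ (Ideal.mul_mem_left _ _ hm1) (Ideal.mul_mem_left _ _ hm2)
      · linear_combination b2 * e1 + b1 * e2
  obtain ⟨b, m, c, hb, hm, e⟩ := h1
  refine ⟨b, hb, ?_⟩
  have h2 : c * y ^ 2 ∈ M := by
    have h3 : c * y ^ 2 = b * a - m := by rw [e]; ring
    rw [h3]
    exact Ideal.sub_mem _ (Ideal.mul_mem_left _ _ ha) (Ideal.mul_le_left hm)
  have h3 : c ∈ M := by
    rcases hP.mem_or_mem h2 with h4 | h4
    · exact h4
    · exact absurd (hP.mem_of_pow_mem _ h4) hyM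
  rw [e]
  refine Ideal.add_mem _ hm (Ideal.mul_mem_mul h3 ?_)
  rw [sq]
  exact Ideal.mul_mem_left _ _ hyN

theorem mi_le (β : BPt I) : Mi v I β ≤ RingHom.ker (evq β : HR I →ₐ[K] K) :=
  Ideal.span_le.2 fun _ ⟨_, _, h⟩ => h

/-- the homomorphism to the polynomials, with preimages of the large powers -/
private theorem ytan2_l (h : SmC v I d g) (β : BPt I) : ∃ l : HR I →ₐ[K] Polynomial K, (∀ a, l a = 0 ↔ a ∈ Mi v I β) ∧
    (∀ a, evq β a = (l a).eval 1) ∧ ∃ (m0 : ℕ) (hh : ℕ → HR I), ∀ j, m0 ≤ j → l (hh j) = Polynomial.X ^ j := by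
  obtain ⟨l, hl, hlf⟩ := mi_lin h.hom β
  obtain ⟨c, hc, hca, -⟩ := frm_comp (v := v) h.hom
  obtain ⟨m0, hm0⟩ := big_form h β
  refine ⟨l, hl, fun a => ?_, m0, ?_⟩
  · obtain ⟨N, -, hN⟩ := hca a
    conv_lhs => rw [hN]
    conv_rhs => rw [hN]
    rw [map_sum, map_sum, Polynomial.eval_finsetSum]
    refine Finset.sum_congr rfl fun m _ => ?_
    rw [hlf m _ (hc m a), Polynomial.eval_mul, Polynomial.eval_C, Polynomial.eval_pow, Polynomial.eval_X, one_pow, mul_one]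
  · have h1 : ∀ j, ∃ f : HR I, m0 ≤ j → l f = Polynomial.X ^ j := fun j => by
      by_cases hj : m0 ≤ j
      · obtain ⟨f, hf, hf1⟩ := hm0 j hj
        exact ⟨f, fun _ => by rw [hlf j f hf, hf1, Polynomial.C_1, one_mul]⟩
      · exact ⟨0, fun h => absurd h hj⟩
    choose hh hhh using h1
    exact ⟨hh, hhh⟩

theorem exists_y (h : SmC v I d g) (β : BPt I) : ∃ y : HR I, evq β y = 0 ∧ y ∉ Mi v I β ∧
    ∀ a, evq β a = 0 → ∃ b c, evq β b = 1 ∧ b * a - c * y ∈ Mi v I β := by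
  obtain ⟨l, hl, hev, m0, hh, hhh⟩ := ytan2_l h β
  have hy : l (hh (m0 + 1) - hh m0) = Polynomial.X ^ m0 * (Polynomial.X - Polynomial.C 1) := by
    rw [map_sub, hhh (m0 + 1) (Nat.le_succ m0), hhh m0 le_rfl, Polynomial.C_1, pow_succ]
    ring
  refine ⟨hh (m0 + 1) - hh m0, ?_, ?_, ?_⟩
  · rw [hev, hy]
    simp
  · rw [← hl, hy]
    exact mul_ne_zero (pow_ne_zero _ Polynomial.X_ne_zero) (Polynomial.X_sub_C_ne_zero 1)
  · intro a ha
    rw [hev] at ha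
    obtain ⟨Q, hQ⟩ := Polynomial.dvd_iff_isRoot.2 (show (l a).IsRoot 1 from ha)
    refine ⟨hh (2 * m0), ∑ i ∈ Q.support, Q.coeff i • hh (m0 + i), ?_, ?_⟩
    · rw [hev, hhh _ (by omega)]
      simp
    · rw [← hl, map_sub, map_mul, map_mul, hhh _ (by omega), hQ, hy, map_sum]
      have h1 : ∑ i ∈ Q.support, l (Q.coeff i • hh (m0 + i)) = Polynomial.X ^ m0 * Q := by
        conv_rhs => rw [Q.as_sum_support_C_mul_X_pow]
        rw [Finset.mul_sum]
        refine Finset.sum_congr rfl fun i _ => ?_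
        rw [map_smul, hhh _ (Nat.le_add_right m0 i), Polynomial.smul_eq_C_mul, pow_add]
        ring
      rw [h1]
      ring

theorem sq_mi (h : SmC v I d g) (β : BPt I) {a : HR I} (ha : a ∈ Mi v I β) (ha2 : a ∈ (RingHom.ker (evq β : HR I →ₐ[K] K)) ^ 2) :
    ∃ b, evq β b ≠ 0 ∧ b * a ∈ Mi v I β * RingHom.ker (evq β : HR I →ₐ[K] K) := by
  obtain ⟨y, hy0, hyM, hy⟩ := exists_y h β
  exact ytan2_gen (evq β : HR I →ₐ[K] K).toRingHom (mi_le β) (mi_prime h.hom β) (y := y) hy0 hyM (fun a ha => hy a ha) ha ha2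

end RR
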