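import Pool.Agent.H99.RR.YTan1
import Pool.Agent.H99.RR.YSq
import Pool.Agent.H99.RR.YTan2

/-! # RR.YTan3 : the ideal of a point is locally principal (150 lines)

`M = Mi v I β`, `N = ker (evq β)`.  `w0 = (v_i β_i) ∈ tan` (`euler`), `w0 ≠ 0` (characteristic `0`, `v i > 0`, `β ≠ 0`); `finrank (tan I β) = 2`: there is `w1 ∈ tan` such that every `w ∈ tan` is a combination of `w0`, `w1`.  `D0`, `D1` from `exists_D`.
`D0 a = 0` for `a ∈ M` (generators: forms `f` with `f(β) = 0`: `D0 f = m f(β) = 0`; `D_mul`, `Submodule.span_induction`).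
Claim 1: if `a ∈ M` and `D1 a = 0`, then there is `b` with `evq β b ≠ 0`, `b a ∈ M N` (`D_sq`: `D_w a = 0` for all `w ∈ tan`; `sq_mi`).
Claim 2: there is a form `f1 ∈ M` with `D1 f1 ≠ 0`.  Otherwise `D1 = 0` on `M` (`D1 (r f) = r(β) D1 f + D1 r * f(β)`), so by claim 1 and the determinant argument below (with `f1 = 0`) there is `b'`, `evq β b' ≠ 0`, `b' M = 0`, so `M = 0` (domain), but `mi_ne`.
Main: for `a ∈ M`: `a - (D1 a / D1 f1) • f1 ∈ M` is killed by `D1`: so `b a ∈ (f1) + M N` with `evq β b ≠ 0`.  `HR I` is Noetherian: `M` is generated by `a_1, .., a_r`; with a common `b` (product) `b a_i = c_i f1 + Σ_j n_ij a_j`, `n_ij ∈ N` (`M * N` and generators: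
`Submodule.mem_ideal_smul_span_iff_exists_sum` or similar).  Let `T = b 1 - (n_ij)`: `T a = f1 c` as vectors, multiply by the adjugate: `det T * a_i = f1 * (adj T c)_i`; `evq β (det T) = (evq β b)^r ≠ 0` (`RingHom.map_det`).
So for `a ∈ M`: `det T * a ∈ (f1)`, and `det T ∉ M` (`mi_le`). -/

namespace RR

open Module

variable {K : Type} [Field K] [CharZero K] {s : ℕ} {v : Fin s → ℕ} {I : Set (MvPolynomial (Fin s) K)} {d g : ℕ}

/-- Nakayama's lemma at a point: if every element of `M` is a multiple of `f1` up to `M * N`, `N` the kernel of the value, then `M` is in `(f1)` locally -/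
private theorem nak {R κ : Type} [CommRing R] [IsNoetherianRing R] [Field κ] [Algebra κ R] (ev : R →ₐ[κ] κ) (M : Ideal R) (f1 : R)
    (hM : ∀ a ∈ M, ∃ b c, ev b ≠ 0 ∧ b * a - f1 * c ∈ M * RingHom.ker ev) :
    ∃ r, ev r = 1 ∧ ∀ a ∈ M, ∃ c, r * a = f1 * c := by
  have h1 : ∀ a ∈ M, ∃ c, a - f1 * c ∈ RingHom.ker ev • M := by
    intro a ha
    obtain ⟨b, c, hb, hc⟩ := hM a ha
    refine ⟨algebraMap κ R (ev b)⁻¹ * c, ?_⟩
    have e1 : a - f1 * (algebraMap κ R (ev b)⁻¹ * c) =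
        algebraMap κ R (ev b)⁻¹ * (b * a - f1 * c) + (1 - algebraMap κ R (ev b)⁻¹ * b) * a := by ring
    rw [e1, smul_eq_mul]
    refine Ideal.add_mem _ ?_ (Ideal.mul_mem_mul ?_ ha)
    · rw [mul_comm (RingHom.ker ev) M]
      exact Ideal.mul_mem_left _ _ hc
    · rw [RingHom.mem_ker, map_sub, map_one, map_mul, AlgHom.commutes]
      have e2 : algebraMap κ κ (ev b)⁻¹ * ev b = 1 := by
        rw [Algebra.algebraMap_self, RingHom.id_apply]
        exact inv_mul_cancel₀ hb
      rw [e2, sub_self]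
  obtain ⟨r, hr1, hr2⟩ := Submodule.exists_sub_one_mem_and_smul_eq_zero_of_fg_of_le_smul (RingHom.ker ev)
    (Submodule.map (Submodule.mkQ (Ideal.span {f1})) M) ((IsNoetherian.noetherian M).map _) (by
      rintro _ ⟨a, ha, rfl⟩
      obtain ⟨c, hc⟩ := h1 a ha
      have e1 : Submodule.mkQ (Ideal.span {f1}) a = Submodule.mkQ (Ideal.span {f1}) (a - f1 * c) := by
        rw [map_sub]
        have e2 : Submodule.mkQ (Ideal.span {f1}) (f1 * c) = 0 := by
          rw [Submodule.mkQ_apply, Submodule.Quotient.mk_eq_zero]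
          exact Ideal.mul_mem_right _ _ (Ideal.mem_span_singleton_self f1)
        rw [e2, sub_zero]
      rw [e1, ← Submodule.map_smul'']
      exact Submodule.mem_map_of_mem hc)
  refine ⟨r, ?_, fun a ha => ?_⟩
  · rw [RingHom.mem_ker, map_sub, map_one, sub_eq_zero] at hr1
    exact hr1
  · have h2 := hr2 _ (Submodule.mem_map_of_mem (f := Submodule.mkQ (Ideal.span {f1})) ha)
    rw [← map_smul, Submodule.mkQ_apply, Submodule.Quotient.mk_eq_zero, smul_eq_mul] at h2
    obtain ⟨c, hc⟩ := Ideal.mem_span_singleton'.1 h2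
    exact ⟨c, by rw [← hc, mul_comm]⟩

/-- in a plane with a nonzero vector there is a complementary one -/
private theorem two {κ V : Type} [Field κ] [AddCommGroup V] [Module κ V] (h : finrank κ V = 2) {w0 : V} (h0 : w0 ≠ 0) :
    ∃ w1 : V, ∀ w, ∃ c0 c1 : κ, w = c0 • w0 + c1 • w1 := by
  haveI : FiniteDimensional κ V := FiniteDimensional.of_finrank_pos (by omega)
  have h1 : finrank κ (V ⧸ Submodule.span κ {w0}) = 1 := by
    have h2 := Submodule.finrank_quotient_add_finrank (Submodule.span κ {w0})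
    rw [finrank_span_singleton h0, h] at h2
    omega
  obtain ⟨u, -, hu⟩ := finrank_eq_one_iff'.1 h1
  obtain ⟨w1, rfl⟩ := Submodule.Quotient.mk_surjective _ u
  refine ⟨w1, fun w => ?_⟩
  obtain ⟨c1, hc1⟩ := hu (Submodule.Quotient.mk w)
  rw [← Submodule.Quotient.mk_smul, Submodule.Quotient.eq] at hc1
  obtain ⟨c0, hc0⟩ := Submodule.mem_span_singleton.1 hc1
  exact ⟨-c0, c1, by rw [neg_smul, hc0]; abel⟩

theorem exists_f1 (h : SmC v I d g) (β : BPt I) : ∃ m, ∃ f1 ∈ frm v I m, f1 ≠ 0 ∧ evq β f1 = 0 ∧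
    ∃ b : HR I, b ∉ Mi v I β ∧ ∀ a ∈ Mi v I β, ∃ c, b * a = f1 * c := by
  haveI := h.prime
  -- the tangent vectors
  have hw0 := (euler h.hom β).1
  have hw0n : (⟨fun i => (v i : K) * β.1 i, hw0⟩ : tan I β.1) ≠ 0 := by
    intro e
    have e1 : (fun i => (v i : K) * β.1 i) = 0 := congrArg Subtype.val e
    refine β.2.1 (funext fun i => ?_)
    have e2 : (v i : K) * β.1 i = 0 := congrFun e1 i
    rcases mul_eq_zero.1 e2 with e3 | e3
    · exact absurd e3 (Nat.cast_ne_zero.2 (h.vpos i).ne')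
    · exact e3
  obtain ⟨⟨w1, hw1⟩, hw⟩ := two (h.smooth β) hw0n
  obtain ⟨D0, hD0, hD0m⟩ := exists_D β _ hw0
  obtain ⟨D1, hD1, hD1m⟩ := exists_D β w1 hw1
  have hev : ∀ p : MvPolynomial (Fin s) K, evq β (Ideal.Quotient.mk (Ideal.span I) p) = MvPolynomial.eval β.1 p := by
    intro p
    rw [← MvPolynomial.coe_aeval_eq_eval]
    rfl
  -- `D0` is zero on `M`
  have hM0 : ∀ a ∈ Mi v I β, D0 a = 0 := by
    intro a ha
    refine Submodule.span_induction (p := fun a _ => D0 a = 0) ?_ (map_zero D0) ?_ ?_ ha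
    · rintro f ⟨m, ⟨p, hp, rfl⟩, hf⟩
      have e1 := (euler h.hom β).2 m p hp
      have e2 : MvPolynomial.eval β.1 p = 0 := by
        rw [← hev]
        exact hf
      rw [e2, mul_zero] at e1
      rw [← e1]
      exact hD0 p
    · intro x y _ _ hx hy
      rw [map_add, hx, hy, add_zero]
    · intro r x hx hx0
      have e1 : evq β x = 0 := mi_le β hx
      rw [smul_eq_mul, hD0m, hx0, e1, mul_zero, mul_zero, add_zero]
  -- claim 1
  have hC : ∀ a ∈ Mi v I β, D1 a = 0 → ∃ b, evq β b ≠ 0 ∧ b * a ∈ Mi v I β * RingHom.ker (evq β : HR I →ₐ[K] K) := by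
    intro a ha ha1
    refine sq_mi h β ha ?_
    obtain ⟨p, rfl⟩ := Ideal.Quotient.mk_surjective a
    refine D_sq β ?_ ?_
    · rw [← hev]
      exact mi_le β ha
    · intro w hwt
      obtain ⟨c0, c1, hc⟩ := hw ⟨w, hwt⟩
      have e1 : w = c0 • (fun i => (v i : K) * β.1 i) + c1 • w1 := congrArg Subtype.val hc
      have e2 := hM0 _ ha
      rw [hD0] at e2
      rw [hD1] at ha1
      have e3 : ∑ i, w i * MvPolynomial.eval β.1 (MvPolynomial.pderiv i p) =
          c0 * ∑ i, ((v i : K) * β.1 i) * MvPolynomial.eval β.1 (MvPolynomial.pderiv i p) +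
          c1 * ∑ i, w1 i * MvPolynomial.eval β.1 (MvPolynomial.pderiv i p) := by
        rw [Finset.mul_sum, Finset.mul_sum, ← Finset.sum_add_distrib]
        refine Finset.sum_congr rfl fun i _ => ?_
        have e4 : w i = c0 * ((v i : K) * β.1 i) + c1 * w1 i := by
          rw [e1]
          rfl
        rw [e4]
        ring
      rw [e3, e2, ha1, mul_zero, mul_zero, add_zero]
  -- claim 2
  have h2 : ∃ m, ∃ f1 ∈ frm v I m, evq β f1 = 0 ∧ D1 f1 ≠ 0 := by
    by_contra hcon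
    push Not at hcon
    have hM1 : ∀ a ∈ Mi v I β, D1 a = 0 := by
      intro a ha
      refine Submodule.span_induction (p := fun a _ => D1 a = 0) ?_ (map_zero D1) ?_ ?_ ha
      · rintro f ⟨m, hfm, hf⟩
        exact hcon m f hfm hf
      · intro x y _ _ hx hy
        rw [map_add, hx, hy, add_zero]
      · intro r x hx hx0
        have e1 : evq β x = 0 := mi_le β hx
        rw [smul_eq_mul, hD1m, hx0, e1, mul_zero, mul_zero, add_zero]
    obtain ⟨r, hr, hrM⟩ := nak (evq β : HR I →ₐ[K] K) (Mi v I β) 0 (by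
      intro a ha
      obtain ⟨b, hb, hb2⟩ := hC a ha (hM1 a ha)
      exact ⟨b, 0, hb, by rw [zero_mul, sub_zero]; exact hb2⟩)
    obtain ⟨m, f, hf, hf0, hfe⟩ := mi_ne h β
    obtain ⟨c, hc⟩ := hrM f ((mi_form hf).2 hfe)
    rw [zero_mul] at hc
    rcases mul_eq_zero.1 hc with e | e
    · rw [e, map_zero] at hr
      exact zero_ne_one hr
    · exact hf0 e
  obtain ⟨m, f1, hf1, hf1e, hf1D⟩ := h2
  have hf1M : f1 ∈ Mi v I β := (mi_form hf1).2 hf1e
  obtain ⟨r, hr, hrM⟩ := nak (evq β : HR I →ₐ[K] K) (Mi v I β) f1 (by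
    intro a ha
    have e1 : algebraMap K (HR I) (D1 a / D1 f1) * f1 = (D1 a / D1 f1) • f1 := (Algebra.smul_def _ _).symm
    obtain ⟨b, hb, hb2⟩ := hC (a - algebraMap K (HR I) (D1 a / D1 f1) * f1)
      (Ideal.sub_mem _ ha (Ideal.mul_mem_left _ _ hf1M)) (by
        rw [e1, map_sub, map_smul, smul_eq_mul, div_mul_cancel₀ _ hf1D, sub_self])
    refine ⟨b, b * algebraMap K (HR I) (D1 a / D1 f1), hb, ?_⟩
    have e2 : b * a - f1 * (b * algebraMap K (HR I) (D1 a / D1 f1)) =
        b * (a - algebraMap K (HR I) (D1 a / D1 f1) * f1) := by ring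
    rw [e2]
    exact hb2)
  refine ⟨m, f1, hf1, ?_, hf1e, r, ?_, hrM⟩
  · rintro rfl
    exact hf1D (map_zero D1)
  · intro hrm
    have e1 : evq β r = 0 := mi_le β hrm
    rw [hr] at e1
    exact one_ne_zero e1

end RR
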