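import Pool.Agent.H99.RR.Hom
import Pool.Agent.H99.GB.Zr

/-! # RR.Zk : the multiset of zeros `GB.zk` counts the orders of vanishing (150 lines)

`P = X.one h q`; `GB.zk_mul`, `GB.mem_zk`, `GB.zk_card`.  Write `ν p f = count (e p) (zk K f)`; `ν p (f g) = ν p f + ν p g`, `ν p f > 0` iff `ord_p f > 0`.
Fix `p ≠ q` and `τ ∈ R q` with `ord_p τ = 1` (`sep` with `D = single q M - single p 1`).  Claim `ν p f = ord_p f * ν p τ`: `n = ord_p f`; let `y ∈ R q` with `ord_p y = 0` and `ord_r y ≥ n * ord_r τ` for all other zeros `r ≠ q` of `τ`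
(`sep` with `D = single q M - Σ_r (n ord_r τ) r`, `S = {p}`); then `z = f y / τ ^ n` is in `R q` with `ord_p z = 0`, and `f y = τ ^ n z`: `ν p f = n ν p τ`.  In particular `ν p f ≥ ord_p f` (`ν p τ ≥ 1`).
All elements of `zk K f` are of the form `e p` (`hom_eq`), so `card (zk K f) = Σ_(p ≠ q) ν p f` (sum over the zeros of `f`; `Multiset.toFinset_sum_count_eq`, `e_inj`), `card (zk K f) = deg f = - ord_q f = Σ_(p ≠ q) ord_p f` (`deg_div`).
Hence `ν p f = ord_p f` for all `p`. -/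

namespace RR

open Module

variable {K F : Type} [Field K] [IsAlgClosed K] [Field F] [Algebra K F] (X : Crv K F) {g : ℕ}

omit [IsAlgClosed K] in
private theorem ord_pow_aux (P : Pl K F) {x : F} (hx : x ≠ 0) (n : ℕ) : P.ord (x ^ n) = n * P.ord x := by
  induction n with
  | zero => simp [P.ord_one]
  | succ n ih =>
    rw [pow_succ, P.ord_mul (pow_ne_zero n hx) hx, ih]
    push_cast
    ring

open Classical in
private theorem count_zero_aux (h : X.RI g) {q : X.Pt} {f : X.R q} (hf : f ≠ 0) {p : X.Pt} (hp : p ≠ q)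
    (h0 : (X.pl p).ord (f : F) = 0) : Multiset.count (X.e q p hp) (GB.zk K f) = 0 := by
  have hF : (f : F) ≠ 0 := fun h1 => hf (Subtype.ext h1)
  rw [Multiset.count_eq_zero, GB.mem_zk (X.one h q) hf]
  intro he
  have h1 : (X.pl p).res (f : F) = 0 := he
  rcases ((X.pl p).res_pos (f.2 p hp)).1 h1 with h2 | h2
  · exact hF h2
  · omega

open Classical in
private theorem count_pos_aux (h : X.RI g) {q : X.Pt} {f : X.R q} (hf : f ≠ 0) {p : X.Pt} (hp : p ≠ q)
    (h0 : 1 ≤ (X.pl p).ord (f : F)) : 1 ≤ Multiset.count (X.e q p hp) (GB.zk K f) := by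
  rw [Multiset.one_le_count_iff_mem, GB.mem_zk (X.one h q) hf]
  exact ((X.pl p).res_pos (f.2 p hp)).2 (Or.inr h0)

open Classical in
private theorem count_pow_aux (h : X.RI g) {q : X.Pt} {f : X.R q} (hf : f ≠ 0) {p : X.Pt} (hp : p ≠ q) (n : ℕ) :
    Multiset.count (X.e q p hp) (GB.zk K (f ^ n)) = n * Multiset.count (X.e q p hp) (GB.zk K f) := by
  induction n with
  | zero =>
    rw [pow_zero, zero_mul]
    refine count_zero_aux X h (fun h1 => ?_) hp (X.pl p).ord_one
    exact one_ne_zero (α := F) (congrArg Subtype.val h1)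
  | succ n ih =>
    rw [pow_succ, GB.zk_mul (X.one h q) (pow_ne_zero n hf) hf, Multiset.count_add, ih]
    ring

open Classical in
private theorem count_key (h : X.RI g) {q : X.Pt} {f : X.R q} (hf : f ≠ 0) {p : X.Pt} (hp : p ≠ q) :
    ∃ m : ℕ, 1 ≤ m ∧ ((Multiset.count (X.e q p hp) (GB.zk K f) : ℕ) : ℤ) = (X.pl p).ord (f : F) * m := by
  have hF : (f : F) ≠ 0 := fun h1 => hf (Subtype.ext h1)
  obtain ⟨c0, hc0⟩ := sep X h
  -- the element of order one
  have hd1 : c0 ≤ (Finsupp.single q (c0 + 1) - Finsupp.single p 1 : X.Pt →₀ ℤ).degree := by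
    rw [map_sub, Finsupp.degree_single, Finsupp.degree_single]
    omega
  obtain ⟨t, htL, ht0, htS⟩ := hc0 _ hd1 {p}
  have htp : (X.pl p).ord t = 1 := by
    rw [htS p (Finset.mem_singleton_self p)]
    simp [hp.symm]
  have htR : t ∈ X.R q := by
    intro r hr
    refine (htL r).mono ?_
    by_cases hrp : r = p
    · subst hrp
      simp [hr.symm]
    · simp [hr.symm, Ne.symm hrp]
  have htR0 : ∀ r, r ≠ q → 0 ≤ (X.pl r).ord t := fun r hr => (htR r hr).resolve_left ht0
  obtain ⟨N, hN⟩ := Int.eq_ofNat_of_zero_le ((f.2 p hp).resolve_left hF)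
  -- the auxiliary element
  set E : X.Pt →₀ ℤ := ((X.div t).erase q).erase p with hE
  have hEp : E p = 0 := by rw [hE, Finsupp.erase_same]
  have hEr : ∀ r, r ≠ p → r ≠ q → E r = (X.pl r).ord t := by
    intro r h1 h2
    rw [hE, Finsupp.erase_ne h1, Finsupp.erase_ne h2, X.div_apply ht0]
  set D : X.Pt →₀ ℤ := Finsupp.single q (c0 + (N : ℤ) * E.degree) - (N : ℤ) • E with hD
  have hd2 : c0 ≤ D.degree := by
    rw [hD, map_sub, Finsupp.degree_single, map_zsmul, smul_eq_mul]
    omega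
  have hDp : D p = 0 := by
    rw [hD]
    simp [hp.symm, hEp]
  have hDr : ∀ r, r ≠ p → r ≠ q → D r = -((N : ℤ) * (X.pl r).ord t) := by
    intro r h1 h2
    rw [hD]
    simp [h2.symm, hEr r h1 h2]
  obtain ⟨y, hyL, hy0, hyS⟩ := hc0 D hd2 {p}
  have hyp : (X.pl p).ord y = 0 := by
    rw [hyS p (Finset.mem_singleton_self p), hDp, neg_zero]
  have hyr : ∀ r, r ≠ p → r ≠ q → (N : ℤ) * (X.pl r).ord t ≤ (X.pl r).ord y := by
    intro r h1 h2
    have h3 := (hyL r).resolve_left hy0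
    rw [hDr r h1 h2, neg_neg] at h3
    exact h3
  have hyR : y ∈ X.R q := by
    intro r hr
    by_cases hrp : r = p
    · subst hrp
      exact Or.inr hyp.ge
    · exact Or.inr (le_trans (mul_nonneg (Int.natCast_nonneg N) (htR0 r hr)) (hyr r hrp hr))
  have htN : t ^ N ≠ 0 := pow_ne_zero N ht0
  set z : F := (f : F) * y / t ^ N with hz
  have hz0 : z ≠ 0 := div_ne_zero (mul_ne_zero hF hy0) htN
  have hzt : t ^ N * z = (f : F) * y := by
    rw [hz]
    field_simp
  have hzo : ∀ r, (N : ℤ) * (X.pl r).ord t + (X.pl r).ord z = (X.pl r).ord (f : F) + (X.pl r).ord y := by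
    intro r
    rw [← ord_pow_aux (X.pl r) ht0 N, ← (X.pl r).ord_mul htN hz0, hzt, (X.pl r).ord_mul hF hy0]
  have hzp : (X.pl p).ord z = 0 := by
    have h1 := hzo p
    rw [htp, hyp, hN] at h1
    omega
  have hzR : z ∈ X.R q := by
    intro r hr
    by_cases hrp : r = p
    · subst hrp
      exact Or.inr hzp.ge
    · have h1 := hzo r
      have h2 := hyr r hrp hr
      have h3 := (f.2 r hr).resolve_left hF
      exact Or.inr (by omega)
  have hmul : f * (⟨y, hyR⟩ : X.R q) = (⟨t, htR⟩ : X.R q) ^ N * ⟨z, hzR⟩ := by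
    apply Subtype.ext
    change (f : F) * y = t ^ N * z
    exact hzt.symm
  have hy0' : (⟨y, hyR⟩ : X.R q) ≠ 0 := fun h1 => hy0 (congrArg Subtype.val h1)
  have ht0' : (⟨t, htR⟩ : X.R q) ≠ 0 := fun h1 => ht0 (congrArg Subtype.val h1)
  have hz0' : (⟨z, hzR⟩ : X.R q) ≠ 0 := fun h1 => hz0 (congrArg Subtype.val h1)
  have htN' : (⟨t, htR⟩ : X.R q) ^ N ≠ 0 := pow_ne_zero N ht0'
  have hcount := congrArg (fun x => Multiset.count (X.e q p hp) (GB.zk K x)) hmul
  rw [GB.zk_mul (X.one h q) hf hy0', GB.zk_mul (X.one h q) htN' hz0', Multiset.count_add, Multiset.count_add,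
    count_zero_aux X h hy0' hp hyp, count_zero_aux X h hz0' hp hzp, count_pow_aux X h ht0' hp N, add_zero, add_zero] at hcount
  refine ⟨_, count_pos_aux X h ht0' hp htp.ge, ?_⟩
  rw [hcount, hN]
  push_cast
  rfl

open Classical in
theorem zk_count (h : X.RI g) {q : X.Pt} {f : X.R q} (hf : f ≠ 0) {p : X.Pt} (hp : p ≠ q) :
    ((Multiset.count (X.e q p hp) (GB.zk K f) : ℕ) : ℤ) = (X.pl p).ord (f : F) := by
  have hF : (f : F) ≠ 0 := fun h1 => hf (Subtype.ext h1)
  have hnn : ∀ r, r ≠ q → 0 ≤ (X.pl r).ord (f : F) := fun r hr => (f.2 r hr).resolve_left hF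
  set Z : Finset X.Pt := ((X.div (f : F)).erase q).support with hZ
  have hZq : ∀ r ∈ Z, r ≠ q := by
    intro r hr h1
    rw [hZ, Finsupp.mem_support_iff, h1, Finsupp.erase_same] at hr
    exact hr rfl
  have hle : ∀ r (hr : r ≠ q), (X.pl r).ord (f : F) ≤ ((Multiset.count (X.e q r hr) (GB.zk K f) : ℕ) : ℤ) := by
    intro r hr
    obtain ⟨m, hm, hm'⟩ := count_key X h hf hr
    rw [hm']
    exact le_mul_of_one_le_right (hnn r hr) (by exact_mod_cast hm)
  by_cases hpZ : p ∈ Z
  swap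
  · have h1 : (X.pl p).ord (f : F) = 0 := by
      rw [hZ, Finsupp.mem_support_iff, not_not, Finsupp.erase_ne hp, X.div_apply hF] at hpZ
      exact hpZ
    obtain ⟨m, -, hm'⟩ := count_key X h hf hp
    rw [hm', h1, zero_mul]
  -- the sum of the orders
  have hsum : ∑ r ∈ Z, (X.pl r).ord (f : F) = ((Multiset.card (GB.zk K f) : ℕ) : ℤ) := by
    rw [GB.zk_card (X.one h q) hf, one_deg X h hf]
    have h1 := deg_div X h hF
    rw [← Finsupp.single_add_erase q (X.div (f : F)), map_add, Finsupp.degree_single, X.div_apply hF] at h1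
    have h2 : ((X.div (f : F)).erase q).degree = ∑ r ∈ Z, (X.pl r).ord (f : F) := by
      rw [Finsupp.degree_apply]
      refine Finset.sum_congr rfl fun r hr => ?_
      rw [Finsupp.erase_ne (hZq r hr), X.div_apply hF]
    rw [← h2]
    omega
  -- the sum of the multiplicities
  have hinj : Function.Injective fun r : Z => X.e q r.1 (hZq r.1 r.2) := by
    intro r r' hr
    exact Subtype.ext (e_inj X h _ _ hr)
  have hcard : ∑ r ∈ Z.attach, Multiset.count (X.e q r.1 (hZq r.1 r.2)) (GB.zk K f) ≤ Multiset.card (GB.zk K f) := by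
    have h1 : ∑ r ∈ Z.attach, Multiset.count (X.e q r.1 (hZq r.1 r.2)) (GB.zk K f)
        = ∑ c ∈ Z.attach.image (fun r : Z => X.e q r.1 (hZq r.1 r.2)), Multiset.count c (GB.zk K f) := by
      rw [Finset.sum_image]
      intro r _ r' _ hr
      exact hinj hr
    rw [h1]
    calc ∑ c ∈ Z.attach.image (fun r : Z => X.e q r.1 (hZq r.1 r.2)), Multiset.count c (GB.zk K f)
        ≤ ∑ c ∈ Z.attach.image (fun r : Z => X.e q r.1 (hZq r.1 r.2)) ∪ (GB.zk K f).toFinset, Multiset.count c (GB.zk K f) :=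
          Finset.sum_le_sum_of_subset Finset.subset_union_left
      _ = Multiset.card (GB.zk K f) := by
          refine Multiset.sum_count_eq_card fun c hc => ?_
          exact Finset.mem_union_right _ (Multiset.mem_toFinset.2 hc)
  have hsum' : ∑ r ∈ Z, (X.pl r).ord (f : F) = ∑ r ∈ Z.attach, (X.pl r.1).ord (f : F) := (Finset.sum_attach Z _).symm
  have hle' : ∀ r ∈ Z.attach, (X.pl r.1).ord (f : F) ≤ ((Multiset.count (X.e q r.1 (hZq r.1 r.2)) (GB.zk K f) : ℕ) : ℤ) :=
    fun r _ => hle r.1 (hZq r.1 r.2)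
  have heq : ∑ r ∈ Z.attach, (X.pl r.1).ord (f : F) = ∑ r ∈ Z.attach, ((Multiset.count (X.e q r.1 (hZq r.1 r.2)) (GB.zk K f) : ℕ) : ℤ) := by
    refine le_antisymm (Finset.sum_le_sum hle') ?_
    rw [← hsum', hsum]
    exact_mod_cast hcard
  have hall := (Finset.sum_eq_sum_iff_of_le hle').1 heq ⟨p, hpZ⟩ (Finset.mem_attach _ _)
  exact hall.symm

end RR
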